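import Mathlib
import Pool.Graph.R_pool_sql_team_seeded_47a924f7.T6.H49.CSD.NearDiag

/-! # Integer matrices which are diagonal in a real basis: two facts about the eigenvalues -/

set_option autoImplicit false

open Matrix Finset H715R2

namespace Pool.Agent.KS6_90

variable {d : ℕ}

lemma stab_pow {g : Matrix (Fin d) (Fin d) ℝ} {B : Matrix (Fin d) (Fin d) ℤ} {c : Fin d → ℝ}
    (h : g * zR B = diagonal c * g) (n : ℕ) : g * zR (B ^ n) = diagonal (fun i => c i ^ n) * g := by
  induction n with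
  | zero =>
    rw [pow_zero, zR_one, Matrix.mul_one]
    simp
  | succ n ih =>
    rw [pow_succ, zR_mul, ← Matrix.mul_assoc, ih, Matrix.mul_assoc, h, ← Matrix.mul_assoc,
      diagonal_mul_diagonal]
    congr 2

lemma stab_trace {g : Matrix (Fin d) (Fin d) ℝ} (hg : g.det ≠ 0) {B : Matrix (Fin d) (Fin d) ℤ}
    {c : Fin d → ℝ} (h : g * zR B = diagonal c * g) : ((B.trace : ℤ) : ℝ) = ∑ i, c i := by
  have hu := isUnit_iff_ne_zero.2 hg
  have h1 : zR B = g⁻¹ * (diagonal c * g) := by
    rw [← h, ← Matrix.mul_assoc, Matrix.nonsing_inv_mul _ hu, Matrix.one_mul]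
  have h2 : (zR B).trace = ((B.trace : ℤ) : ℝ) := by
    simp [Matrix.trace, zR]
  rw [← h2, h1, Matrix.trace_mul_comm, Matrix.mul_assoc, Matrix.mul_nonsing_inv _ hu,
    Matrix.mul_one, Matrix.trace_diagonal]

/-- the discriminant is an integer -/
lemma disc_int {g : Matrix (Fin d) (Fin d) ℝ} (hg : g.det ≠ 0) {B : Matrix (Fin d) (Fin d) ℤ}
    {c : Fin d → ℝ} (h : g * zR B = diagonal c * g) :
    ∃ z : ℤ, (vandermonde c).det ^ 2 = (z : ℝ) := by
  classical
  set T : Matrix (Fin d) (Fin d) ℤ := Matrix.of fun a b => (B ^ ((a : ℕ) + (b : ℕ))).trace with hT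
  refine ⟨T.det, ?_⟩
  have h1 : zR T = (vandermonde c)ᵀ * vandermonde c := by
    ext a b
    rw [Matrix.mul_apply]
    simp only [zR, Matrix.map_apply, hT, Matrix.of_apply, Matrix.transpose_apply,
      Matrix.vandermonde_apply]
    rw [stab_trace hg (stab_pow h _)]
    exact Finset.sum_congr rfl fun i _ => pow_add _ _ _
  rw [← det_zR, h1, Matrix.det_mul, Matrix.det_transpose, sq]

lemma prod_le_of_mem {α : Type*} [DecidableEq α] (s : Finset α) (f : α → ℝ) {H : ℝ} (hH : 1 ≤ H)
    (hf0 : ∀ a ∈ s, 0 ≤ f a) (hf : ∀ a ∈ s, f a ≤ H) {a : α} (ha : a ∈ s) {n : ℕ}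
    (hn : s.card ≤ n) : ∏ b ∈ s, f b ≤ f a * H ^ n := by
  rw [← Finset.mul_prod_erase _ _ ha]
  refine mul_le_mul_of_nonneg_left ?_ (hf0 a ha)
  calc ∏ b ∈ s.erase a, f b ≤ ∏ _b ∈ s.erase a, H :=
        Finset.prod_le_prod (fun b hb => hf0 b (Finset.mem_of_mem_erase hb))
          fun b hb => hf b (Finset.mem_of_mem_erase hb)
    _ = H ^ (s.erase a).card := by rw [Finset.prod_const]
    _ ≤ H ^ n := pow_le_pow_right₀ hH ((Finset.card_le_card (Finset.erase_subset _ _)).trans hn)

/-- distinct eigenvalues are not too close -/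
lemma eigen_gap {g : Matrix (Fin d) (Fin d) ℝ} (hg : g.det ≠ 0) {B : Matrix (Fin d) (Fin d) ℤ}
    {c : Fin d → ℝ} (h : g * zR B = diagonal c * g) (hinj : Function.Injective c) {H : ℝ}
    (hH : 1 ≤ H) (hc : ∀ i, |c i| ≤ H) {i j : Fin d} (hij : i ≠ j) :
    1 ≤ |c i - c j| * (2 * H) ^ (d * d) := by
  classical
  obtain ⟨z, hz⟩ := disc_int hg h
  have hne : (vandermonde c).det ≠ 0 := Matrix.det_vandermonde_ne_zero_iff.2 hinj
  have hz0 : z ≠ 0 := by
    rintro rfl
    rw [Int.cast_zero] at hz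
    exact hne (pow_eq_zero_iff two_ne_zero |>.1 hz)
  have hz1 : (1 : ℝ) ≤ |(z : ℝ)| := by
    have : (1 : ℤ) ≤ |z| := Int.one_le_abs hz0
    exact_mod_cast this
  have h1 : 1 ≤ |(vandermonde c).det| := by
    by_contra hcon
    push Not at hcon
    rw [← hz, abs_pow] at hz1
    have := pow_lt_one₀ (abs_nonneg _) hcon two_ne_zero
    linarith
  rw [Matrix.det_vandermonde, Finset.prod_sigma', Finset.abs_prod] at h1
  -- the pair
  have hpair : ∀ i j : Fin d, i < j → 1 ≤ |c i - c j| * (2 * H) ^ (d * d) := by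
    intro i j hij
    set s : Finset (Σ _ : Fin d, Fin d) := (univ : Finset (Fin d)).sigma fun i => Ioi i with hs
    have hcard : s.card ≤ d * d := by
      rw [hs, Finset.card_sigma]
      calc ∑ a : Fin d, (Ioi a).card ≤ ∑ _a : Fin d, d :=
            Finset.sum_le_sum fun a _ => (Finset.card_le_univ _).trans (by simp)
        _ = d * d := by simp
    have h2 := prod_le_of_mem s (fun x => |c x.2 - c x.1|) (H := 2 * H) (by linarith)
      (fun _ _ => abs_nonneg _) (fun x _ => by
        refine (abs_sub _ _).trans ?_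
        linarith [hc x.1, hc x.2]) (a := ⟨i, j⟩) (by rw [hs]; simp [hij]) hcard
    simp only at h2
    rw [abs_sub_comm (c i)]
    exact h1.trans h2
  rcases lt_or_gt_of_ne hij with hlt | hlt
  · exact hpair i j hlt
  · rw [abs_sub_comm]
    exact hpair j i hlt

/-- a single double eigenvalue is an integer which divides the determinant -/
lemma double_int {g : Matrix (Fin d) (Fin d) ℝ} (hg : g.det ≠ 0) {B : Matrix (Fin d) (Fin d) ℤ}
    {c : Fin d → ℝ} (h : g * zR B = diagonal c * g) {i j : Fin d} (hij : i ≠ j)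
    (heq : c i = c j) (hinj : ∀ k l, k ≠ l → c k = c l → c k = c i) :
    ∃ z : ℤ, c i = z ∧ z ∣ B.det := by
  classical
  have hu : IsUnit g.det := isUnit_iff_ne_zero.2 hg
  set P : Polynomial ℤ := B.charpoly with hP
  have hPm : P.Monic := Matrix.charpoly_monic _
  have hPmap : P.map (Int.castRingHom ℝ) = ∏ i, (Polynomial.X - Polynomial.C (c i)) := by
    have h1 : P.map (Int.castRingHom ℝ) = (zR B).charpoly := by
      rw [hP, ← Matrix.charpoly_map]
      rfl
    have hug : IsUnit g := (Matrix.isUnit_iff_isUnit_det g).2 hu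
    obtain ⟨u, hu'⟩ := hug
    have h2 : zR B = (u : Matrix (Fin d) (Fin d) ℝ)⁻¹ * diagonal c * (u : Matrix (Fin d) (Fin d) ℝ) := by
      rw [Matrix.mul_assoc, hu', ← h, ← Matrix.mul_assoc, Matrix.nonsing_inv_mul _ hu,
        Matrix.one_mul]
    rw [h1, h2, Matrix.charpoly_units_conj', Matrix.charpoly_diagonal]
  set Q : Polynomial ℚ := P.map (Int.castRingHom ℚ) with hQ
  have hQm : Q.Monic := hPm.map _
  have hQmap : Q.map (algebraMap ℚ ℝ) = ∏ i, (Polynomial.X - Polynomial.C (c i)) := by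
    rw [hQ, Polynomial.map_map, ← hPmap]
    congr 1
  -- the derivative
  have hder : ∀ m, Polynomial.eval (c m)
      (Polynomial.derivative (∏ i, (Polynomial.X - Polynomial.C (c i)))) =
        ∏ k ∈ univ.erase m, (c m - c k) := by
    intro m
    rw [Polynomial.derivative_prod_finset, Polynomial.eval_finsetSum]
    rw [Finset.sum_eq_single m]
    · simp [Polynomial.eval_prod]
    · intro k _ hk
      simp only [Polynomial.derivative_sub, Polynomial.derivative_X, Polynomial.derivative_C,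
        sub_zero, mul_one, Polynomial.eval_prod]
      refine Finset.prod_eq_zero (i := m) (Finset.mem_erase.2 ⟨hk.symm, Finset.mem_univ _⟩) ?_
      simp
    · intro h
      exact absurd (Finset.mem_univ _) h
  have hroot : ∀ r : ℝ, Polynomial.aeval r Q = 0 ↔ ∃ i, r = c i := by
    intro r
    rw [Polynomial.aeval_def, ← Polynomial.eval_map, hQmap, Polynomial.eval_prod,
      Finset.prod_eq_zero_iff]
    simp [sub_eq_zero]
  have hQ0 : Polynomial.aeval (c i) Q = 0 := (hroot _).2 ⟨i, rfl⟩
  have hderQ : ∀ m, Polynomial.aeval (c m) (Polynomial.derivative Q) =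
      ∏ k ∈ univ.erase m, (c m - c k) := by
    intro m
    rw [Polynomial.aeval_def, ← Polynomial.eval_map, ← Polynomial.derivative_map, hQmap, hder]
  have hQ1 : Polynomial.aeval (c i) (Polynomial.derivative Q) = 0 := by
    rw [hderQ]
    exact Finset.prod_eq_zero (i := j) (Finset.mem_erase.2 ⟨hij.symm, Finset.mem_univ _⟩)
      (by rw [heq, sub_self])
  set f : Polynomial ℚ := minpoly ℚ (c i) with hf
  have hint : IsIntegral ℚ (c i) := ⟨Q, hQm, hQ0⟩
  have hfi : Irreducible f := minpoly.irreducible hint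
  have hfQ : f ∣ Q := minpoly.dvd ℚ _ hQ0
  have hfQ' : f ∣ Polynomial.derivative Q := minpoly.dvd ℚ _ hQ1
  have hQs : (Q.map (algebraMap ℚ ℝ)).Splits := by
    rw [hQmap]
    exact Polynomial.Splits.prod fun i _ => Polynomial.Splits.X_sub_C _
  have hfs : (f.map (algebraMap ℚ ℝ)).Splits := by
    refine hQs.of_dvd ?_ ?_
    · rw [Polynomial.map_ne_zero_iff (algebraMap ℚ ℝ).injective]
      exact hQm.ne_zero
    · exact Polynomial.map_dvd _ hfQ
  -- all roots of `f` are equal
  have hall : ∀ r : ℝ, Polynomial.aeval r f = 0 → r = c i := by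
    intro r hr
    obtain ⟨m, hm⟩ := (hroot r).1 (by
      obtain ⟨q, hq⟩ := hfQ
      rw [hq, map_mul, hr, zero_mul])
    have h1 : Polynomial.aeval r (Polynomial.derivative Q) = 0 := by
      obtain ⟨q, hq⟩ := hfQ'
      rw [hq, map_mul, hr, zero_mul]
    rw [hm, hderQ, Finset.prod_eq_zero_iff] at h1
    obtain ⟨k, hk, hk0⟩ := h1
    rw [hm]
    exact hinj m k (Finset.ne_of_mem_erase hk).symm (sub_eq_zero.1 hk0)
  have hdeg : f.natDegree = 1 := by
    have h1 := Polynomial.card_rootSet_eq_natDegree (K := ℝ) hfi.separable hfs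
    have h2 : f.rootSet ℝ = {c i} := by
      ext r
      rw [Polynomial.mem_rootSet, Set.mem_singleton_iff]
      constructor
      · rintro ⟨-, hr⟩
        exact hall r hr
      · rintro rfl
        exact ⟨hfi.ne_zero, minpoly.aeval ℚ (c i)⟩
    rw [← h1]
    have h3 : ∀ (S : Set ℝ) [Fintype S], S = {c i} → Fintype.card S = 1 := by
      intro S _ hS
      subst hS
      simp
    exact h3 _ h2
  obtain ⟨q, hq⟩ := minpoly.natDegree_eq_one_iff.1 hdeg
  -- it is an integer
  have hqP : Polynomial.aeval q P = 0 := by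
    have h1 : Polynomial.aeval q Q = 0 := by
      have h2 : algebraMap ℚ ℝ (Polynomial.aeval q Q) = 0 := by
        rw [← Polynomial.aeval_algebraMap_apply, hq]
        exact hQ0
      exact (map_eq_zero (algebraMap ℚ ℝ)).1 h2
    rw [hQ, Polynomial.aeval_def, Polynomial.eval₂_map] at h1
    rw [Polynomial.aeval_def]
    rw [show algebraMap ℤ ℚ = (algebraMap ℚ ℚ).comp (Int.castRingHom ℚ) from RingHom.ext_int _ _]
    exact h1
  obtain ⟨z, hz⟩ := isInteger_of_is_root_of_monic hPm hqP
  have hz' : (z : ℚ) = q := by simpa using hz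
  have hcz : c i = (z : ℝ) := by
    rw [← hq, ← hz']
    simp
  refine ⟨z, hcz, ?_⟩
  -- it divides the determinant
  have hPz : P.eval z = 0 := by
    have h1 : ((P.eval z : ℤ) : ℝ) = 0 := by
      have h2 := congrArg (Polynomial.eval (z : ℝ)) hPmap
      rw [Polynomial.eval_prod, Finset.prod_eq_zero (Finset.mem_univ i) (by simp [hcz])] at h2
      rw [Polynomial.eval_map] at h2
      rw [← h2, ← eq_intCast (Int.castRingHom ℝ) z, ← Polynomial.eval_map,
        Polynomial.eval_map_apply]
      simp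
    exact_mod_cast h1
  have h2 : z ∣ P.coeff 0 := by
    have h3 := Polynomial.sub_dvd_eval_sub z 0 P
    rw [hPz, sub_zero, zero_sub, ← Polynomial.coeff_zero_eq_eval_zero] at h3
    exact (dvd_neg).1 h3
  have h3 : B.det = (-1) ^ d * P.coeff 0 := by
    have := Matrix.det_eq_sign_charpoly_coeff B
    simpa [hP] using this
  rw [h3]
  exact Dvd.dvd.mul_left h2 _

end Pool.Agent.KS6_90
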