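import Mathlib

/-! # Directions in the diagonal group -/

set_option autoImplicit false

open Finset

namespace Pool.Agent.KS6_90

variable {d : ℕ}

/-- a direction with distinct entries -/
noncomputable def dirW (k : Fin d) : ℝ := (k : ℕ) - ((d : ℝ) - 1) / 2

lemma dirW_sum : ∑ k : Fin d, dirW k = 0 := by
  have h1 : ∑ k : Fin d, ((k : ℕ) : ℝ) = d * (d - 1) / 2 := by
    rw [Fin.sum_univ_eq_sum_range (fun i => (i : ℝ))]
    induction d with
    | zero => simp
    | succ n ih =>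
      rw [Finset.sum_range_succ, ih]
      push_cast
      ring
  unfold dirW
  rw [Finset.sum_sub_distrib, h1, Finset.sum_const, Finset.card_univ, Fintype.card_fin,
    nsmul_eq_mul]
  ring

lemma dirW_gap {k l : Fin d} (h : k ≠ l) : 1 ≤ |dirW k - dirW l| := by
  have h1 : dirW k - dirW l = (((k : ℕ) : ℤ) - ((l : ℕ) : ℤ) : ℤ) := by
    unfold dirW
    push_cast
    ring
  rw [h1]
  have h2 : (((k : ℕ) : ℤ) - ((l : ℕ) : ℤ)) ≠ 0 := by
    intro h3
    apply h
    apply Fin.ext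
    omega
  have h3 := Int.one_le_abs h2
  exact_mod_cast h3

lemma dirW_le (k : Fin d) : |dirW k| ≤ (d : ℝ) ^ 2 := by
  have h1 : ((k : ℕ) : ℝ) + 1 ≤ d := by exact_mod_cast k.2
  have h0 : (0 : ℝ) ≤ (k : ℕ) := Nat.cast_nonneg _
  unfold dirW
  rw [abs_le]
  constructor <;> nlinarith

/-- the sum of the positive entries of `dirV` -/
noncomputable def sV (i j : Fin d) : ℝ := ∑ k ∈ (univ.erase i).erase j, (((k : ℕ) : ℝ) + 1)

/-- a direction with exactly two equal entries -/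
noncomputable def dirV (i j : Fin d) (k : Fin d) : ℝ :=
  if k = i ∨ k = j then -(sV i j) / 2 else ((k : ℕ) : ℝ) + 1

lemma dirV_sum {i j : Fin d} (hij : i ≠ j) : ∑ k, dirV i j k = 0 := by
  classical
  rw [← Finset.add_sum_erase _ _ (Finset.mem_univ i),
    ← Finset.add_sum_erase _ _ (Finset.mem_erase.2 ⟨hij.symm, Finset.mem_univ j⟩)]
  have h1 : ∑ k ∈ (univ.erase i).erase j, dirV i j k = sV i j := by
    unfold sV
    refine Finset.sum_congr rfl fun k hk => ?_
    have h2 := Finset.ne_of_mem_erase hk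
    have h3 := Finset.ne_of_mem_erase (Finset.mem_of_mem_erase hk)
    simp [dirV, h2, h3]
  rw [h1]
  simp only [dirV, true_or, or_true, if_true]
  ring

lemma sV_pos (hd : 3 ≤ d) {i j : Fin d} : 1 ≤ sV i j := by
  classical
  obtain ⟨k, hk⟩ : ∃ k, k ∈ (univ.erase i).erase j := by
    by_contra hcon
    push Not at hcon
    have h1 : ((univ.erase i).erase j).card = 0 := by
      rw [Finset.card_eq_zero, Finset.eq_empty_iff_forall_notMem]
      exact hcon
    have h2 := Finset.pred_card_le_card_erase (s := univ.erase i) (a := j)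
    have h3 := Finset.pred_card_le_card_erase (s := (univ : Finset (Fin d))) (a := i)
    rw [Finset.card_univ, Fintype.card_fin] at h3
    omega
  have h1 : ((k : ℕ) : ℝ) + 1 ≤ sV i j :=
    Finset.single_le_sum (f := fun k : Fin d => ((k : ℕ) : ℝ) + 1) (fun _ _ => by positivity) hk
  have h2 : (0 : ℝ) ≤ (k : ℕ) := Nat.cast_nonneg _
  linarith

lemma sV_le (i j : Fin d) : sV i j ≤ (d : ℝ) ^ 2 := by
  classical
  unfold sV
  calc ∑ k ∈ (univ.erase i).erase j, (((k : ℕ) : ℝ) + 1) ≤ ∑ k : Fin d, (((k : ℕ) : ℝ) + 1) :=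
        Finset.sum_le_sum_of_subset_of_nonneg (Finset.subset_univ _) fun _ _ _ => by positivity
    _ ≤ ∑ _k : Fin d, (d : ℝ) := Finset.sum_le_sum fun k _ => by exact_mod_cast k.2
    _ = _ := by
        rw [Finset.sum_const, Finset.card_univ, Fintype.card_fin, nsmul_eq_mul]
        ring

lemma dirV_neg (hd : 3 ≤ d) {i j : Fin d} : dirV i j i ≤ -1 / 2 := by
  have := sV_pos hd (i := i) (j := j)
  simp only [dirV, true_or, if_true]
  linarith

lemma dirV_eq (i j : Fin d) : dirV i j i = dirV i j j := by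
  simp [dirV]

lemma dirV_le (i j k : Fin d) : |dirV i j k| ≤ (d : ℝ) ^ 2 := by
  have h0 : 0 ≤ sV i j := Finset.sum_nonneg fun _ _ => by positivity
  unfold dirV
  split_ifs
  · rw [abs_le]
    have := sV_le i j
    constructor <;> linarith
  · have h1 : ((k : ℕ) : ℝ) + 1 ≤ d := by exact_mod_cast k.2
    have h2 : (0 : ℝ) ≤ (k : ℕ) := Nat.cast_nonneg _
    rw [abs_le]
    constructor <;> nlinarith

lemma dirV_gap (hd : 3 ≤ d) {i j k l : Fin d} (hkl : k ≠ l)
    (h : ¬ ((k = i ∨ k = j) ∧ (l = i ∨ l = j))) : 1 ≤ |dirV i j k - dirV i j l| := by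
  have hs := sV_pos hd (i := i) (j := j)
  unfold dirV
  by_cases hk : k = i ∨ k = j
  · have hl : ¬ (l = i ∨ l = j) := fun hl => h ⟨hk, hl⟩
    rw [if_pos hk, if_neg hl]
    have h2 : (0 : ℝ) ≤ (l : ℕ) := Nat.cast_nonneg _
    rw [abs_sub_comm, abs_of_nonneg (by linarith)]
    linarith
  · rw [if_neg hk]
    by_cases hl : l = i ∨ l = j
    · rw [if_pos hl]
      have h2 : (0 : ℝ) ≤ (k : ℕ) := Nat.cast_nonneg _
      rw [abs_of_nonneg (by linarith)]
      linarith
    · rw [if_neg hl]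
      have h1 : ((k : ℕ) : ℝ) + 1 - (((l : ℕ) : ℝ) + 1) = (((k : ℕ) : ℤ) - ((l : ℕ) : ℤ) : ℤ) := by
        push_cast
        ring
      rw [h1]
      have h2 : (((k : ℕ) : ℤ) - ((l : ℕ) : ℤ)) ≠ 0 := by
        intro h3
        apply hkl
        apply Fin.ext
        omega
      have h3 := Int.one_le_abs h2
      exact_mod_cast h3

/-- the point number `m` on the line in direction `v` -/
noncomputable def pt (v : Fin d → ℝ) (L : ℝ) (m : ℕ) (k : Fin d) : ℝ := Real.exp (m * L * v k)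

lemma pt_pos (v : Fin d → ℝ) (L : ℝ) (m : ℕ) (k : Fin d) : 0 < pt v L m k := Real.exp_pos _

lemma pt_prod {v : Fin d → ℝ} (hv : ∑ k, v k = 0) (L : ℝ) (m : ℕ) : ∏ k, pt v L m k = 1 := by
  unfold pt
  rw [← Real.exp_sum, ← Finset.mul_sum, hv, mul_zero, Real.exp_zero]

lemma pt_log (v : Fin d → ℝ) (L : ℝ) (m : ℕ) (k : Fin d) : Real.log (pt v L m k) = m * L * v k :=
  Real.log_exp _

lemma abs_log_pt {v : Fin d → ℝ} {L D : ℝ} (hL : 0 ≤ L) (hv : ∀ k, |v k| ≤ D) {m M : ℕ}
    (hm : m ≤ M) (k : Fin d) : |Real.log (pt v L m k)| ≤ M * L * D := by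
  have hD : 0 ≤ D := (abs_nonneg _).trans (hv k)
  rw [pt_log, abs_mul, abs_of_nonneg (by positivity : (0 : ℝ) ≤ m * L)]
  refine mul_le_mul ?_ (hv k) (abs_nonneg _) (by positivity)
  exact mul_le_mul_of_nonneg_right (by exact_mod_cast hm) hL

lemma pt_ratio (v : Fin d → ℝ) (L : ℝ) (m m' : ℕ) (k : Fin d) :
    pt v L m' k / pt v L m k = Real.exp (((m' : ℝ) - m) * L * v k) := by
  unfold pt
  rw [← Real.exp_sub]
  congr 1
  ring

end Pool.Agent.KS6_90
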