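import Mathlib

/-! # Numerical estimates -/

set_option autoImplicit false

namespace Pool.Agent.KS6_90

lemma numerics {D K ε H η E : ℝ} (hD : 1 ≤ D) (hK : 1 ≤ K) (hε0 : 0 ≤ ε) (hH : 1 ≤ H)
    (hη : 0 < η) (hE : 1 ≤ E)
    (hε : ε * ((8 * D ^ 2 * K ^ 2 + (8 + 2 * D) * K ^ 2 / η + 2) * H ^ 4 * E) ≤ 1) :
    ε ≤ 1 / 2 ∧ 4 * D * (K * ε * H ^ 2) ≤ 1 / (2 * K * H ^ 2) ∧
      2 * D * (K * ε * H ^ 2) / (1 / (2 * K * H ^ 2)) = 4 * D * K ^ 2 * (H ^ 4 * ε) ∧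
      D * (4 * D * K ^ 2 * (H ^ 4 * ε)) ≤ 1 / 2 ∧
      (K * ε * H ^ 2) / 2 ≤ 1 / (4 * K * H ^ 2) ∧
      2 * (2 * K * H ^ 2) * (K * ε * H ^ 2) + 2 * (2 * K * H ^ 2) * (K * ε * H ^ 2) +
        2 * D * ((K * ε * H ^ 2) * (K * ε * H ^ 2)) ≤ η ∧
      4 * D * K ^ 2 * (H ^ 4 * ε) ≤ E⁻¹ := by
  have hH4 : 1 ≤ H ^ 4 := one_le_pow₀ hH
  have hH2 : 1 ≤ H ^ 2 := one_le_pow₀ hH
  have hK2 : 1 ≤ K ^ 2 := one_le_pow₀ hK
  have hD2 : D ≤ D ^ 2 := by nlinarith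
  have t1 : 0 ≤ 8 * D ^ 2 * K ^ 2 := by positivity
  have t2 : 0 ≤ (8 + 2 * D) * K ^ 2 / η := by positivity
  have hPE0 : 0 ≤ H ^ 4 * ε * E := by positivity
  have hP0 : 0 ≤ H ^ 4 * ε := by positivity
  have hPE : H ^ 4 * ε ≤ H ^ 4 * ε * E := by nlinarith
  have hsmall : ∀ b : ℝ, b ≤ 8 * D ^ 2 * K ^ 2 + (8 + 2 * D) * K ^ 2 / η + 2 →
      b * (H ^ 4 * ε * E) ≤ 1 := by
    intro b hb
    refine le_trans ?_ hε
    calc b * (H ^ 4 * ε * E) ≤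
          (8 * D ^ 2 * K ^ 2 + (8 + 2 * D) * K ^ 2 / η + 2) * (H ^ 4 * ε * E) :=
          mul_le_mul_of_nonneg_right hb hPE0
      _ = _ := by ring
  have s1 := hsmall (8 * D ^ 2 * K ^ 2) (by linarith)
  have s2 := hsmall ((8 + 2 * D) * K ^ 2 / η) (by linarith)
  have s3 := hsmall 2 (by linarith)
  have s4 : 8 * D ^ 2 * K ^ 2 * (H ^ 4 * ε) ≤ 1 :=
    (mul_le_mul_of_nonneg_left hPE t1).trans s1
  have s5 : 8 * D * K ^ 2 * (H ^ 4 * ε) ≤ 1 := by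
    refine le_trans (mul_le_mul_of_nonneg_right ?_ hP0) s4
    exact mul_le_mul_of_nonneg_right (by linarith) (by positivity)
  have s6 : 8 * K ^ 2 * (H ^ 4 * ε) ≤ 1 := by
    refine le_trans (mul_le_mul_of_nonneg_right ?_ hP0) s5
    exact mul_le_mul_of_nonneg_right (by linarith) (by positivity)
  have s7 : (8 + 2 * D) * K ^ 2 * (H ^ 4 * ε) ≤ η := by
    have h1 : (8 + 2 * D) * K ^ 2 / η * (H ^ 4 * ε) ≤ 1 :=
      (mul_le_mul_of_nonneg_left hPE t2).trans s2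
    rw [div_mul_eq_mul_div, div_le_one hη] at h1
    exact h1
  have hε1 : ε ≤ 1 / 2 := by
    have h1 : ε ≤ H ^ 4 * ε := by nlinarith
    linarith
  have hσP : (K * ε * H ^ 2) * (2 * K * H ^ 2) = 2 * K ^ 2 * (H ^ 4 * ε) := by ring
  refine ⟨hε1, ?_, ?_, ?_, ?_, ?_, ?_⟩
  · rw [le_div_iff₀ (by positivity)]
    calc 4 * D * (K * ε * H ^ 2) * (2 * K * H ^ 2) = 8 * D * K ^ 2 * (H ^ 4 * ε) := by ring
      _ ≤ 1 := s5
  · rw [div_div_eq_mul_div, div_one]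
    ring
  · calc D * (4 * D * K ^ 2 * (H ^ 4 * ε)) = (8 * D ^ 2 * K ^ 2 * (H ^ 4 * ε)) / 2 := by ring
      _ ≤ 1 / 2 := by linarith
  · rw [le_div_iff₀ (by positivity)]
    calc K * ε * H ^ 2 / 2 * (4 * K * H ^ 2) = 2 * K ^ 2 * (H ^ 4 * ε) := by ring
      _ ≤ 1 := by
        have : 0 ≤ K ^ 2 * (H ^ 4 * ε) := by positivity
        linarith
  · have h2 : (K * ε * H ^ 2) * (K * ε * H ^ 2) ≤ K ^ 2 * (H ^ 4 * ε) := by
      calc (K * ε * H ^ 2) * (K * ε * H ^ 2) = (K ^ 2 * (H ^ 4 * ε)) * ε := by ring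
        _ ≤ (K ^ 2 * (H ^ 4 * ε)) * 1 :=
          mul_le_mul_of_nonneg_left (by linarith) (by positivity)
        _ = _ := by ring
    have h3 : 2 * D * ((K * ε * H ^ 2) * (K * ε * H ^ 2)) ≤ 2 * D * (K ^ 2 * (H ^ 4 * ε)) :=
      mul_le_mul_of_nonneg_left h2 (by positivity)
    calc 2 * (2 * K * H ^ 2) * (K * ε * H ^ 2) + 2 * (2 * K * H ^ 2) * (K * ε * H ^ 2) +
          2 * D * ((K * ε * H ^ 2) * (K * ε * H ^ 2)) ≤
          2 * (2 * K * H ^ 2) * (K * ε * H ^ 2) + 2 * (2 * K * H ^ 2) * (K * ε * H ^ 2) +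
          2 * D * (K ^ 2 * (H ^ 4 * ε)) := by linarith
      _ = (8 + 2 * D) * K ^ 2 * (H ^ 4 * ε) := by ring
      _ ≤ η := s7
  · rw [← one_div, le_div_iff₀ (by linarith)]
    calc 4 * D * K ^ 2 * (H ^ 4 * ε) * E ≤ 8 * D ^ 2 * K ^ 2 * (H ^ 4 * ε * E) := by
          have h1 : 4 * D * K ^ 2 ≤ 8 * D ^ 2 * K ^ 2 :=
            mul_le_mul_of_nonneg_right (by nlinarith) (by positivity)
          calc 4 * D * K ^ 2 * (H ^ 4 * ε) * E = 4 * D * K ^ 2 * (H ^ 4 * ε * E) := by ring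
            _ ≤ _ := mul_le_mul_of_nonneg_right h1 hPE0
      _ ≤ 1 := s1

lemma sub_le_log {x y H : ℝ} (hx : 0 < x) (hy : 0 < y) (hxH : x ≤ H) (hyH : y ≤ H) :
    |x - y| ≤ H * |Real.log x - Real.log y| := by
  have key : ∀ x y : ℝ, 0 < x → 0 < y → x ≤ H → y ≤ x →
      |x - y| ≤ H * |Real.log x - Real.log y| := by
    intro x y hx hy hxH hyx
    have h1 : Real.log (y / x) ≤ y / x - 1 := Real.log_le_sub_one_of_pos (div_pos hy hx)
    rw [Real.log_div hy.ne' hx.ne'] at h1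
    have h2 : 0 ≤ Real.log x - Real.log y := sub_nonneg.2 (Real.log_le_log hy hyx)
    rw [abs_of_nonneg (sub_nonneg.2 hyx), abs_of_nonneg h2]
    have h3 : x - y = x * (1 - y / x) := by field_simp
    calc x - y = x * (1 - y / x) := h3
      _ ≤ x * (Real.log x - Real.log y) := mul_le_mul_of_nonneg_left (by linarith) hx.le
      _ ≤ H * (Real.log x - Real.log y) := mul_le_mul_of_nonneg_right hxH h2
  rcases le_total y x with h | h
  · exact key x y hx hy hxH h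
  · rw [abs_sub_comm, abs_sub_comm (Real.log x)]
    exact key y x hy hx hyH h

/-- `t` is between `u / (4 K)` and `4 K u` -/
lemma log_near {u t K : ℝ} (hK : 1 ≤ K) (hu : 0 < u) (h1 : u / (4 * K) ≤ t) (h2 : t ≤ 4 * K * u) :
    0 < t ∧ |Real.log t - Real.log u| ≤ Real.log (4 * K) := by
  have hK4 : 0 < 4 * K := by linarith
  have ht : 0 < t := lt_of_lt_of_le (div_pos hu hK4) h1
  refine ⟨ht, ?_⟩
  rw [abs_le]
  constructor
  · have h3 := Real.log_le_log (div_pos hu hK4) h1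
    rw [Real.log_div hu.ne' hK4.ne'] at h3
    linarith
  · have h3 := Real.log_le_log ht h2
    rw [Real.log_mul hK4.ne' hu.ne'] at h3
    linarith

/-- the final estimate -/
lemma phi_bound {φ H' x : ℝ} {q : ℕ} (hφ : 0 < φ) (hH' : 1 ≤ H') (hx : x ≤ H' * φ)
    (h : 1 ≤ x * (2 * H') ^ q) : Real.log H' / φ ≤ (2 * H') ^ (q + 2) := by
  have h2 : 0 < (2 * H') ^ q := by positivity
  have h1 : 1 ≤ φ * (2 * H') ^ (q + 1) := by
    calc (1 : ℝ) ≤ x * (2 * H') ^ q := h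
      _ ≤ (H' * φ) * (2 * H') ^ q := mul_le_mul_of_nonneg_right hx h2.le
      _ ≤ (2 * H' * φ) * (2 * H') ^ q := by
          refine mul_le_mul_of_nonneg_right ?_ h2.le
          nlinarith
      _ = _ := by rw [pow_succ]; ring
  rw [div_le_iff₀ hφ]
  have h3 : Real.log H' ≤ 2 * H' := by
    have := Real.log_le_sub_one_of_pos (by linarith : 0 < H')
    linarith
  calc Real.log H' ≤ 2 * H' := h3
    _ ≤ 2 * H' * (φ * (2 * H') ^ (q + 1)) := by nlinarith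
    _ = _ := by rw [pow_succ _ (q + 1)]; ring

end Pool.Agent.KS6_90
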