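import Mathlib

/-! # Left eigenvectors of nearly diagonal real matrices -/

set_option autoImplicit false

open Matrix Finset

namespace Pool.Agent.KS6_90

variable {d : ℕ}

/-- a nearly diagonal matrix with separated diagonal entries has a real eigenvalue near each of its
diagonal entries -/
lemma exists_eigenvalue {M : Matrix (Fin d) (Fin d) ℝ} {σ g : ℝ} (hσ : 0 < σ)
    (hoff : ∀ i j, i ≠ j → |M i j| ≤ σ) (hgap : ∀ i j, i ≠ j → g ≤ |M i i - M j j|)
    (hσg : 4 * d * σ ≤ g) (k : Fin d) :
    ∃ l : ℝ, |l - M k k| ≤ d * σ ∧ (l • (1 : Matrix (Fin d) (Fin d) ℝ) - M).det = 0 := by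
  classical
  have hd : 0 < d := Fin.pos k
  have hd' : (0 : ℝ) < d := by exact_mod_cast hd
  have hd1 : (1 : ℝ) ≤ d := by exact_mod_cast hd
  set s : ℝ := d * σ with hs
  have hs0 : 0 < s := by positivity
  -- the homotopy
  set E : Matrix (Fin d) (Fin d) ℝ := Matrix.of fun i j => if i = j then 0 else M i j with hE
  set A : ℝ → ℝ → Matrix (Fin d) (Fin d) ℝ := fun x t =>
    x • (1 : Matrix (Fin d) (Fin d) ℝ) - (diagonal fun i => M i i) - t • E with hA
  have hAM : ∀ x, A x 1 = x • (1 : Matrix (Fin d) (Fin d) ℝ) - M := by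
    intro x
    ext i j
    by_cases hij : i = j
    · subst hij
      simp [hA, hE]
    · simp [hA, hE, hij]
  have hA0 : ∀ x, (A x 0).det = ∏ i, (x - M i i) := by
    intro x
    have : A x 0 = diagonal fun i => x - M i i := by
      ext i j
      by_cases hij : i = j
      · subst hij
        simp [hA]
      · simp [hA, hij]
    rw [this, det_diagonal]
  -- nonvanishing
  have hne : ∀ x, (∀ i, s ≤ |x - M i i|) → ∀ t ∈ Set.Icc (0 : ℝ) 1, (A x t).det ≠ 0 := by
    intro x hx t ht
    apply det_ne_zero_of_sum_row_lt_diag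
    intro i
    have h1 : ‖A x t i i‖ = |x - M i i| := by
      simp [hA, hE]
    have h2 : ∑ j ∈ univ.erase i, ‖A x t i j‖ ≤ ∑ _j ∈ univ.erase i, σ := by
      refine Finset.sum_le_sum fun j hj => ?_
      have hji : i ≠ j := (Finset.ne_of_mem_erase hj).symm
      have h3 : ‖A x t i j‖ = |t| * |M i j| := by
        simp [hA, hE, hji]
      rw [h3, abs_of_nonneg ht.1]
      calc t * |M i j| ≤ 1 * |M i j| := mul_le_mul_of_nonneg_right ht.2 (abs_nonneg _)
        _ ≤ σ := by rw [one_mul]; exact hoff i j hji
    rw [h1]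
    refine lt_of_le_of_lt h2 (lt_of_lt_of_le ?_ (hx i))
    rw [Finset.sum_const, Finset.card_erase_of_mem (Finset.mem_univ i), Finset.card_univ,
      Fintype.card_fin, nsmul_eq_mul, hs]
    have : ((d - 1 : ℕ) : ℝ) < d := by exact_mod_cast Nat.sub_lt hd one_pos
    exact mul_lt_mul_of_pos_right this hσ
  -- same sign
  have hsign : ∀ x, (∀ i, s ≤ |x - M i i|) → 0 < (A x 1).det * ∏ i, (x - M i i) := by
    intro x hx
    by_contra hcon
    push Not at hcon
    have hcont : Continuous fun t : ℝ => (A x t).det := by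
      refine Continuous.matrix_det ?_
      simp only [hA]
      fun_prop
    have h0 := hne x hx 0 ⟨le_rfl, zero_le_one⟩
    have h1 := hne x hx 1 ⟨zero_le_one, le_rfl⟩
    rw [← hA0 x] at hcon
    have hmem : (0 : ℝ) ∈ (fun t : ℝ => (A x t).det) '' Set.Icc 0 1 := by
      rcases lt_or_gt_of_ne h0 with h0' | h0'
      · have h1' : 0 ≤ (A x 1).det := by
          by_contra h
          push Not at h
          have := mul_pos_of_neg_of_neg h h0'
          linarith
        exact intermediate_value_Icc zero_le_one hcont.continuousOn ⟨h0'.le, h1'⟩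
      · have h1' : (A x 1).det ≤ 0 := by
          by_contra h
          push Not at h
          have := mul_pos h h0'
          linarith
        exact intermediate_value_Icc' zero_le_one hcont.continuousOn ⟨h1', h0'.le⟩
    obtain ⟨t, ht, h⟩ := hmem
    exact hne x hx t ht h
  -- the two endpoints
  have hend : ∀ x, |x - M k k| = s → ∀ i, s ≤ |x - M i i| := by
    intro x hx i
    by_cases hik : i = k
    · rw [hik, hx]
    · have h1 := hgap i k hik
      have h2 : |M i i - M k k| ≤ |x - M i i| + |x - M k k| := by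
        have : M i i - M k k = (x - M k k) - (x - M i i) := by ring
        rw [this]
        refine (abs_sub _ _).trans ?_
        linarith
      rw [hx] at h2
      have : 4 * s ≤ g := by rw [hs]; linarith
      linarith
  have hp := hsign (M k k + s) (hend _ (by simp [abs_of_pos hs0]))
  have hm := hsign (M k k - s) (hend _ (by
    rw [show M k k - s - M k k = -s by ring, abs_neg, abs_of_pos hs0]))
  -- the products have opposite signs
  have hopp : (∏ i, (M k k + s - M i i)) * ∏ i, (M k k - s - M i i) < 0 := by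
    rw [← Finset.prod_mul_distrib, ← Finset.mul_prod_erase _ _ (Finset.mem_univ k)]
    have h1 : 0 < ∏ i ∈ univ.erase k, ((M k k + s - M i i) * (M k k - s - M i i)) := by
      refine Finset.prod_pos fun i hi => ?_
      have hik : i ≠ k := Finset.ne_of_mem_erase hi
      have h2 := hgap k i hik.symm
      have h3 : 4 * s ≤ g := by rw [hs]; linarith
      have h4 : s < |M k k - M i i| := by linarith
      have h5 : s ^ 2 < (M k k - M i i) ^ 2 := by
        rw [← sq_abs (M k k - M i i)]
        exact pow_lt_pow_left₀ h4 hs0.le two_ne_zero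
      nlinarith
    have h6 : (M k k + s - M k k) * (M k k - s - M k k) = -(s ^ 2) := by ring
    rw [h6]
    have : 0 < s ^ 2 := by positivity
    nlinarith
  have hprod : (A (M k k + s) 1).det * (A (M k k - s) 1).det < 0 := by
    by_contra hcon
    push Not at hcon
    have h1 := mul_pos hp hm
    have h2 : ((A (M k k + s) 1).det * ∏ i, (M k k + s - M i i)) *
        ((A (M k k - s) 1).det * ∏ i, (M k k - s - M i i)) =
        ((A (M k k + s) 1).det * (A (M k k - s) 1).det) *
          ((∏ i, (M k k + s - M i i)) * ∏ i, (M k k - s - M i i)) := by ring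
    rw [h2] at h1
    nlinarith
  have hcontx : Continuous fun x : ℝ => (A x 1).det := by
    refine Continuous.matrix_det ?_
    simp only [hA]
    fun_prop
  have hle : M k k - s ≤ M k k + s := by linarith
  have hmem : (0 : ℝ) ∈ (fun x : ℝ => (A x 1).det) '' Set.Icc (M k k - s) (M k k + s) := by
    rcases mul_neg_iff.1 hprod with ⟨h1, h2⟩ | ⟨h1, h2⟩
    · exact intermediate_value_Icc hle hcontx.continuousOn ⟨h2.le, h1.le⟩
    · exact intermediate_value_Icc' hle hcontx.continuousOn ⟨h1.le, h2.le⟩
  obtain ⟨x, hx, h⟩ := hmem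
  refine ⟨x, ?_, ?_⟩
  · rw [abs_le]
    exact ⟨by linarith [hx.1], by linarith [hx.2]⟩
  · rw [← hAM]
    exact h

/-- **Eigenbasis of a nearly diagonal matrix.** -/
theorem exists_eigenbasis {M : Matrix (Fin d) (Fin d) ℝ} {σ g : ℝ} (hσ : 0 < σ)
    (hoff : ∀ i j, i ≠ j → |M i j| ≤ σ) (hgap : ∀ i j, i ≠ j → g ≤ |M i i - M j j|)
    (hσg : 4 * d * σ ≤ g) :
    ∃ (X : Matrix (Fin d) (Fin d) ℝ) (l : Fin d → ℝ), (∀ i, X i i = 0) ∧
      (∀ i j, |X i j| ≤ 2 * d * σ / g) ∧ (∀ i, |l i - M i i| ≤ d * σ) ∧
      (1 + X) * M = diagonal l * (1 + X) := by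
  classical
  have key : ∀ k : Fin d, ∃ (l : ℝ) (u : Fin d → ℝ), |l - M k k| ≤ d * σ ∧ u k = 1 ∧
      (∀ j, j ≠ k → |u j| ≤ 2 * d * σ / g) ∧ u ᵥ* M = l • u := by
    intro k
    have hd : 0 < d := Fin.pos k
    have hd' : (0 : ℝ) < d := by exact_mod_cast hd
    obtain ⟨l, hl, hdet⟩ := exists_eigenvalue hσ hoff hgap hσg k
    obtain ⟨v, hv0, hv⟩ := Matrix.exists_vecMul_eq_zero_iff.2 hdet
    have hvM : v ᵥ* M = l • v := by
      rw [Matrix.vecMul_sub, Matrix.vecMul_smul, Matrix.vecMul_one, sub_eq_zero] at hv
      exact hv.symm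
    have hg0 : 0 < g := lt_of_lt_of_le (by positivity) hσg
    -- entries
    have hent : ∀ j, v j * (l - M j j) = ∑ m ∈ univ.erase j, v m * M m j := by
      intro j
      have h1 := congrFun hvM j
      simp only [Matrix.vecMul, dotProduct, Pi.smul_apply, smul_eq_mul] at h1
      rw [← Finset.add_sum_erase _ _ (Finset.mem_univ j)] at h1
      linarith
    obtain ⟨m, _, hm⟩ := Finset.exists_max_image (univ : Finset (Fin d)) (fun j => |v j|)
      ⟨k, Finset.mem_univ k⟩
    have hmpos : 0 < |v m| := by
      by_contra h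
      push Not at h
      apply hv0
      funext j
      have h1 := (hm j (Finset.mem_univ j)).trans h
      exact abs_eq_zero.1 (le_antisymm h1 (abs_nonneg _))
    have hbd : ∀ j, |v j| * |l - M j j| ≤ d * σ * |v m| := by
      intro j
      rw [← abs_mul, hent j]
      calc |∑ m ∈ univ.erase j, v m * M m j| ≤ ∑ m ∈ univ.erase j, |v m * M m j| :=
            Finset.abs_sum_le_sum_abs _ _
        _ ≤ ∑ _m ∈ univ.erase j, |v m| * σ := by
            refine Finset.sum_le_sum fun n hn => ?_
            rw [abs_mul]
            exact mul_le_mul (hm n (Finset.mem_univ n)) (hoff n j (Finset.ne_of_mem_erase hn))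
              (abs_nonneg _) (abs_nonneg _)
        _ ≤ ∑ _m : Fin d, |v m| * σ :=
            Finset.sum_le_sum_of_subset_of_nonneg (Finset.subset_univ _) fun _ _ _ => by positivity
        _ = _ := by
            rw [Finset.sum_const, Finset.card_univ, Fintype.card_fin, nsmul_eq_mul]
            ring
    have hlow : ∀ j, j ≠ k → g / 2 < |l - M j j| := by
      intro j hj
      have h1 := hgap j k hj
      have h2 : |M j j - M k k| ≤ |l - M j j| + |l - M k k| := by
        have : M j j - M k k = (l - M k k) - (l - M j j) := by ring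
        rw [this]
        refine (abs_sub _ _).trans ?_
        linarith
      linarith
    have hmk : m = k := by
      by_contra h
      have h1 := hbd m
      have h2 := hlow m h
      have h3 : g / 2 * |v m| < |v m| * |l - M m m| := by
        rw [mul_comm]
        exact mul_lt_mul_of_pos_left h2 hmpos
      have h4 : d * σ * |v m| ≤ g / 2 * |v m| := by
        refine mul_le_mul_of_nonneg_right ?_ hmpos.le
        have : 0 < d * σ := by positivity
        linarith
      linarith
    subst hmk
    have hvm : v m ≠ 0 := abs_pos.1 hmpos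
    refine ⟨l, fun j => (v m)⁻¹ * v j, hl, inv_mul_cancel₀ hvm, fun j hj => ?_, ?_⟩
    · rw [abs_mul, abs_inv, inv_mul_le_iff₀ hmpos, mul_comm, div_mul_eq_mul_div, le_div_iff₀ hg0]
      have h1 := hbd j
      have h2 := hlow j hj
      have h3 : |v j| * (g / 2) ≤ |v j| * |l - M j j| :=
        mul_le_mul_of_nonneg_left h2.le (abs_nonneg _)
      nlinarith
    · have : (fun j => (v m)⁻¹ * v j) = (v m)⁻¹ • v := rfl
      rw [this, Matrix.smul_vecMul, hvM, smul_comm]
  choose l u hl hu1 hu2 hu3 using key
  refine ⟨Matrix.of fun i j => if i = j then 0 else u i j, l, fun i => by simp, fun i j => ?_, hl, ?_⟩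
  · by_cases hij : i = j
    · subst hij
      have hd : 0 < d := Fin.pos i
      have hg0 : 0 < g := lt_of_lt_of_le (by positivity) hσg
      simp only [Matrix.of_apply, if_true, abs_zero]
      positivity
    · simp only [Matrix.of_apply, if_neg hij]
      exact hu2 i j (Ne.symm hij)
  · have h1 : (1 + (Matrix.of fun i j => if i = j then 0 else u i j) : Matrix (Fin d) (Fin d) ℝ) =
        Matrix.of u := by
      ext i j
      by_cases hij : i = j
      · subst hij
        simp [hu1]
      · simp [hij]
    rw [h1]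
    ext i j
    have h2 := congrFun (hu3 i) j
    rw [Matrix.diagonal_mul]
    simpa [Matrix.mul_apply, Matrix.vecMul, dotProduct] using h2

end Pool.Agent.KS6_90
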