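import Mathlib
import Pool.Agent.KS6_90.Arith

/-! # Small values from a small drift and an almost symmetric unit -/

set_option autoImplicit false

open Matrix Finset H715R2

namespace Pool.Agent.KS6_90

variable {d : ℕ}

lemma prod_add_le (s : Finset (Fin d)) (A : Fin d → ℝ) {Y e : ℝ} (hA : ∀ l, 0 ≤ A l)
    (hAY : ∀ l, A l ≤ Y) (he0 : 0 ≤ e) (he1 : e ≤ 1) :
    ∏ l ∈ s, (A l + e) ≤ ∏ l ∈ s, A l + e * (Y + 2) ^ s.card := by
  classical
  induction s using Finset.induction_on with
  | empty => simp [he0]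
  | insert a s ha ih =>
    rw [Finset.prod_insert ha, Finset.prod_insert ha, Finset.card_insert_of_notMem ha]
    have hY : 0 ≤ Y := (hA a).trans (hAY a)
    have h1 : ∏ l ∈ s, A l ≤ (Y + 2) ^ s.card := by
      calc ∏ l ∈ s, A l ≤ ∏ _l ∈ s, (Y + 2) :=
            Finset.prod_le_prod (fun l _ => hA l) fun l _ => by linarith [hAY l]
        _ = _ := by rw [Finset.prod_const]
    have h0 : 0 ≤ ∏ l ∈ s, A l := Finset.prod_nonneg fun l _ => hA l
    have hT : (0 : ℝ) ≤ (Y + 2) ^ s.card := by positivity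
    calc (A a + e) * ∏ l ∈ s, (A l + e) ≤ (A a + e) * (∏ l ∈ s, A l + e * (Y + 2) ^ s.card) :=
          mul_le_mul_of_nonneg_left ih (by linarith [hA a])
      _ = A a * ∏ l ∈ s, A l + e * (∏ l ∈ s, A l + (A a + e) * (Y + 2) ^ s.card) := by ring
      _ ≤ A a * ∏ l ∈ s, A l + e * ((Y + 2) ^ s.card + (Y + 1) * (Y + 2) ^ s.card) := by
          refine add_le_add le_rfl (mul_le_mul_of_nonneg_left (add_le_add h1
            (mul_le_mul_of_nonneg_right ?_ hT)) he0)
          linarith [hAY a]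
      _ = A a * ∏ l ∈ s, A l + e * (Y + 2) ^ (s.card + 1) := by rw [pow_succ]; ring

/-- the vector of the linear forms, from the perturbed ones -/
lemma drift_bound {Z : Matrix (Fin d) (Fin d) ℝ} {i j : Fin d} (hij : i ≠ j) {s θ : ℝ}
    (hs0 : 0 ≤ s) (hsd : 4 * d * s ≤ 1) (hθ : |θ| = 1) (hZij : Z i j = θ)
    (hZ : ∀ k l, ¬ (k = i ∧ l = j) → |Z k l| ≤ s)
    {q y : Fin d → ℝ} (hy : y = (1 + Z) *ᵥ q) {Y : ℝ} (hY : ∀ l, |y l| ≤ Y) :
    (∀ l, |q l| ≤ 4 * Y) ∧ (∀ l, l ≠ i → |q l| ≤ |y l| + 8 * d * s * Y) ∧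
      |q i| ≤ |y i - θ * y j| + 8 * d * s * Y := by
  classical
  have hd : 0 < d := Fin.pos i
  have hY0 : 0 ≤ Y := (abs_nonneg _).trans (hY i)
  have hent : ∀ l, y l = q l + ∑ m, Z l m * q m := by
    intro l
    rw [hy, Matrix.add_mulVec, Matrix.one_mulVec]
    rfl
  obtain ⟨m, _, hm⟩ := Finset.exists_max_image (univ : Finset (Fin d)) (fun l => |q l|)
    ⟨i, Finset.mem_univ i⟩
  set Q : ℝ := |q m| with hQ
  have hQ0 : 0 ≤ Q := abs_nonneg _
  have hqQ : ∀ l, |q l| ≤ Q := fun l => hm l (Finset.mem_univ l)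
  have hrow : ∀ l (t : Finset (Fin d)), (∀ n ∈ t, ¬ (l = i ∧ n = j)) →
      |∑ n ∈ t, Z l n * q n| ≤ d * s * Q := by
    intro l t ht
    calc |∑ n ∈ t, Z l n * q n| ≤ ∑ n ∈ t, |Z l n * q n| := Finset.abs_sum_le_sum_abs _ _
      _ ≤ ∑ _n ∈ t, s * Q := by
          refine Finset.sum_le_sum fun n hn => ?_
          rw [abs_mul]
          exact mul_le_mul (hZ l n (ht n hn)) (hqQ n) (abs_nonneg _) hs0
      _ ≤ ∑ _n : Fin d, s * Q :=
          Finset.sum_le_sum_of_subset_of_nonneg (Finset.subset_univ _) fun _ _ _ => by positivity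
      _ = _ := by
          rw [Finset.sum_const, Finset.card_univ, Fintype.card_fin, nsmul_eq_mul]
          ring
  have h1 : ∀ l, l ≠ i → |q l| ≤ |y l| + d * s * Q := by
    intro l hl
    have h2 := hrow l univ (fun n _ h => hl h.1)
    have h3 : q l = y l - ∑ n, Z l n * q n := by rw [hent l]; ring
    rw [h3]
    exact (abs_sub _ _).trans (by linarith)
  have h2 : |q i| ≤ |y i - θ * y j| + 2 * (d * s * Q) := by
    have h3 := hrow i (univ.erase j) (fun n hn h => (Finset.ne_of_mem_erase hn) h.2)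
    have h4 := hrow j univ (fun n _ h => hij h.1.symm)
    have h5 : q i = (y i - θ * y j) + (θ * ∑ n, Z j n * q n -
        ∑ n ∈ univ.erase j, Z i n * q n) := by
      have h6 := hent i
      rw [← Finset.add_sum_erase _ _ (Finset.mem_univ j), hZij] at h6
      have h7 := hent j
      rw [h6, h7]
      ring
    rw [h5]
    refine (abs_add_le _ _).trans (add_le_add le_rfl ((abs_sub _ _).trans ?_))
    rw [abs_mul, hθ, one_mul]
    linarith
  have hyθ : |y i - θ * y j| ≤ 2 * Y := by
    refine (abs_sub _ _).trans ?_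
    rw [abs_mul, hθ, one_mul]
    linarith [hY i, hY j]
  have hQ4 : Q ≤ 4 * Y := by
    have h3 : 4 * (d * s * Q) ≤ Q := by
      calc 4 * (d * s * Q) = (4 * d * s) * Q := by ring
        _ ≤ 1 * Q := mul_le_mul_of_nonneg_right hsd hQ0
        _ = Q := one_mul Q
    by_cases hmi : m = i
    · rw [hmi] at hQ
      rw [← hQ] at h2
      linarith
    · have h4 := h1 m hmi
      rw [← hQ] at h4
      linarith [hY m]
  have hfin : 2 * (d * s * Q) ≤ 8 * d * s * Y := by
    have h3 : d * s * Q ≤ d * s * (4 * Y) := mul_le_mul_of_nonneg_left hQ4 (by positivity)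
    linarith
  refine ⟨fun l => (hqQ l).trans hQ4, fun l hl => (h1 l hl).trans ?_, h2.trans ?_⟩
  · have : 0 ≤ d * s * Q := by positivity
    linarith
  · linarith


/-- the scaling -/
noncomputable def scl (i j : Fin d) (s : ℝ) (k : Fin d) : ℝ :=
  if k = i then s⁻¹ else if k = j then s else 1

lemma scl_pos (i j : Fin d) {s : ℝ} (hs : 0 < s) (k : Fin d) : 0 < scl i j s k := by
  unfold scl
  split_ifs
  · exact inv_pos.2 hs
  · exact hs
  · exact one_pos

lemma scl_prod {i j : Fin d} (hij : i ≠ j) {s : ℝ} (hs : 0 < s) : ∏ k, scl i j s k = 1 := by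
  classical
  rw [← Finset.mul_prod_erase _ _ (Finset.mem_univ i),
    ← Finset.mul_prod_erase _ _ (Finset.mem_erase.2 ⟨hij.symm, Finset.mem_univ j⟩)]
  have h1 : ∏ k ∈ (univ.erase i).erase j, scl i j s k = 1 := by
    refine Finset.prod_eq_one fun k hk => ?_
    have h2 := Finset.ne_of_mem_erase hk
    have h3 := Finset.ne_of_mem_erase (Finset.mem_of_mem_erase hk)
    simp [scl, h2, h3]
  rw [h1]
  simp [scl, hij.symm, hs.ne']

lemma scl_ratio {i j : Fin d} {s : ℝ} (hs : 0 < s) (hs1 : s ≤ 1) {k l : Fin d}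
    (h : ¬ (k = i ∧ l = j)) : scl i j s k / scl i j s l ≤ s⁻¹ := by
  have h1 : 1 ≤ s⁻¹ := (one_le_inv₀ hs).2 hs1
  have h2 : s * s⁻¹ = 1 := mul_inv_cancel₀ hs.ne'
  rw [div_le_iff₀ (scl_pos i j hs l)]
  unfold scl
  by_cases hk : k = i
  · have hl : l ≠ j := fun hl => h ⟨hk, hl⟩
    rw [if_pos hk]
    by_cases hli : l = i
    · rw [if_pos hli]
      nlinarith
    · rw [if_neg hli, if_neg hl, mul_one]
  · rw [if_neg hk]
    by_cases hkj : k = j
    · rw [if_pos hkj]
      by_cases hli : l = i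
      · rw [if_pos hli]
        nlinarith
      · rw [if_neg hli]
        by_cases hlj : l = j
        · rw [if_pos hlj, mul_comm, h2]
          exact hs1
        · rw [if_neg hlj, mul_one]
          linarith
    · rw [if_neg hkj]
      by_cases hli : l = i
      · rw [if_pos hli]
        nlinarith
      · rw [if_neg hli]
        by_cases hlj : l = j
        · rw [if_pos hlj, mul_comm, h2]
        · rw [if_neg hlj, mul_one]
          exact h1

lemma scl_ij {i j : Fin d} (hij : i ≠ j) {s : ℝ} (hs : 0 < s) :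
    scl i j s i / scl i j s j = (s ^ 2)⁻¹ := by
  unfold scl
  rw [if_pos rfl, if_neg hij.symm, if_pos rfl]
  field_simp

lemma stab_inv {g : Matrix (Fin d) (Fin d) ℝ} {B : Matrix (Fin d) (Fin d) ℤ} {c : Fin d → ℝ}
    (hB : IsUnit B.det) (hc : ∀ i, c i ≠ 0) (h : g * zR B = diagonal c * g) :
    g * zR B⁻¹ = diagonal (fun i => (c i)⁻¹) * g := by
  have h1 : diagonal (fun i => (c i)⁻¹) * diagonal c = 1 := by
    rw [diagonal_mul_diagonal, ← diagonal_one]
    congr 1
    funext i
    exact inv_mul_cancel₀ (hc i)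
  calc g * zR B⁻¹ = (diagonal (fun i => (c i)⁻¹) * diagonal c) * g * zR B⁻¹ := by
        rw [h1, Matrix.one_mul]
    _ = diagonal (fun i => (c i)⁻¹) * (diagonal c * g) * zR B⁻¹ := by
        simp only [Matrix.mul_assoc]
    _ = diagonal (fun i => (c i)⁻¹) * g * (zR B * zR B⁻¹) := by
        rw [← h]
        simp only [Matrix.mul_assoc]
    _ = _ := by rw [zR_inv hB, Matrix.mul_one]

lemma stab_mulVec {g : Matrix (Fin d) (Fin d) ℝ} {B : Matrix (Fin d) (Fin d) ℤ} {c : Fin d → ℝ}
    (h : g * zR B = diagonal c * g) (n : ℕ) (x : Fin d → ℤ) (l : Fin d) :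
    (g *ᵥ iR (B ^ n *ᵥ x)) l = c l ^ n * (g *ᵥ iR x) l := by
  rw [← zR_mulVec_iR, mulVec_mulVec, stab_pow h, ← mulVec_mulVec, mulVec_diagonal]

lemma stab_prod {g : Matrix (Fin d) (Fin d) ℝ} (hg : g.det ≠ 0) {B : Matrix (Fin d) (Fin d) ℤ}
    {c : Fin d → ℝ} (hB : IsUnit B.det) (hc : ∀ i, 0 < c i) (h : g * zR B = diagonal c * g) :
    ∏ i, c i = 1 := by
  have h1 := congrArg Matrix.det h
  rw [det_mul, det_mul, det_diagonal, det_zR, mul_comm] at h1
  have h2 : (B.det : ℝ) = ∏ i, c i := mul_right_cancel₀ hg h1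
  have h3 := abs_det_of_isUnit hB
  rw [h2, abs_of_pos (Finset.prod_pos fun i _ => hc i)] at h3
  exact h3

/-- the number of steps -/
lemma exists_steps {r t φ : ℝ} (hφ : 0 < φ) (ht : |t| = φ) (hr : |r| ≤ 1) (hsgn : r * t ≤ 0) :
    ∃ n : ℕ, (n : ℝ) ≤ 1 / φ ∧ |r + n * t| ≤ φ := by
  refine ⟨⌊|r| / φ⌋₊, ?_, ?_⟩
  · exact (Nat.floor_le (by positivity)).trans (by gcongr)
  · have h1 : (⌊|r| / φ⌋₊ : ℝ) * φ ≤ |r| := by
      have := Nat.floor_le (show 0 ≤ |r| / φ by positivity)
      rwa [le_div_iff₀ hφ] at this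
    have h2 : |r| < ((⌊|r| / φ⌋₊ : ℝ) + 1) * φ := by
      have := Nat.lt_floor_add_one (|r| / φ)
      rwa [div_lt_iff₀ hφ] at this
    set n : ℝ := (⌊|r| / φ⌋₊ : ℝ) with hn
    have hn0 : 0 ≤ n := Nat.cast_nonneg _
    rcases le_total 0 r with hr0 | hr0
    · rw [abs_of_nonneg hr0] at h1 h2
      rcases le_total 0 t with ht0 | ht0
      · rw [abs_of_nonneg ht0] at ht
        have : r = 0 := by
          by_contra h
          have : 0 < r := lt_of_le_of_ne hr0 (Ne.symm h)
          have := mul_pos this (ht ▸ hφ : 0 < t)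
          linarith
        subst this
        have h3 : n = 0 := by
          by_contra h
          have : 0 < n := lt_of_le_of_ne hn0 (Ne.symm h)
          have := mul_pos this hφ
          linarith
        rw [h3]
        simp [hφ.le]
      · rw [abs_of_nonpos ht0] at ht
        have : t = -φ := by linarith
        rw [this, abs_le]
        constructor <;> nlinarith
    · rw [abs_of_nonpos hr0] at h1 h2
      rcases le_total 0 t with ht0 | ht0
      · rw [abs_of_nonneg ht0] at ht
        rw [ht, abs_le]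
        constructor <;> nlinarith
      · rw [abs_of_nonpos ht0] at ht
        have h4 : t = -φ := by linarith
        have : r = 0 := by
          by_contra h
          have h5 : r < 0 := lt_of_le_of_ne hr0 h
          have h6 : t < 0 := by linarith
          have := mul_pos_of_neg_of_neg h5 h6
          linarith
        subst this
        have h3 : n = 0 := by
          by_contra h
          have : 0 < n := lt_of_le_of_ne hn0 (Ne.symm h)
          have := mul_pos this hφ
          linarith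
        rw [h3]
        simp [hφ.le]

end Pool.Agent.KS6_90
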