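import Mathlib
import Pool.Agent.KS6_90.Exit

/-! # Small values from a small drift and an almost symmetric unit: the main lemma -/

set_option autoImplicit false

open Matrix Finset H715R2

namespace Pool.Agent.KS6_90

variable {d : ℕ}

lemma hasNu_diag' {g : Matrix (Fin d) (Fin d) ℝ} {ν : ℝ} (hnu : HasNu g ν) {a : Fin d → ℝ}
    (ha1 : ∏ i, a i = 1) : HasNu (diagonal a * g) ν := by
  intro m hm
  rw [FF_diag_mul, ha1, one_mul]
  exact hnu m hm

/-- rounding -/
lemma exists_round {h : Matrix (Fin d) (Fin d) ℝ} (hh : h.det ≠ 0) {R : ℝ}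
    (hR : ∀ i j, |h i j| ≤ R) (v : Fin d → ℝ) :
    ∃ x : Fin d → ℤ, ∀ l, |(h *ᵥ iR x) l - v l| ≤ d * R / 2 := by
  classical
  have hu := isUnit_iff_ne_zero.2 hh
  refine ⟨fun l => round ((h⁻¹ *ᵥ v) l), fun l => ?_⟩
  have h1 : v = h *ᵥ (h⁻¹ *ᵥ v) := by
    rw [mulVec_mulVec, Matrix.mul_nonsing_inv _ hu, Matrix.one_mulVec]
  have h2 : (h *ᵥ iR (fun l => round ((h⁻¹ *ᵥ v) l))) l - v l =
      ∑ m, h l m * ((round ((h⁻¹ *ᵥ v) m) : ℝ) - (h⁻¹ *ᵥ v) m) := by
    conv_lhs => rw [h1]
    simp only [mulVec, dotProduct, iR]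
    rw [← Finset.sum_sub_distrib]
    refine Finset.sum_congr rfl fun m _ => ?_
    have h3 : ∑ x, h⁻¹ m x * ∑ x_1, h x x_1 * ∑ x, h⁻¹ x_1 x * v x = ∑ x, h⁻¹ m x * v x := by
      have h4 := congrFun (congrArg (fun w => h⁻¹ *ᵥ w) h1) m
      simp only [mulVec, dotProduct] at h4
      exact h4.symm
    rw [h3]
    ring
  rw [h2]
  have hR0 : 0 ≤ R := (abs_nonneg _).trans (hR l l)
  calc |∑ m, h l m * ((round ((h⁻¹ *ᵥ v) m) : ℝ) - (h⁻¹ *ᵥ v) m)| ≤
        ∑ m, |h l m * ((round ((h⁻¹ *ᵥ v) m) : ℝ) - (h⁻¹ *ᵥ v) m)| :=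
          Finset.abs_sum_le_sum_abs _ _
    _ ≤ ∑ _m : Fin d, R * (1 / 2) := by
        refine Finset.sum_le_sum fun m _ => ?_
        rw [abs_mul]
        refine mul_le_mul (hR l m) ?_ (abs_nonneg _) hR0
        rw [abs_sub_comm]
        exact abs_sub_round _
    _ = _ := by
        rw [Finset.sum_const, Finset.card_univ, Fintype.card_fin, nsmul_eq_mul]
        ring

/-- **Small values.** Let `(1 + X) g` diagonalise a unimodular integer matrix `ζ` with positive
eigenvalues `z`, and let the largest entry `δ > 0` of `X` be at `(i, j)`. If `z i / z j` is close to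
one, at a distance which is not too small with respect to `δ`, then `F g` takes small values. -/
theorem exit_contra (hd : 0 < d) {V ν : ℝ} (hV : 0 < V) (hν : 0 < ν) :
    ∃ ε₁ C₁ : ℝ, 0 < ε₁ ∧ 0 < C₁ ∧ ∀ g : Matrix (Fin d) (Fin d) ℝ, |g.det| = V → HasNu g ν →
      ∀ (X : Matrix (Fin d) (Fin d) ℝ) (δ : ℝ) (i j : Fin d), i ≠ j → 0 < δ → |X i j| = δ →
      (∀ k l, |X k l| ≤ δ) → (∀ k, X k k = 0) →
      ∀ (ζ : Matrix (Fin d) (Fin d) ℤ) (z : Fin d → ℝ), IsUnit ζ.det →
      (1 + X) * g * zR ζ = diagonal z * ((1 + X) * g) → (∀ k, 0 < z k) →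
      ∀ ρ φ : ℝ, 1 ≤ ρ → (∀ k, |Real.log (z k)| ≤ ρ) → φ = |Real.log (z i) - Real.log (z j)| →
      0 < φ → φ ≤ ε₁ → δ ≤ Real.exp (-(C₁ * (ρ / φ))) → False := by
  classical
  obtain ⟨R, hR⟩ := exists_bound hd V ν hV hν
  have hd1 : (1 : ℝ) ≤ d := by exact_mod_cast hd
  set R1 : ℝ := max R 1 with hR1
  have hR11 : 1 ≤ R1 := le_max_right _ _
  set A : ℝ := d * R1 with hA
  have hA1 : 1 ≤ A := by rw [hA]; nlinarith
  set Y0 : ℝ := 6 * A with hY0
  have hY06 : 6 ≤ Y0 := by rw [hY0]; linarith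
  set W : ℝ := 8 * d * (Y0 + 2) ^ (d + 1) with hW
  have hpow : 8 ≤ (Y0 + 2) ^ (d + 1) := by
    calc (8 : ℝ) ≤ (Y0 + 2) ^ 1 := by linarith
      _ ≤ _ := pow_le_pow_right₀ (by linarith) (by omega)
  have hW64 : 64 * d ≤ W := by rw [hW]; nlinarith
  have hWpos : 0 < W := by nlinarith
  set m0 : ℝ := min 1 (ν / 4) with hm0
  have hm00 : 0 < m0 := lt_min one_pos (by positivity)
  set L0 : ℝ := W / m0 with hL0
  have hL00 : 0 < L0 := by positivity
  have hexpL0 : Real.exp (-L0) * W ≤ m0 := by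
    have h1 : L0 ≤ Real.exp L0 := by linarith [Real.add_one_le_exp L0]
    have h2 : Real.exp (-L0) ≤ L0⁻¹ := by
      rw [Real.exp_neg]
      exact inv_anti₀ hL00 h1
    calc Real.exp (-L0) * W ≤ L0⁻¹ * W := mul_le_mul_of_nonneg_right h2 hWpos.le
      _ = m0 := by rw [hL0]; field_simp
  refine ⟨min (1 / 6) (ν / (24 * Y0 ^ d)), 2 * (d + 1) + 2 * L0, lt_min (by norm_num)
    (by positivity), by positivity, ?_⟩
  intro g hdet hnu X δ i j hij hδ hXij hX hXd ζ z hζ hstab hz ρ φ hρ hzρ hφ hφ0 hφ1 hδ1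
  have hφ6 : φ ≤ 1 / 6 := hφ1.trans (min_le_left _ _)
  have hφν : φ ≤ ν / (24 * Y0 ^ d) := hφ1.trans (min_le_right _ _)
  -- the small number `s`
  set s : ℝ := Real.sqrt δ with hs
  have hs0 : 0 < s := Real.sqrt_pos.2 hδ
  have hs2 : s ^ 2 = δ := Real.sq_sqrt hδ.le
  set t : ℝ := ρ / φ with ht
  have ht1 : 1 ≤ t := by
    rw [ht, le_div_iff₀ hφ0]
    linarith
  have hst : s ≤ Real.exp (-((d + 1 + L0) * t)) := by
    have h1 : s ^ 2 ≤ (Real.exp (-((d + 1 + L0) * t))) ^ 2 := by
      rw [hs2, ← Real.exp_nat_mul]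
      refine hδ1.trans (le_of_eq ?_)
      congr 1
      push_cast
      ring
    exact (pow_le_pow_iff_left₀ hs0.le (Real.exp_pos _).le two_ne_zero).1 h1
  have hkey : s * Real.exp ((d + 1) * t) * W ≤ m0 := by
    have h1 : s * Real.exp ((d + 1) * t) ≤ Real.exp (-L0) := by
      calc s * Real.exp ((d + 1) * t) ≤
            Real.exp (-((d + 1 + L0) * t)) * Real.exp ((d + 1) * t) :=
              mul_le_mul_of_nonneg_right hst (Real.exp_pos _).le
        _ = Real.exp (-(L0 * t)) := by rw [← Real.exp_add]; congr 1; ring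
        _ ≤ Real.exp (-L0) := by
            apply Real.exp_le_exp.2
            nlinarith
    exact (mul_le_mul_of_nonneg_right h1 hWpos.le).trans hexpL0
  have hexp1 : 1 ≤ Real.exp ((d + 1) * t) := Real.one_le_exp (by positivity)
  have hsW : s * W ≤ m0 := by
    refine le_trans ?_ hkey
    have : s * W * 1 ≤ s * W * Real.exp ((d + 1) * t) :=
      mul_le_mul_of_nonneg_left hexp1 (by positivity)
    linarith
  have hsW1 : s * W ≤ 1 := hsW.trans (min_le_left _ _)
  have hs64 : 64 * (d * s) ≤ 1 := by nlinarith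
  have hs1 : s ≤ 1 := by nlinarith
  -- the matrices
  set a : Fin d → ℝ := scl i j s with ha
  have hapos : ∀ k, 0 < a k := scl_pos i j hs0
  have haprod : ∏ k, a k = 1 := scl_prod hij hs0
  have hdet1 : |(diagonal a * g).det| = V := by
    rw [det_mul, det_diagonal, haprod, one_mul, hdet]
  obtain ⟨γ, hγ, hγR⟩ := hR (diagonal a * g) hdet1 (hasNu_diag' hnu haprod)
  set h : Matrix (Fin d) (Fin d) ℝ := diagonal a * g * zR γ with hh
  have hhR : ∀ k l, |h k l| ≤ R1 := fun k l => (hγR k l).trans (le_max_left _ _)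
  have hhdet : h.det ≠ 0 := by
    intro h0
    have h1 : |h.det| = V := by
      rw [hh, det_mul, abs_mul, hdet1, det_zR, abs_det_of_isUnit hγ, mul_one]
    rw [h0, abs_zero] at h1
    exact hV.ne h1
  set Z : Matrix (Fin d) (Fin d) ℝ := Matrix.of fun k l => a k / a l * X k l with hZ
  have hZd : ∀ k, Z k k = 0 := fun k => by simp [hZ, hXd]
  have hZs : ∀ k l, ¬ (k = i ∧ l = j) → |Z k l| ≤ s := by
    intro k l hkl
    simp only [hZ, Matrix.of_apply]
    rw [abs_mul, abs_of_pos (div_pos (hapos k) (hapos l))]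
    calc a k / a l * |X k l| ≤ s⁻¹ * δ :=
          mul_le_mul (scl_ratio hs0 hs1 hkl) (hX k l) (abs_nonneg _) (by positivity)
      _ = s := by rw [← hs2]; field_simp
  set θ : ℝ := Z i j with hθ
  have hθ1 : |θ| = 1 := by
    rw [hθ]
    simp only [hZ, Matrix.of_apply]
    rw [abs_mul, abs_of_pos (div_pos (hapos i) (hapos j)), scl_ij hij hs0, hXij, hs2]
    exact inv_mul_cancel₀ hδ.ne'
  have hθ2 : θ * θ = 1 := by
    rw [← abs_mul_abs_self θ, hθ1, one_mul]
  have hZa : (1 + Z) * diagonal a = diagonal a * (1 + X) := by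
    ext k l
    rw [Matrix.mul_diagonal, Matrix.diagonal_mul, Matrix.add_apply, Matrix.add_apply]
    by_cases hkl : k = l
    · subst hkl
      rw [hZd, hXd]
      simp
    · simp only [hZ, Matrix.of_apply, Matrix.one_apply_ne hkl, zero_add]
      have := (hapos l).ne'
      field_simp
  have hh' : (1 + Z) * h = diagonal a * ((1 + X) * g) * zR γ := by
    rw [hh]
    calc (1 + Z) * (diagonal a * g * zR γ) = ((1 + Z) * diagonal a) * g * zR γ := by
          simp only [Matrix.mul_assoc]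
      _ = _ := by rw [hZa]; simp only [Matrix.mul_assoc]
  have hZdet : (1 + Z).det ≠ 0 := by
    have h1 : (1 + X).det ≠ 0 := by
      apply det_ne_zero_of_sum_row_lt_diag
      intro k
      have h2 : ‖(1 + X) k k‖ = 1 := by simp [hXd]
      rw [h2]
      calc ∑ l ∈ univ.erase k, ‖(1 + X) k l‖ ≤ ∑ _l ∈ univ.erase k, δ := by
            refine Finset.sum_le_sum fun l hl => ?_
            have hkl : k ≠ l := (Finset.ne_of_mem_erase hl).symm
            rw [Matrix.add_apply, Matrix.one_apply_ne hkl, zero_add]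
            exact hX k l
        _ ≤ ∑ _l : Fin d, δ :=
            Finset.sum_le_sum_of_subset_of_nonneg (Finset.subset_univ _) fun _ _ _ => hδ.le
        _ = d * δ := by
            rw [Finset.sum_const, Finset.card_univ, Fintype.card_fin, nsmul_eq_mul]
        _ < 1 := by
            rw [← hs2]
            have h3 : d * s ^ 2 ≤ d * s := by
              have : s ^ 2 ≤ s := by nlinarith
              exact mul_le_mul_of_nonneg_left this (by positivity)
            linarith
    intro h0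
    have h2 := congrArg Matrix.det hZa
    rw [det_mul, h0, zero_mul, det_mul, det_diagonal, haprod, one_mul] at h2
    exact h1 h2.symm
  have hhZdet : ((1 + Z) * h).det ≠ 0 := by
    rw [det_mul]
    exact mul_ne_zero hZdet hhdet
  set ζs : Matrix (Fin d) (Fin d) ℤ := γ⁻¹ * ζ * γ with hζs
  have hζsu : IsUnit ζs.det := by
    rw [hζs, det_mul, det_mul]
    exact ((Matrix.isUnit_nonsing_inv_det _ hγ).mul hζ).mul hγ
  have hζst : (1 + Z) * h * zR ζs = diagonal z * ((1 + Z) * h) := by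
    rw [hh', hζs, zR_mul, zR_mul]
    calc diagonal a * ((1 + X) * g) * zR γ * (zR γ⁻¹ * zR ζ * zR γ) =
          diagonal a * ((1 + X) * g) * (zR γ * zR γ⁻¹) * zR ζ * zR γ := by
            simp only [Matrix.mul_assoc]
      _ = diagonal a * ((1 + X) * g * zR ζ) * zR γ := by
            rw [zR_inv hγ, Matrix.mul_one]
            simp only [Matrix.mul_assoc]
      _ = (diagonal a * diagonal z) * ((1 + X) * g) * zR γ := by
            rw [hstab]
            simp only [Matrix.mul_assoc]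
      _ = (diagonal z * diagonal a) * ((1 + X) * g) * zR γ := by
            rw [diagonal_mul_diagonal, diagonal_mul_diagonal]
            congr 3
            funext k
            exact mul_comm _ _
      _ = _ := by simp only [Matrix.mul_assoc]
  -- the starting point
  obtain ⟨x0, hx0⟩ := exists_round hhdet hhR (Pi.single j (4 * A))
  set q0 : Fin d → ℝ := h *ᵥ iR x0 with hq0
  set y0 : Fin d → ℝ := (1 + Z) *ᵥ q0 with hy0
  have hx0' : ∀ l, |q0 l - (Pi.single j (4 * A) : Fin d → ℝ) l| ≤ A / 2 := fun l => by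
    have := hx0 l
    rwa [← hA] at this
  have hq0j : |q0 j - 4 * A| ≤ A / 2 := by
    have := hx0' j
    rwa [Pi.single_eq_same] at this
  have hq0l : ∀ l, l ≠ j → |q0 l| ≤ A / 2 := fun l hl => by
    have := hx0' l
    rwa [Pi.single_eq_of_ne hl, sub_zero] at this
  have hq0b : ∀ l, |q0 l| ≤ 5 * A := by
    intro l
    by_cases hl : l = j
    · subst hl
      have := abs_le.1 hq0j
      rw [abs_le]
      constructor <;> linarith
    · linarith [hq0l l hl]
  have hent : ∀ l, y0 l = q0 l + ∑ m, Z l m * q0 m := by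
    intro l
    rw [hy0, Matrix.add_mulVec, Matrix.one_mulVec]
    rfl
  have hrow : ∀ l (T : Finset (Fin d)), (∀ n ∈ T, ¬ (l = i ∧ n = j)) →
      |∑ n ∈ T, Z l n * q0 n| ≤ A / 4 := by
    intro l T hT
    calc |∑ n ∈ T, Z l n * q0 n| ≤ ∑ n ∈ T, |Z l n * q0 n| := Finset.abs_sum_le_sum_abs _ _
      _ ≤ ∑ _n ∈ T, s * (5 * A) := by
          refine Finset.sum_le_sum fun n hn => ?_
          rw [abs_mul]
          exact mul_le_mul (hZs l n (hT n hn)) (hq0b n) (abs_nonneg _) hs0.le
      _ ≤ ∑ _n : Fin d, s * (5 * A) :=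
          Finset.sum_le_sum_of_subset_of_nonneg (Finset.subset_univ _) fun _ _ _ => by positivity
      _ = (d * s) * (5 * A) := by
          rw [Finset.sum_const, Finset.card_univ, Fintype.card_fin, nsmul_eq_mul]
          ring
      _ ≤ A / 4 := by nlinarith
  have hy0j : |y0 j - 4 * A| ≤ 3 / 4 * A := by
    have h1 := hrow j univ (fun n _ hn => hij hn.1.symm)
    have h2 : y0 j - 4 * A = (q0 j - 4 * A) + ∑ n, Z j n * q0 n := by rw [hent j]; ring
    rw [h2]
    refine (abs_add_le _ _).trans ?_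
    linarith
  have hy0i : |θ * y0 i - 4 * A| ≤ 5 / 4 * A := by
    have h1 := hrow i (univ.erase j) (fun n hn h => (Finset.ne_of_mem_erase hn) h.2)
    have h2 : θ * y0 i - 4 * A = θ * (q0 i + ∑ n ∈ univ.erase j, Z i n * q0 n) +
        (q0 j - 4 * A) := by
      rw [hent i, ← Finset.add_sum_erase _ _ (Finset.mem_univ j), ← hθ]
      linear_combination (q0 j) * hθ2
    rw [h2]
    refine (abs_add_le _ _).trans ?_
    rw [abs_mul, hθ1, one_mul]
    have h3 := abs_add_le (q0 i) (∑ n ∈ univ.erase j, Z i n * q0 n)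
    linarith [hq0l i hij]
  have hy0b : ∀ l, |y0 l| ≤ Y0 := by
    intro l
    by_cases hl : l = i
    · subst hl
      have h1 := abs_le.1 hy0i
      have h2 : |y0 l| = |θ * y0 l| := by rw [abs_mul, hθ1, one_mul]
      rw [h2, abs_le]
      constructor <;> linarith
    · have h1 := hrow l univ (fun n _ hn => hl hn.1)
      rw [hent l]
      refine (abs_add_le _ _).trans ?_
      linarith [hq0b l]
  -- the ratio
  have hyj := abs_le.1 hy0j
  have hyi := abs_le.1 hy0i
  have hyjpos : 0 < y0 j := by linarith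
  set r : ℝ := θ * y0 i / y0 j with hr
  have hr2 : r ≤ 2 := by
    rw [hr, div_le_iff₀ hyjpos]
    linarith
  have hr12 : 1 / 2 ≤ r := by
    rw [hr, le_div_iff₀ hyjpos]
    linarith
  have hrpos : 0 < r := by linarith
  have hlogr : |Real.log r| ≤ 1 := by
    have he : (2 : ℝ) ≤ Real.exp 1 := by linarith [Real.add_one_le_exp (1 : ℝ)]
    rw [abs_le]
    constructor
    · rw [Real.le_log_iff_exp_le hrpos, Real.exp_neg]
      calc (Real.exp 1)⁻¹ ≤ 2⁻¹ := inv_anti₀ two_pos he
        _ ≤ r := by linarith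
    · rw [Real.log_le_iff_le_exp hrpos]
      linarith
  -- the unit and the number of steps
  obtain ⟨η, w, n, hη, hηst, hw, hwρ, hn, hnr⟩ : ∃ (η : Matrix (Fin d) (Fin d) ℤ)
      (w : Fin d → ℝ) (n : ℕ), IsUnit η.det ∧
      (1 + Z) * h * zR η = diagonal w * ((1 + Z) * h) ∧ (∀ k, 0 < w k) ∧
      (∀ k, |Real.log (w k)| ≤ ρ) ∧ (n : ℝ) ≤ 1 / φ ∧
      |Real.log r + n * (Real.log (w i) - Real.log (w j))| ≤ φ := by
    rcases le_total (Real.log r * (Real.log (z i) - Real.log (z j))) 0 with hsg | hsg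
    · obtain ⟨n, hn, hnr⟩ := exists_steps hφ0 hφ.symm hlogr hsg
      exact ⟨ζs, z, n, hζsu, hζst, hz, hzρ, hn, hnr⟩
    · obtain ⟨n, hn, hnr⟩ := exists_steps (t := -(Real.log (z i) - Real.log (z j))) hφ0
        (by rw [abs_neg, hφ]) hlogr (by linarith)
      refine ⟨ζs⁻¹, fun k => (z k)⁻¹, n, Matrix.isUnit_nonsing_inv_det _ hζsu,
        stab_inv hζsu (fun k => (hz k).ne') hζst, fun k => inv_pos.2 (hz k), fun k => ?_, hn, ?_⟩
      · rw [Real.log_inv, abs_neg]
        exact hzρ k
      · rw [Real.log_inv, Real.log_inv]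
        rw [show -Real.log (z i) - -Real.log (z j) = -(Real.log (z i) - Real.log (z j)) by ring]
        exact hnr
  have hwprod : ∏ k, w k = 1 := stab_prod hhZdet hη hw hηst
  -- the point
  set x : Fin d → ℤ := η ^ n *ᵥ x0 with hx
  set q : Fin d → ℝ := h *ᵥ iR x with hq
  set y : Fin d → ℝ := (1 + Z) *ᵥ q with hy
  have hyl : ∀ l, y l = w l ^ n * y0 l := by
    intro l
    have h1 := stab_mulVec hηst n x0 l
    have h2 : y = ((1 + Z) * h) *ᵥ iR x := by rw [hy, hq, mulVec_mulVec]
    have h3 : y0 = ((1 + Z) * h) *ᵥ iR x0 := by rw [hy0, hq0, mulVec_mulVec]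
    rw [h2, h3]
    exact h1
  have hwn : ∀ l, w l ^ n ≤ Real.exp t := by
    intro l
    have h1 : w l ^ n = Real.exp (n * Real.log (w l)) := by
      rw [mul_comm, Real.exp_mul, Real.exp_log (hw l), Real.rpow_natCast]
    rw [h1]
    apply Real.exp_le_exp.2
    calc (n : ℝ) * Real.log (w l) ≤ n * ρ :=
          mul_le_mul_of_nonneg_left ((le_abs_self _).trans (hwρ l)) (Nat.cast_nonneg _)
      _ ≤ 1 / φ * ρ := mul_le_mul_of_nonneg_right hn (by linarith)
      _ = t := by rw [ht]; ring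
  set Y : ℝ := Y0 * Real.exp t with hY
  have hYb : ∀ l, |y l| ≤ Y := by
    intro l
    rw [hyl l, abs_mul, abs_of_pos (pow_pos (hw l) n), hY, mul_comm]
    exact mul_le_mul (hy0b l) (hwn l) (pow_pos (hw l) n).le (by linarith)
  have hexpt : 1 ≤ Real.exp t := Real.one_le_exp (by linarith)
  have hY0' : 0 ≤ Y := by positivity
  obtain ⟨_, hdr1, hdr2⟩ := drift_bound hij hs0.le (by linarith) hθ1 hθ.symm hZs hy hYb
  set e : ℝ := 8 * d * s * Y with he
  have he0 : 0 ≤ e := by positivity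
  have heY : e * (Y + 2) ^ d ≤ m0 := by
    have h1 : Y + 2 ≤ (Y0 + 2) * Real.exp t := by rw [hY]; nlinarith
    calc e * (Y + 2) ^ d ≤ (8 * d * s * (Y + 2)) * (Y + 2) ^ d := by
          refine mul_le_mul_of_nonneg_right ?_ (by positivity)
          rw [he]
          exact mul_le_mul_of_nonneg_left (by linarith) (by positivity)
      _ = 8 * d * s * (Y + 2) ^ (d + 1) := by rw [pow_succ]; ring
      _ ≤ 8 * d * s * ((Y0 + 2) * Real.exp t) ^ (d + 1) := by
          refine mul_le_mul_of_nonneg_left ?_ (by positivity)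
          exact pow_le_pow_left₀ (by linarith) h1 _
      _ = s * Real.exp ((d + 1) * t) * W := by
          rw [mul_pow, ← Real.exp_nat_mul, hW]
          push_cast
          ring
      _ ≤ m0 := hkey
  have he1 : e ≤ 1 := by
    have h1 : 1 ≤ (Y + 2) ^ d := one_le_pow₀ (by linarith)
    calc e = e * 1 := (mul_one e).symm
      _ ≤ e * (Y + 2) ^ d := mul_le_mul_of_nonneg_left h1 he0
      _ ≤ m0 := heY
      _ ≤ 1 := min_le_left _ _
  -- the critical row
  set u : ℝ := Real.log r + n * (Real.log (w i) - Real.log (w j)) with hu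
  have hrat : θ * y i = y j * Real.exp u := by
    have h1 : Real.exp u = r * (w i ^ n / w j ^ n) := by
      rw [hu, Real.exp_add, Real.exp_log hrpos, mul_sub, Real.exp_sub]
      congr 1
      congr 1
      · rw [mul_comm, Real.exp_mul, Real.exp_log (hw i), Real.rpow_natCast]
      · rw [mul_comm, Real.exp_mul, Real.exp_log (hw j), Real.rpow_natCast]
    rw [h1, hyl i, hyl j, hr]
    have h2 : w j ^ n ≠ 0 := (pow_pos (hw j) n).ne'
    have h3 : y0 j ≠ 0 := hyjpos.ne'
    field_simp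
  have hu1 : |u| ≤ 1 := hnr.trans (by linarith)
  have hcrit : |y i - θ * y j| ≤ 6 * φ * |y i| := by
    have h1 : |y i - θ * y j| = |θ * y i - y j| := by
      have : θ * y i - y j = θ * (y i - θ * y j) := by
        linear_combination (y j) * hθ2
      rw [this, abs_mul, hθ1, one_mul]
    have h2 : |y i| = |y j| * Real.exp u := by
      have h3 : |θ * y i| = |y i| := by rw [abs_mul, hθ1, one_mul]
      rw [← h3, hrat, abs_mul, abs_of_pos (Real.exp_pos _)]
    have h3 : |y j| ≤ 3 * |y i| := by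
      rw [h2]
      have h4 : 1 ≤ 3 * Real.exp u := by
        have h5 : Real.exp (-1) ≤ Real.exp u := Real.exp_le_exp.2 (by linarith [(abs_le.1 hu1).1])
        have h6 : Real.exp 1 ≤ 3 := by linarith [Real.exp_one_lt_d9]
        have h7 : (3 : ℝ)⁻¹ ≤ Real.exp (-1) := by
          rw [Real.exp_neg]
          exact inv_anti₀ (Real.exp_pos _) h6
        have : (3 : ℝ)⁻¹ ≤ Real.exp u := h7.trans h5
        linarith [show (3 : ℝ) * 3⁻¹ = 1 by norm_num]
      nlinarith [abs_nonneg (y j)]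
    rw [h1, hrat]
    have h4 : y j * Real.exp u - y j = y j * (Real.exp u - 1) := by ring
    rw [h4, abs_mul]
    calc |y j| * |Real.exp u - 1| ≤ (3 * |y i|) * (2 * φ) := by
          refine mul_le_mul h3 ?_ (abs_nonneg _) (by positivity)
          exact (Real.abs_exp_sub_one_le hu1).trans (by linarith)
      _ = 6 * φ * |y i| := by ring
  -- the product
  set B : Fin d → ℝ := fun l => if l = i then 6 * φ * |y l| else |y l| with hB
  have hB0 : ∀ l, 0 ≤ B l := fun l => by
    simp only [hB]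
    split_ifs <;> positivity
  have hBY : ∀ l, B l ≤ Y := fun l => by
    simp only [hB]
    split_ifs
    · have h1 : 6 * φ * |y l| ≤ 1 * |y l| :=
        mul_le_mul_of_nonneg_right (by linarith) (abs_nonneg _)
      linarith [hYb l]
    · exact hYb l
  have hqB : ∀ l, |q l| ≤ B l + e := by
    intro l
    simp only [hB]
    split_ifs with hl
    · rw [hl]
      linarith
    · exact hdr1 l hl
  have hprodB : ∏ l, B l ≤ ν / 4 := by
    have h1 : ∏ l, B l = 6 * φ * ∏ l, |y l| := by
      rw [← Finset.mul_prod_erase _ _ (Finset.mem_univ i),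
        ← Finset.mul_prod_erase _ (fun l => |y l|) (Finset.mem_univ i)]
      have h2 : B i = 6 * φ * |y i| := by simp [hB]
      have h3 : ∏ l ∈ univ.erase i, B l = ∏ l ∈ univ.erase i, |y l| :=
        Finset.prod_congr rfl fun l hl => by simp [hB, Finset.ne_of_mem_erase hl]
      rw [h2, h3]
      ring
    have h4 : ∏ l, |y l| ≤ Y0 ^ d := by
      have h5 : ∏ l, |y l| = ∏ l, |y0 l| := by
        have h6 : ∀ l, |y l| = w l ^ n * |y0 l| := fun l => by
          rw [hyl l, abs_mul, abs_of_pos (pow_pos (hw l) n)]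
        rw [Finset.prod_congr rfl fun l _ => h6 l, Finset.prod_mul_distrib, Finset.prod_pow,
          hwprod, one_pow, one_mul]
      rw [h5]
      calc ∏ l, |y0 l| ≤ ∏ _l : Fin d, Y0 :=
            Finset.prod_le_prod (fun _ _ => abs_nonneg _) fun l _ => hy0b l
        _ = Y0 ^ d := by rw [Finset.prod_const, Finset.card_univ, Fintype.card_fin]
    rw [h1]
    have h5 : 0 < Y0 ^ d := by positivity
    calc 6 * φ * ∏ l, |y l| ≤ 6 * φ * Y0 ^ d := mul_le_mul_of_nonneg_left h4 (by positivity)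
      _ ≤ 6 * (ν / (24 * Y0 ^ d)) * Y0 ^ d := by
          refine mul_le_mul_of_nonneg_right ?_ h5.le
          linarith
      _ = ν / 4 := by field_simp; norm_num
  have hup : ∏ l, |q l| ≤ ν / 2 := by
    calc ∏ l, |q l| ≤ ∏ l, (B l + e) :=
          Finset.prod_le_prod (fun _ _ => abs_nonneg _) fun l _ => hqB l
      _ ≤ ∏ l, B l + e * (Y + 2) ^ (univ : Finset (Fin d)).card :=
          prod_add_le univ B hB0 hBY he0 he1
      _ ≤ ν / 4 + ν / 4 := by
          rw [Finset.card_univ, Fintype.card_fin]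
          exact add_le_add hprodB (heY.trans (min_le_right _ _))
      _ = ν / 2 := by ring
  -- the lower bound
  have hx0ne : x ≠ 0 := by
    intro h0
    have h1 : y j = 0 := by
      rw [hy, hq, h0]
      have : iR (0 : Fin d → ℤ) = 0 := by
        funext k
        simp [iR]
      rw [this]
      simp
    rw [hyl j] at h1
    rcases mul_eq_zero.1 h1 with h2 | h2
    · exact (pow_pos (hw j) n).ne' h2
    · exact hyjpos.ne' h2
  have hγx : γ *ᵥ x ≠ 0 := by
    intro h0
    apply hx0ne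
    have h1 : γ⁻¹ *ᵥ (γ *ᵥ x) = x := by
      rw [mulVec_mulVec, Matrix.nonsing_inv_mul _ hγ, Matrix.one_mulVec]
    rw [← h1, h0, Matrix.mulVec_zero]
  have hlow := hnu _ hγx
  rw [← FF_orb haprod g γ x, ← hh, FF_eq, Finset.abs_prod] at hlow
  linarith

end Pool.Agent.KS6_90
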