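import Mathlib
import Pool.Agent.KS6_90.Eig
import Pool.Agent.KS6_90.Exit2

/-! # Nearly diagonal unimodular matrices from two close points of the orbit -/

set_option autoImplicit false

open Matrix Finset H715R2 Pool.Agent.T6.H49.CSD

namespace Pool.Agent.KS6_90

variable {d : ℕ}

/-- `x` and `y` agree up to `ε`, up to a bounded diagonal matrix and an integral change of
variables -/
def Close (K ε : ℝ) (x y : Matrix (Fin d) (Fin d) ℝ) : Prop :=
  ∃ (b : Fin d → ℝ) (E : Matrix (Fin d) (Fin d) ℝ) (γ : Matrix (Fin d) (Fin d) ℤ),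
    (∀ i, 1 / K ≤ b i ∧ b i ≤ K) ∧ (∀ i j, |E i j| ≤ ε) ∧ |γ.det| = 1 ∧
    x = diagonal b * (1 + E) * y * zR γ

/-- the unimodular matrix `τ` is nearly `diag(u)` in the coordinates `g` -/
structure Nice (g : Matrix (Fin d) (Fin d) ℝ) (u : Fin d → ℝ) (K σ : ℝ)
    (τ : Matrix (Fin d) (Fin d) ℤ) : Prop where
  unit : IsUnit τ.det
  low : ∀ k, u k / (2 * K) ≤ cj g τ k k
  up : ∀ k, cj g τ k k ≤ 2 * K * u k
  off : ∀ k l, k ≠ l → |cj g τ k l| ≤ σ

lemma close_entry {h : Matrix (Fin d) (Fin d) ℝ} (hh : h.det ≠ 0) {p p' b : Fin d → ℝ}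
    (hp : ∀ i, p i ≠ 0) {E : Matrix (Fin d) (Fin d) ℝ} {γ : Matrix (Fin d) (Fin d) ℤ}
    (hγ : IsUnit γ.det)
    (heq : diagonal p * h = diagonal b * (1 + E) * (diagonal p' * h) * zR γ) (i j : Fin d) :
    cj h γ⁻¹ i j = (p i)⁻¹ * b i * (1 + E) i j * p' j := by
  have hu := isUnit_iff_ne_zero.2 hh
  have h0 : diagonal (fun i => (p i)⁻¹) * diagonal p = 1 := by
    rw [diagonal_mul_diagonal, ← diagonal_one]
    congr 1
    funext i
    exact inv_mul_cancel₀ (hp i)
  have h1 : h * zR γ⁻¹ = diagonal (fun i => (p i)⁻¹) * diagonal b * (1 + E) * diagonal p' * h := by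
    calc h * zR γ⁻¹ = (diagonal (fun i => (p i)⁻¹) * diagonal p) * h * zR γ⁻¹ := by
          rw [h0, Matrix.one_mul]
      _ = diagonal (fun i => (p i)⁻¹) * (diagonal p * h) * zR γ⁻¹ := by
          simp only [Matrix.mul_assoc]
      _ = diagonal (fun i => (p i)⁻¹) * (diagonal b * (1 + E) * (diagonal p' * h)) *
          (zR γ * zR γ⁻¹) := by
          rw [heq]
          simp only [Matrix.mul_assoc]
      _ = _ := by
          rw [zR_inv hγ, Matrix.mul_one]
          simp only [Matrix.mul_assoc]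
  have h2 : cj h γ⁻¹ = diagonal (fun i => (p i)⁻¹ * b i) * (1 + E) * diagonal p' := by
    rw [cj, h1, diagonal_mul_diagonal]
    calc diagonal (fun i => (p i)⁻¹ * b i) * (1 + E) * diagonal p' * h * h⁻¹ =
          diagonal (fun i => (p i)⁻¹ * b i) * (1 + E) * diagonal p' * (h * h⁻¹) := by
            simp only [Matrix.mul_assoc]
      _ = _ := by rw [Matrix.mul_nonsing_inv _ hu, Matrix.mul_one]
  rw [h2, mul_diagonal, diagonal_mul]

lemma nice_of_close {g : Matrix (Fin d) (Fin d) ℝ} (hg : g.det ≠ 0) {a a' : Fin d → ℝ}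
    {K ε H : ℝ} (hK : 1 ≤ K) (hε0 : 0 ≤ ε) (hε1 : ε ≤ 1 / 2) (ha : ∀ k, 0 < a k)
    (ha' : ∀ k, 0 < a' k) (haH : ∀ k, (a k)⁻¹ ≤ H) (haH' : ∀ k, a' k ≤ H)
    (hcl : Close K ε (diagonal a * g) (diagonal a' * g)) :
    ∃ τ : Matrix (Fin d) (Fin d) ℤ, Nice g (fun k => a' k / a k) K (K * ε * H ^ 2) τ := by
  obtain ⟨b, E, γ, hb, hE, hγ, heq⟩ := hcl
  have hγ' : IsUnit γ.det := Int.isUnit_iff_abs_eq.2 hγ
  have hent := close_entry hg (fun i => (ha i).ne') hγ' heq
  refine ⟨γ⁻¹, Matrix.isUnit_nonsing_inv_det _ hγ', fun k => ?_, fun k => ?_, fun k l hkl => ?_⟩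
  · rw [hent, Matrix.add_apply, Matrix.one_apply_eq]
    have h1 := abs_le.1 (hE k k)
    have h2 : 1 / 2 ≤ 1 + E k k := by linarith
    have h3 : 1 / K * (1 / 2) ≤ b k * (1 + E k k) :=
      mul_le_mul (hb k).1 h2 (by norm_num) (le_trans (by positivity) (hb k).1)
    have h4 : 0 < a' k / a k := div_pos (ha' k) (ha k)
    calc a' k / a k / (2 * K) = (1 / K * (1 / 2)) * (a' k / a k) := by field_simp
      _ ≤ (b k * (1 + E k k)) * (a' k / a k) := mul_le_mul_of_nonneg_right h3 h4.le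
      _ = _ := by rw [div_eq_mul_inv]; ring
  · rw [hent, Matrix.add_apply, Matrix.one_apply_eq]
    have h1 := abs_le.1 (hE k k)
    have h3 : b k * (1 + E k k) ≤ K * 2 :=
      mul_le_mul (hb k).2 (by linarith) (by linarith) (by linarith)
    have h4 : 0 < a' k / a k := div_pos (ha' k) (ha k)
    calc (a k)⁻¹ * b k * (1 + E k k) * a' k = (b k * (1 + E k k)) * (a' k / a k) := by
          rw [div_eq_mul_inv]; ring
      _ ≤ (K * 2) * (a' k / a k) := mul_le_mul_of_nonneg_right h3 h4.le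
      _ = _ := by ring
  · rw [hent, Matrix.add_apply, Matrix.one_apply_ne hkl, zero_add, abs_mul, abs_mul, abs_mul,
      abs_of_pos (inv_pos.2 (ha k)), abs_of_pos (ha' l),
      abs_of_nonneg (le_trans (by positivity : (0 : ℝ) ≤ 1 / K) (hb k).1)]
    have hH : 0 ≤ H := (ha' l).le.trans (haH' l)
    have hb0 : 0 ≤ b k := le_trans (by positivity) (hb k).1
    calc (a k)⁻¹ * b k * |E k l| * a' l ≤ H * K * ε * H := by
          refine mul_le_mul ?_ (haH' l) (ha' l).le (by positivity)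
          refine mul_le_mul ?_ (hE k l) (abs_nonneg _) (by positivity)
          exact mul_le_mul (haH k) (hb k).2 hb0 hH
      _ = _ := by ring

/-- a matrix which commutes with a diagonal matrix with distinct entries is diagonal -/
lemma diag_of_comm {G : Matrix (Fin d) (Fin d) ℝ} (hG : G.det ≠ 0) {τ₀ τ : Matrix (Fin d) (Fin d) ℤ}
    {l : Fin d → ℝ} (hl : Function.Injective l) (h : G * zR τ₀ = diagonal l * G)
    (hcomm : τ * τ₀ = τ₀ * τ) : ∃ t : Fin d → ℝ, G * zR τ = diagonal t * G := by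
  classical
  have hu := isUnit_iff_ne_zero.2 hG
  set N : Matrix (Fin d) (Fin d) ℝ := G * zR τ * G⁻¹ with hN
  have hNG : N * G = G * zR τ := by
    rw [hN, Matrix.mul_assoc, Matrix.nonsing_inv_mul _ hu, Matrix.mul_one]
  have h1 : N * diagonal l = diagonal l * N := by
    have h2 : diagonal l = G * zR τ₀ * G⁻¹ := by
      rw [h, Matrix.mul_assoc, Matrix.mul_nonsing_inv _ hu, Matrix.mul_one]
    have h3 : G⁻¹ * G = 1 := Matrix.nonsing_inv_mul _ hu
    rw [h2, hN]
    calc G * zR τ * G⁻¹ * (G * zR τ₀ * G⁻¹) = G * zR τ * (G⁻¹ * G) * zR τ₀ * G⁻¹ := by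
          simp only [Matrix.mul_assoc]
      _ = G * zR (τ * τ₀) * G⁻¹ := by rw [h3, Matrix.mul_one, zR_mul]; simp only [Matrix.mul_assoc]
      _ = G * zR (τ₀ * τ) * G⁻¹ := by rw [hcomm]
      _ = G * zR τ₀ * (G⁻¹ * G) * zR τ * G⁻¹ := by
          rw [h3, Matrix.mul_one, zR_mul]; simp only [Matrix.mul_assoc]
      _ = _ := by simp only [Matrix.mul_assoc]
  have h2 : N = diagonal fun k => N k k := by
    ext k m
    by_cases hkm : k = m
    · subst hkm
      simp
    · rw [Matrix.diagonal_apply_ne _ hkm]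
      have h3 := congrFun (congrFun h1 k) m
      rw [Matrix.mul_diagonal, Matrix.diagonal_mul] at h3
      have h4 : (l m - l k) * N k m = 0 := by linarith
      rcases mul_eq_zero.1 h4 with h5 | h5
      · exact absurd (hl (sub_eq_zero.1 h5)) (Ne.symm hkm)
      · exact h5
  exact ⟨fun k => N k k, by rw [← h2, hNG]⟩

/-- the exact eigenvalues are close to the diagonal entries -/
lemma eigen_close {g : Matrix (Fin d) (Fin d) ℝ} (hg : g.det ≠ 0)
    {X : Matrix (Fin d) (Fin d) ℝ} (hXd : ∀ k, X k k = 0) {δ σ : ℝ} (hδ0 : 0 ≤ δ)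
    (hX : ∀ k l, |X k l| ≤ δ) {τ : Matrix (Fin d) (Fin d) ℤ} {t : Fin d → ℝ}
    (h : (1 + X) * g * zR τ = diagonal t * ((1 + X) * g))
    (hσ0 : 0 ≤ σ) (hoff : ∀ k l, k ≠ l → |cj g τ k l| ≤ σ) (k : Fin d) :
    |t k - cj g τ k k| ≤ d * (δ * σ) := by
  classical
  have hu := isUnit_iff_ne_zero.2 hg
  have h1 : (1 + X) * cj g τ = diagonal t * (1 + X) := by
    calc (1 + X) * cj g τ = ((1 + X) * g * zR τ) * g⁻¹ := by
          rw [cj]; simp only [Matrix.mul_assoc]
      _ = diagonal t * (1 + X) * (g * g⁻¹) := by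
          rw [h]; simp only [Matrix.mul_assoc]
      _ = _ := by rw [Matrix.mul_nonsing_inv _ hu, Matrix.mul_one]
  have h2 := congrFun (congrFun h1 k) k
  rw [Matrix.diagonal_mul, Matrix.add_mul, Matrix.one_mul, Matrix.add_apply, Matrix.add_apply,
    Matrix.one_apply_eq, hXd, add_zero, mul_one, Matrix.mul_apply,
    ← Finset.add_sum_erase _ _ (Finset.mem_univ k), hXd, zero_mul, zero_add] at h2
  have h3 : t k - cj g τ k k = ∑ m ∈ univ.erase k, X k m * cj g τ m k := by linarith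
  rw [h3]
  calc |∑ m ∈ univ.erase k, X k m * cj g τ m k| ≤ ∑ m ∈ univ.erase k, |X k m * cj g τ m k| :=
        Finset.abs_sum_le_sum_abs _ _
    _ ≤ ∑ _m ∈ univ.erase k, δ * σ := by
        refine Finset.sum_le_sum fun m hm => ?_
        rw [abs_mul]
        exact mul_le_mul (hX k m) (hoff m k (Finset.ne_of_mem_erase hm)) (abs_nonneg _) hδ0
    _ ≤ ∑ _m : Fin d, δ * σ :=
        Finset.sum_le_sum_of_subset_of_nonneg (Finset.subset_univ _) fun _ _ _ => by positivity
    _ = _ := by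
        rw [Finset.sum_const, Finset.card_univ, Fintype.card_fin, nsmul_eq_mul]

end Pool.Agent.KS6_90
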