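import Mathlib
import Pool.Agent.KS6_90.Units
import Pool.Agent.KS6_90.Dir
import Pool.Agent.KS6_90.Num

/-! # First stage: a nearly diagonal unit with well separated entries -/

set_option autoImplicit false

open Matrix Finset H715R2 Pool.Agent.T6.H49.CSD

namespace Pool.Agent.KS6_90

variable {d : ℕ}

lemma gap_aux {g : Matrix (Fin d) (Fin d) ℝ} {u : Fin d → ℝ} {K σ H : ℝ}
    {τ : Matrix (Fin d) (Fin d) ℤ} (hK : 1 ≤ K) (hH : 1 ≤ H) (hn : Nice g u K σ τ)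
    (hu : ∀ k, 1 / H ^ 2 ≤ u k) {k l : Fin d} (h : 8 * K ^ 2 * u k ≤ u l) :
    1 / (2 * K * H ^ 2) ≤ cj g τ l l - cj g τ k k := by
  have h1 := hn.low l
  have h2 := hn.up k
  have hK0 : 0 < K := by linarith
  have h3 : 4 * K * u k ≤ u l / (2 * K) := by
    rw [le_div_iff₀ (by positivity)]
    calc 4 * K * u k * (2 * K) = 8 * K ^ 2 * u k := by ring
      _ ≤ u l := h
  have h4 : 1 / (2 * K * H ^ 2) ≤ 1 / H ^ 2 := by
    apply one_div_le_one_div_of_le (by positivity)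
    have : 0 ≤ H ^ 2 := by positivity
    nlinarith
  have h5 := hu k
  have h6 : u k ≤ 2 * K * u k := by
    have : 0 < u k := lt_of_lt_of_le (by positivity) h5
    nlinarith
  linarith

lemma det_one_add_ne {X : Matrix (Fin d) (Fin d) ℝ} {δ : ℝ} (hX : ∀ k l, |X k l| ≤ δ)
    (hδ : d * δ ≤ 1 / 2) : (1 + X).det ≠ 0 := by
  classical
  intro h0
  obtain ⟨v, hv0, hv⟩ := Matrix.exists_mulVec_eq_zero_iff.2 h0
  obtain ⟨i, hi⟩ : ∃ i, ∀ j, |v j| ≤ |v i| := by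
    by_cases hne : Nonempty (Fin d)
    · obtain ⟨i, hi⟩ := Finite.exists_max (fun j => |v j|)
      exact ⟨i, hi⟩
    · exfalso
      apply hv0
      funext j
      exact absurd ⟨j⟩ hne
  have hvi : 0 < |v i| := by
    by_contra hcon
    apply hv0
    funext j
    have h1 := hi j
    have h2 : |v j| ≤ 0 := by linarith
    exact abs_nonpos_iff.1 h2
  have h1 := congrFun hv i
  rw [Matrix.add_mulVec, Matrix.one_mulVec, Pi.add_apply, Pi.zero_apply] at h1
  have h2 : |(X *ᵥ v) i| ≤ d * δ * |v i| := by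
    rw [Matrix.mulVec, dotProduct]
    calc |∑ j, X i j * v j| ≤ ∑ j, |X i j * v j| := Finset.abs_sum_le_sum_abs _ _
      _ ≤ ∑ _j : Fin d, δ * |v i| := by
          refine Finset.sum_le_sum fun j _ => ?_
          rw [abs_mul]
          exact mul_le_mul (hX i j) (hi j) (abs_nonneg _) ((abs_nonneg _).trans (hX i j))
      _ = _ := by rw [Finset.sum_const, Finset.card_univ, Fintype.card_fin, nsmul_eq_mul]; ring
  have h3 : |v i| ≤ 1 / 2 * |v i| := by
    have h4 : v i = -(X *ᵥ v) i := by linarith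
    calc |v i| = |(X *ᵥ v) i| := by
          conv_lhs => rw [h4, abs_neg]
      _ ≤ d * δ * |v i| := h2
      _ ≤ _ := mul_le_mul_of_nonneg_right hδ (abs_nonneg _)
  linarith

/-- the conclusion of the first stage -/
theorem stageA (hd0 : 0 < d) {V ν K : ℝ} (hν : 0 < ν) (hK : 1 ≤ K) (hd : 3 ≤ d)
    {g : Matrix (Fin d) (Fin d) ℝ} (hg : g.det ≠ 0) (hnu : HasNu g ν) (hint : ¬ PropInt g)
    {H ε : ℝ} (hH : 1 ≤ H) (hε0 : 0 ≤ ε) {δ0 : ℝ} {u : Fin d → ℝ} (hu : ∀ k, 1 / H ^ 2 ≤ u k)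
    (hgap : ∀ k l, k ≠ l → 8 * K ^ 2 * u k ≤ u l ∨ 8 * K ^ 2 * u l ≤ u k)
    {σ : ℝ} (hσ0 : 0 < σ) (h4 : 4 * d * σ ≤ 1 / (2 * K * H ^ 2))
    (hδ0 : 2 * d * σ / (1 / (2 * K * H ^ 2)) = δ0) (hdδ : d * δ0 ≤ 1 / 2)
    {τ₀ : Matrix (Fin d) (Fin d) ℤ} (hn : Nice g u K σ τ₀) :
    ∃ (X : Matrix (Fin d) (Fin d) ℝ) (l : Fin d → ℝ) (δ : ℝ) (i j : Fin d), (∀ k, X k k = 0) ∧
      i ≠ j ∧ 0 < δ ∧ |X i j| = δ ∧ (∀ k l, |X k l| ≤ δ) ∧ δ ≤ δ0 ∧ ((1 + X) * g).det ≠ 0 ∧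
      Function.Injective l ∧ (1 + X) * g * zR τ₀ = diagonal l * ((1 + X) * g) := by
  classical
  have hK0 : 0 < K := by linarith
  have hg0 : 0 < 1 / (2 * K * H ^ 2) := by positivity
  have hsep : ∀ k l, k ≠ l → 1 / (2 * K * H ^ 2) ≤ |cj g τ₀ k k - cj g τ₀ l l| := by
    intro k l hkl
    rcases hgap k l hkl with h | h
    · rw [abs_sub_comm]
      exact (gap_aux hK hH hn hu h).trans (le_abs_self _)
    · exact (gap_aux hK hH hn hu h).trans (le_abs_self _)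
  obtain ⟨X, l, hX0, hXle, hl, hXl⟩ := exists_eigenbasis hσ0 hn.off hsep h4
  rw [hδ0] at hXle
  have hG : (1 + X) * g * zR τ₀ = diagonal l * ((1 + X) * g) := by
    have h1 : cj g τ₀ * g = g * zR τ₀ := cj_mul_right hg τ₀
    calc (1 + X) * g * zR τ₀ = (1 + X) * (cj g τ₀ * g) := by rw [h1, Matrix.mul_assoc]
      _ = ((1 + X) * cj g τ₀) * g := by rw [Matrix.mul_assoc]
      _ = _ := by rw [hXl, Matrix.mul_assoc]
  have hdet : ((1 + X) * g).det ≠ 0 := by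
    rw [Matrix.det_mul]
    exact mul_ne_zero (det_one_add_ne hXle hdδ) hg
  have hd1 : (0 : ℝ) < d := by exact_mod_cast hd0
  have hinj : Function.Injective l := by
    intro k m hkm
    by_contra hne
    have h1 := hsep k m hne
    have h2 := hl k
    have h3 := hl m
    have h5 : |cj g τ₀ k k - cj g τ₀ m m| ≤ 2 * (d * σ) := by
      have h6 : cj g τ₀ k k - cj g τ₀ m m = -(l k - cj g τ₀ k k) + (l m - cj g τ₀ m m) := by
        rw [hkm]; ring
      rw [h6]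
      refine (abs_add_le _ _).trans ?_
      rw [abs_neg]
      linarith
    have h7 : 0 < d * σ := by positivity
    linarith
  -- `X ≠ 0`
  have hne : ∃ k l, X k l ≠ 0 := by
    by_contra hcon
    push Not at hcon
    have hX : X = 0 := by
      ext k l
      exact hcon k l
    rw [hX, add_zero, Matrix.one_mul] at hG
    exact TH314.CSD.no_injective_stab hd hg hν hnu hint hG hinj
  obtain ⟨k0, l0, hkl0⟩ := hne
  haveI : Nonempty (Fin d × Fin d) := ⟨(k0, l0)⟩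
  obtain ⟨⟨i, j⟩, hij⟩ := Finite.exists_max (fun p : Fin d × Fin d => |X p.1 p.2|)
  have hpos : 0 < |X i j| := lt_of_lt_of_le (abs_pos.2 hkl0) (hij (k0, l0))
  refine ⟨X, l, |X i j|, i, j, hX0, ?_, hpos, rfl, fun k l => hij (k, l), hXle i j, hdet, hinj, hG⟩
  rintro rfl
  rw [hX0, abs_zero] at hpos
  exact lt_irrefl _ hpos

end Pool.Agent.KS6_90
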