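import Mathlib
import Pool.Agent.KS6_90.StageA
import Pool.Agent.KS6_90.Arith

/-! # Second stage: exact eigenvalues of the other units -/

set_option autoImplicit false

open Matrix Finset H715R2 Pool.Agent.T6.H49.CSD

namespace Pool.Agent.KS6_90

variable {d : ℕ}

lemma exact_eig {g : Matrix (Fin d) (Fin d) ℝ} (hg : g.det ≠ 0) {K H : ℝ} (hK : 1 ≤ K)
    (hH : 1 ≤ H) {X : Matrix (Fin d) (Fin d) ℝ} {l : Fin d → ℝ}
    {τ₀ τ : Matrix (Fin d) (Fin d) ℤ} (hX0 : ∀ k, X k k = 0) {δ σ : ℝ} (hδ0 : 0 ≤ δ)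
    (hσ0 : 0 ≤ σ) (hXle : ∀ k l, |X k l| ≤ δ) (hdδ : d * δ ≤ 1 / 2)
    (hG : ((1 + X) * g).det ≠ 0) (hl : Function.Injective l)
    (h0 : (1 + X) * g * zR τ₀ = diagonal l * ((1 + X) * g)) {η : ℝ}
    (hrig : ∀ C : Matrix (Fin d) (Fin d) ℤ, (∀ i j, |cj g C i j| ≤ η) → C = 0)
    (hση : 2 * (2 * K * H ^ 2) * σ + 2 * (2 * K * H ^ 2) * σ + 2 * d * (σ * σ) ≤ η)
    (hσH : σ / 2 ≤ 1 / (4 * K * H ^ 2))
    {u₀ u : Fin d → ℝ} (hn0 : Nice g u₀ K σ τ₀) (hn : Nice g u K σ τ)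
    (hu0 : ∀ k, 0 < u₀ k ∧ u₀ k ≤ H ^ 2) (hu : ∀ k, 1 / H ^ 2 ≤ u k ∧ u k ≤ H ^ 2) :
    ∃ t : Fin d → ℝ, (1 + X) * g * zR τ = diagonal t * ((1 + X) * g) ∧
      ∀ k, 0 < t k ∧ |Real.log (t k) - Real.log (u k)| ≤ Real.log (4 * K) := by
  have hK0 : 0 < K := by linarith
  have hH0 : 0 < H := by linarith
  have hupos : ∀ k, 0 < u k := fun k => lt_of_lt_of_le (by positivity) (hu k).1
  have hdiag : ∀ {w : Fin d → ℝ} {T : Matrix (Fin d) (Fin d) ℤ}, Nice g w K σ T →
      (∀ k, 0 < w k ∧ w k ≤ H ^ 2) → ∀ k, |cj g T k k| ≤ 2 * K * H ^ 2 := by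
    intro w T hT hw k
    have h1 := hT.low k
    have h2 := hT.up k
    have h3 : 0 < w k / (2 * K) := div_pos (hw k).1 (by positivity)
    rw [abs_of_pos (by linarith)]
    refine h2.trans ?_
    exact mul_le_mul_of_nonneg_left (hw k).2 (by positivity)
  have hcomm : τ * τ₀ = τ₀ * τ :=
    commute_of_near hg hrig (by positivity) hσ0 hσ0
      (hdiag hn fun k => ⟨hupos k, (hu k).2⟩) hn.off (hdiag hn0 hu0) hn0.off hση
  obtain ⟨t, ht⟩ := diag_of_comm hG hl h0 hcomm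
  refine ⟨t, ht, fun k => ?_⟩
  have h1 := eigen_close hg hX0 hδ0 hXle ht hσ0 hn.off k
  have h2 : (d : ℝ) * (δ * σ) ≤ u k / (4 * K) := by
    calc (d : ℝ) * (δ * σ) = (d * δ) * σ := by ring
      _ ≤ 1 / 2 * σ := mul_le_mul_of_nonneg_right hdδ hσ0
      _ = σ / 2 := by ring
      _ ≤ 1 / (4 * K * H ^ 2) := hσH
      _ = (1 / H ^ 2) / (4 * K) := by field_simp
      _ ≤ u k / (4 * K) := div_le_div_of_nonneg_right (hu k).1 (by positivity)
  have h3 := hn.low k
  have h4 := hn.up k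
  have h5 := abs_le.1 (h1.trans h2)
  have h6 : u k / (2 * K) = u k / (4 * K) + u k / (4 * K) := by ring
  have h7 : u k / (4 * K) ≤ u k := by
    rw [div_le_iff₀ (by positivity)]
    nlinarith [hupos k]
  have h8 : u k ≤ 2 * K * u k := by nlinarith [hupos k]
  apply log_near hK (hupos k)
  · linarith
  · linarith

lemma diag_inv_mul {G : Matrix (Fin d) (Fin d) ℝ} {τ τ' : Matrix (Fin d) (Fin d) ℤ}
    {t t' : Fin d → ℝ} (hτ : IsUnit τ.det) (ht0 : ∀ k, t k ≠ 0) (h : G * zR τ = diagonal t * G)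
    (h' : G * zR τ' = diagonal t' * G) :
    G * zR (τ⁻¹ * τ') = diagonal (fun k => t' k / t k) * G := by
  have h1 : G * zR τ⁻¹ = diagonal (fun k => (t k)⁻¹) * G := by
    have h2 : G = diagonal t * (G * zR τ⁻¹) := by
      calc G = G * (zR τ * zR τ⁻¹) := by rw [zR_inv hτ, Matrix.mul_one]
        _ = (G * zR τ) * zR τ⁻¹ := by rw [Matrix.mul_assoc]
        _ = _ := by rw [h, Matrix.mul_assoc]
    have h3 : diagonal (fun k => (t k)⁻¹) * diagonal t = 1 := by
      rw [diagonal_mul_diagonal, ← diagonal_one]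
      congr 1
      funext k
      exact inv_mul_cancel₀ (ht0 k)
    calc G * zR τ⁻¹ = (diagonal (fun k => (t k)⁻¹) * diagonal t) * (G * zR τ⁻¹) := by
          rw [h3, Matrix.one_mul]
      _ = diagonal (fun k => (t k)⁻¹) * (diagonal t * (G * zR τ⁻¹)) := by
          rw [Matrix.mul_assoc]
      _ = _ := by rw [← h2]
  calc G * zR (τ⁻¹ * τ') = (G * zR τ⁻¹) * zR τ' := by rw [zR_mul, Matrix.mul_assoc]
    _ = diagonal (fun k => (t k)⁻¹) * (G * zR τ') := by rw [h1, Matrix.mul_assoc]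
    _ = diagonal (fun k => (t k)⁻¹) * diagonal t' * G := by rw [h', Matrix.mul_assoc]
    _ = _ := by
        rw [diagonal_mul_diagonal]
        congr 2
        funext k
        rw [div_eq_mul_inv, mul_comm]

/-- the final contradiction -/
theorem stageB (hd : 3 ≤ d) {K H c L : ℝ} (hK : 1 ≤ K) (hH : 1 ≤ H)
    (hc : c = Real.log (4 * K) + Real.log (4 * K)) (hc1 : 1 ≤ c)
    (hL : L = 2 * c + 1) {ε₁ C₁ : ℝ} (hC₁ : 0 < C₁)
    {G : Matrix (Fin d) (Fin d) ℝ} (hG : G.det ≠ 0)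
    {δ : ℝ} {i j : Fin d} (hij : i ≠ j)
    (hδ : δ ≤ Real.exp (-(C₁ * (32 * K ^ 2 * H ^ 2) ^ (d * d + 2))))
    (hexit : ∀ (ζ : Matrix (Fin d) (Fin d) ℤ) (z : Fin d → ℝ), IsUnit ζ.det →
      G * zR ζ = diagonal z * G → (∀ k, 0 < z k) →
      ∀ ρ φ : ℝ, 1 ≤ ρ → (∀ k, |Real.log (z k)| ≤ ρ) → φ = |Real.log (z i) - Real.log (z j)| →
      0 < φ → φ ≤ ε₁ → δ ≤ Real.exp (-(C₁ * (ρ / φ))) → False)
    {m₀ m m' M : ℕ} (hmm : m < m') (hm'M : m' ≤ M) (hMH : M * L * (d : ℝ) ^ 2 ≤ Real.log H)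
    {τ τ' : Matrix (Fin d) (Fin d) ℤ} (hτ : IsUnit τ.det) (hτ' : IsUnit τ'.det)
    {t t' : Fin d → ℝ} (ht : G * zR τ = diagonal t * G) (ht' : G * zR τ' = diagonal t' * G)
    (htl : ∀ k, 0 < t k ∧ |Real.log (t k) - ((m : ℝ) - m₀) * L * dirV i j k| ≤ Real.log (4 * K))
    (htl' : ∀ k, 0 < t' k ∧
      |Real.log (t' k) - ((m' : ℝ) - m₀) * L * dirV i j k| ≤ Real.log (4 * K))
    (hbin : |(Real.log (t i) - Real.log (t j)) - (Real.log (t' i) - Real.log (t' j))| ≤ ε₁) :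
    False := by
  classical
  have hL0 : 0 ≤ L := by linarith
  have hK2 : 1 ≤ K ^ 2 := one_le_pow₀ hK
  have hH2 : 1 ≤ H ^ 2 := one_le_pow₀ hH
  have hz := diag_inv_mul hτ (fun k => (htl k).1.ne') ht ht'
  set z : Fin d → ℝ := fun k => t' k / t k with hzdef
  have hzpos : ∀ k, 0 < z k := fun k => div_pos (htl' k).1 (htl k).1
  have hζ : IsUnit (τ⁻¹ * τ').det := by
    rw [Matrix.det_mul]
    exact (Matrix.isUnit_nonsing_inv_det _ hτ).mul hτ'
  have hlog : ∀ k, Real.log (z k) = Real.log (t' k) - Real.log (t k) := fun k =>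
    Real.log_div (htl' k).1.ne' (htl k).1.ne'
  have hmm' : (1 : ℝ) ≤ (m' : ℝ) - m := by
    have : (m : ℝ) + 1 ≤ m' := by exact_mod_cast hmm
    linarith
  have hzc : ∀ k, |Real.log (z k) - ((m' : ℝ) - m) * L * dirV i j k| ≤ c := by
    intro k
    have h1 := (htl k).2
    have h2 := (htl' k).2
    rw [hlog, hc]
    have h3 : Real.log (t' k) - Real.log (t k) - ((m' : ℝ) - m) * L * dirV i j k =
        (Real.log (t' k) - ((m' : ℝ) - m₀) * L * dirV i j k) -
        (Real.log (t k) - ((m : ℝ) - m₀) * L * dirV i j k) := by ring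
    rw [h3]
    refine (abs_sub _ _).trans ?_
    linarith
  have hmL : L ≤ ((m' : ℝ) - m) * L := by nlinarith
  -- `log z i < 0`
  have hzi : Real.log (z i) < 0 := by
    have h1 := abs_le.1 (hzc i)
    have h2 := dirV_neg hd (i := i) (j := j)
    have h3 : ((m' : ℝ) - m) * L * dirV i j i ≤ -(L / 2) := by nlinarith
    linarith
  -- distinct
  have hgap : ∀ k l, k ≠ l → ¬ ((k = i ∨ k = j) ∧ (l = i ∨ l = j)) → z k ≠ z l := by
    intro k l hkl hnot heq
    have h1 := abs_le.1 (hzc k)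
    have h2 := abs_le.1 (hzc l)
    have h3 := dirV_gap hd hkl hnot
    rw [heq] at h1
    have h4 : |((m' : ℝ) - m) * L * dirV i j k - ((m' : ℝ) - m) * L * dirV i j l| ≤ 2 * c := by
      rw [abs_le]
      constructor <;> linarith
    rw [← mul_sub, abs_mul, abs_of_nonneg (by nlinarith)] at h4
    have h5 : L ≤ ((m' : ℝ) - m) * L * |dirV i j k - dirV i j l| := by
      calc L ≤ ((m' : ℝ) - m) * L := hmL
        _ = ((m' : ℝ) - m) * L * 1 := by ring
        _ ≤ _ := mul_le_mul_of_nonneg_left h3 (by nlinarith)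
    linarith
  have hzij : z i ≠ z j := by
    intro heq
    obtain ⟨w, hw, hwd⟩ := double_int hG hz hij heq (by
      intro k l hkl hkl'
      by_contra hcon
      by_cases hk : k = i ∨ k = j
      · rcases hk with rfl | rfl
        · exact hcon rfl
        · exact hcon heq.symm
      · exact hgap k l hkl (fun h => hk h.1) hkl')
    have h1 : w ∣ 1 := by
      have h2 := Int.isUnit_iff_abs_eq.1 hζ
      rw [← h2]
      exact (dvd_abs _ _).2 hwd
    have h3 : IsUnit w := isUnit_of_dvd_one h1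
    have h4 : w = 1 := by
      rcases Int.isUnit_iff.1 h3 with h5 | h5
      · exact h5
      · exfalso
        have h6 := hzpos i
        have hw' : z i = (w : ℝ) := hw
        rw [hw', h5] at h6
        norm_num at h6
    have h5 : z i = 1 := by
      have hw' : z i = (w : ℝ) := hw
      rw [hw', h4]
      norm_num
    rw [h5, Real.log_one] at hzi
    exact lt_irrefl _ hzi
  have hinj : Function.Injective z := by
    intro k l hkl
    by_contra hne
    by_cases h : (k = i ∨ k = j) ∧ (l = i ∨ l = j)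
    · obtain ⟨hk | hk, hl | hl⟩ := h
      · exact hne (hk.trans hl.symm)
      · exact hzij (by rw [← hk, ← hl]; exact hkl)
      · exact hzij (by rw [← hk, ← hl]; exact hkl.symm)
      · exact hne (hk.trans hl.symm)
    · exact hgap k l hne h hkl
  -- size
  set H' : ℝ := 16 * K ^ 2 * H ^ 2 with hH'
  have hH'1 : 1 ≤ H' := by
    rw [hH']
    nlinarith
  have hlogH0 : 0 ≤ Real.log H := Real.log_nonneg hH
  have hlogH' : c + Real.log H ≤ Real.log H' := by
    have h1 : H' = (4 * K) * (4 * K) * (H * H) := by rw [hH']; ring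
    have hK0 : 0 < K := by linarith
    have hH0 : 0 < H := by linarith
    have hK4 : 4 * K ≠ 0 := by positivity
    rw [h1, Real.log_mul (mul_ne_zero hK4 hK4) (by positivity), Real.log_mul hK4 hK4,
      Real.log_mul hH0.ne' hH0.ne', hc]
    linarith
  have hzlog : ∀ k, |Real.log (z k)| ≤ Real.log H' := by
    intro k
    have h1 := hzc k
    have h2 : |((m' : ℝ) - m) * L * dirV i j k| ≤ Real.log H := by
      refine le_trans ?_ hMH
      rw [abs_mul, abs_of_nonneg (by nlinarith : 0 ≤ ((m' : ℝ) - m) * L)]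
      refine mul_le_mul ?_ (dirV_le i j k) (abs_nonneg _) (by positivity)
      refine mul_le_mul_of_nonneg_right ?_ hL0
      have h3 : (m' : ℝ) ≤ M := by exact_mod_cast hm'M
      have h4 : (0 : ℝ) ≤ m := Nat.cast_nonneg _
      linarith
    have h3 : Real.log (z k) = (Real.log (z k) - ((m' : ℝ) - m) * L * dirV i j k) +
        ((m' : ℝ) - m) * L * dirV i j k := by ring
    rw [h3]
    refine (abs_add_le _ _).trans ?_
    linarith
  have hzH : ∀ k, z k ≤ H' := by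
    intro k
    have h1 := (le_abs_self _).trans (hzlog k)
    exact (Real.log_le_log_iff (hzpos k) (by linarith)).1 h1
  have heg := eigen_gap hG hz hinj hH'1 (fun k => by
    show |z k| ≤ H'
    rw [abs_of_pos (hzpos k)]
    exact hzH k) hij
  set φ : ℝ := |Real.log (z i) - Real.log (z j)| with hφ
  have hφ0 : 0 < φ := by
    rw [hφ]
    apply abs_pos.2
    intro h0
    apply hzij
    exact Real.log_injOn_pos (Set.mem_Ioi.2 (hzpos i)) (Set.mem_Ioi.2 (hzpos j))
      (sub_eq_zero.1 h0)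
  have hφ1 : φ ≤ ε₁ := by
    refine le_trans (le_of_eq ?_) hbin
    rw [hφ, hlog, hlog, abs_sub_comm]
    congr 1
    ring
  have hpb := phi_bound hφ0 hH'1 (sub_le_log (hzpos i) (hzpos j) (hzH i) (hzH j)) heg
  have hρ : 1 ≤ Real.log H' := by linarith
  refine hexit _ z hζ hz hzpos (Real.log H') φ hρ hzlog rfl hφ0 hφ1 (hδ.trans ?_)
  apply Real.exp_le_exp.2
  apply neg_le_neg
  apply mul_le_mul_of_nonneg_left _ hC₁.le
  have h32 : 32 * K ^ 2 * H ^ 2 = 2 * H' := by rw [hH']; ring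
  rw [h32]
  exact hpb

end Pool.Agent.KS6_90
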