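import Mathlib
import Pool.Agent.KS6_90.StageB

/-! # Local complexity of the orbit of a counterexample -/

set_option autoImplicit false

open Matrix Finset H715R2 Pool.Agent.T6.H49.CSD

namespace Pool.Agent.KS6_90

variable {d : ℕ}

lemma le_of_abs_log {a H : ℝ} (ha : 0 < a) (hH : 0 < H) (h : |Real.log a| ≤ Real.log H) :
    a ≤ H ∧ a⁻¹ ≤ H := by
  have h1 := abs_le.1 h
  refine ⟨(Real.log_le_log_iff ha hH).1 h1.2, ?_⟩
  refine (Real.log_le_log_iff (inv_pos.2 ha) hH).1 ?_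
  rw [Real.log_inv]
  linarith

lemma ratio_bounds {a a' H : ℝ} (ha : 0 < a) (ha' : 0 < a') (hH : 0 < H)
    (h : |Real.log a| ≤ Real.log H) (h' : |Real.log a'| ≤ Real.log H) :
    1 / H ^ 2 ≤ a' / a ∧ a' / a ≤ H ^ 2 := by
  obtain ⟨h1, h2⟩ := le_of_abs_log ha hH h
  obtain ⟨h3, h4⟩ := le_of_abs_log ha' hH h'
  constructor
  · rw [div_le_div_iff₀ (by positivity) ha]
    have h5 : 1 ≤ H * a' := by
      have h6 : a'⁻¹ * a' ≤ H * a' := mul_le_mul_of_nonneg_right h4 ha'.le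
      rwa [inv_mul_cancel₀ ha'.ne'] at h6
    calc 1 * a ≤ 1 * H := mul_le_mul_of_nonneg_left h1 (by norm_num)
      _ ≤ (H * a') * H := mul_le_mul_of_nonneg_right h5 hH.le
      _ = _ := by ring
  · rw [div_eq_mul_inv]
    calc a' * a⁻¹ ≤ H * H := mul_le_mul h3 h2 (inv_pos.2 ha).le hH.le
      _ = _ := by ring

lemma floor_close {x y ε₁ : ℝ} (hε₁ : 0 < ε₁) (hx : 0 ≤ x) (hy : 0 ≤ y)
    (h : ⌊x / ε₁⌋₊ = ⌊y / ε₁⌋₊) : |x - y| ≤ ε₁ := by
  have h1 := Nat.floor_le (div_nonneg hx hε₁.le)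
  have h2 := Nat.lt_floor_add_one (x / ε₁)
  have h3 := Nat.floor_le (div_nonneg hy hε₁.le)
  have h4 := Nat.lt_floor_add_one (y / ε₁)
  rw [h] at h1 h2
  have h5 : |x / ε₁ - y / ε₁| ≤ 1 := by
    rw [abs_le]
    constructor <;> linarith
  rw [← sub_div, abs_div, abs_of_pos hε₁, div_le_one hε₁] at h5
  exact h5

theorem core_aux (hd : 3 ≤ d) {ν K : ℝ} (hν : 0 < ν) (hK : 1 ≤ K)
    {ε₁ C₁ η c L : ℝ} (hε₁ : 0 < ε₁) (hC₁ : 0 < C₁) (hη : 0 < η)
    (hc : c = Real.log (4 * K) + Real.log (4 * K)) (hc1 : 1 ≤ c) (hL : L = 2 * c + 1)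
    (hexpL : 8 * K ^ 2 ≤ Real.exp L) {s : ℕ} (hs1 : 1 ≤ s) (hs : 2 * c < s * ε₁)
    {g : Matrix (Fin d) (Fin d) ℝ} (hg : g.det ≠ 0) (hnu : HasNu g ν) (hint : ¬ PropInt g)
    (hrig : ∀ C : Matrix (Fin d) (Fin d) ℤ, (∀ i j, |cj g C i j| ≤ η) → C = 0)
    (hexit : ∀ (X : Matrix (Fin d) (Fin d) ℝ) (δ : ℝ) (i j : Fin d), i ≠ j → 0 < δ → |X i j| = δ →
      (∀ k l, |X k l| ≤ δ) → (∀ k, X k k = 0) →
      ∀ (ζ : Matrix (Fin d) (Fin d) ℤ) (z : Fin d → ℝ), IsUnit ζ.det →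
      (1 + X) * g * zR ζ = diagonal z * ((1 + X) * g) → (∀ k, 0 < z k) →
      ∀ ρ φ : ℝ, 1 ≤ ρ → (∀ k, |Real.log (z k)| ≤ ρ) → φ = |Real.log (z i) - Real.log (z j)| →
      0 < φ → φ ≤ ε₁ → δ ≤ Real.exp (-(C₁ * (ρ / φ))) → False)
    {n : ℕ} (hn : 1 ≤ n) {H E : ℝ} (hH : H = Real.exp ((n * s : ℕ) * L * (d : ℝ) ^ 2))
    (hE : E = Real.exp (C₁ * (32 * K ^ 2 * H ^ 2) ^ (d * d + 2)))
    {ε : ℝ} (hε0 : 0 < ε)
    (hε : ε * ((8 * (d : ℝ) ^ 2 * K ^ 2 + (8 + 2 * d) * K ^ 2 / η + 2) * H ^ 4 * E) ≤ 1)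
    (col : (Fin d → ℝ) → Fin n)
    (hcol : ∀ a a' : Fin d → ℝ, (∀ i, 0 < a i) → ∏ i, a i = 1 →
      (∀ i, |Real.log (a i)| ≤ Real.log H) → (∀ i, 0 < a' i) → ∏ i, a' i = 1 →
      (∀ i, |Real.log (a' i)| ≤ Real.log H) → col a = col a' →
      Close K ε (diagonal a * g) (diagonal a' * g)) : False := by
  classical
  have hd0 : 0 < d := by omega
  have hd1 : (1 : ℝ) ≤ d := by exact_mod_cast hd0
  have hL0 : 0 < L := by linarith
  have hlogH : Real.log H = (n * s : ℕ) * L * (d : ℝ) ^ 2 := by rw [hH, Real.log_exp]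
  have hH1 : 1 ≤ H := by
    rw [hH]
    exact Real.one_le_exp (by positivity)
  have hH0 : 0 < H := by linarith
  have hK0 : 0 < K := by linarith
  have hE1 : 1 ≤ E := by
    rw [hE]
    exact Real.one_le_exp (by positivity)
  obtain ⟨q1, q2, q3, q4, q5, q6, q7⟩ := numerics hd1 hK hε0.le hH1 hη hE1 hε
  set σ : ℝ := K * ε * H ^ 2 with hσ
  have hσ0 : 0 < σ := by positivity
  set δ0 : ℝ := 4 * d * K ^ 2 * (H ^ 4 * ε) with hδ0
  -- points on a line are allowed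
  have hptlog : ∀ {v : Fin d → ℝ}, (∀ k, |v k| ≤ (d : ℝ) ^ 2) → ∀ {m : ℕ}, m ≤ n * s →
      ∀ k, |Real.log (pt v L m k)| ≤ Real.log H := by
    intro v hv m hm k
    rw [hlogH]
    exact abs_log_pt hL0.le hv hm k
  have hnice : ∀ {v : Fin d → ℝ}, ∑ k, v k = 0 → (∀ k, |v k| ≤ (d : ℝ) ^ 2) → ∀ {m m' : ℕ},
      m ≤ n * s → m' ≤ n * s → col (pt v L m) = col (pt v L m') →
      ∃ τ : Matrix (Fin d) (Fin d) ℤ, Nice g (fun k => pt v L m' k / pt v L m k) K σ τ := by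
    intro v hv0 hv m m' hm hm' hcc
    have hcl := hcol _ _ (pt_pos v L m) (pt_prod hv0 L m) (hptlog hv hm) (pt_pos v L m')
      (pt_prod hv0 L m') (hptlog hv hm') hcc
    exact nice_of_close hg hK hε0.le q1 (pt_pos v L m) (pt_pos v L m')
      (fun k => (le_of_abs_log (pt_pos v L m k) hH0 (hptlog hv hm k)).2)
      (fun k => (le_of_abs_log (pt_pos v L m' k) hH0 (hptlog hv hm' k)).1) hcl
  have hrat : ∀ {v : Fin d → ℝ}, (∀ k, |v k| ≤ (d : ℝ) ^ 2) → ∀ {m m' : ℕ},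
      m ≤ n * s → m' ≤ n * s → ∀ k, 1 / H ^ 2 ≤ pt v L m' k / pt v L m k ∧
        pt v L m' k / pt v L m k ≤ H ^ 2 := by
    intro v hv m m' hm hm' k
    exact ratio_bounds (pt_pos v L m k) (pt_pos v L m' k) hH0 (hptlog hv hm k) (hptlog hv hm' k)
  -- first stage
  obtain ⟨m, m', hm, hm', hmm, hcc⟩ : ∃ m m' : ℕ, m ≤ n * s ∧ m' ≤ n * s ∧ m < m' ∧
      col (pt dirW L m) = col (pt dirW L m') := by
    obtain ⟨x, y, hxy, hf⟩ := Fintype.exists_ne_map_eq_of_card_lt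
      (fun m : Fin (n + 1) => col (pt dirW L m)) (by simp)
    have hns : n ≤ n * s := Nat.le_mul_of_pos_right n hs1
    have hx := x.2
    have hy := y.2
    have hxy' : (x : ℕ) ≠ y := fun h => hxy (Fin.ext h)
    rcases Nat.lt_or_gt_of_ne hxy' with h | h
    · exact ⟨x, y, by omega, by omega, h, hf⟩
    · exact ⟨y, x, by omega, by omega, h, hf.symm⟩
  obtain ⟨τ₀, hτ₀⟩ := hnice dirW_sum dirW_le hm hm' hcc
  have hgapW : ∀ k l : Fin d, k ≠ l →
      8 * K ^ 2 * (pt dirW L m' k / pt dirW L m k) ≤ pt dirW L m' l / pt dirW L m l ∨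
      8 * K ^ 2 * (pt dirW L m' l / pt dirW L m l) ≤ pt dirW L m' k / pt dirW L m k := by
    have hmm' : (1 : ℝ) ≤ (m' : ℝ) - m := by
      have : (m : ℝ) + 1 ≤ m' := by exact_mod_cast hmm
      linarith
    have key : ∀ k l : Fin d, 1 ≤ dirW l - dirW k →
        8 * K ^ 2 * (pt dirW L m' k / pt dirW L m k) ≤ pt dirW L m' l / pt dirW L m l := by
      intro k l hkl
      rw [pt_ratio, pt_ratio]
      have h1 : ((m' : ℝ) - m) * L * dirW l =
          ((m' : ℝ) - m) * L * (dirW l - dirW k) + ((m' : ℝ) - m) * L * dirW k := by ring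
      rw [h1, Real.exp_add]
      refine mul_le_mul_of_nonneg_right (hexpL.trans (Real.exp_le_exp.2 ?_)) (Real.exp_pos _).le
      have h2 : L ≤ ((m' : ℝ) - m) * L := by nlinarith
      calc L ≤ ((m' : ℝ) - m) * L := h2
        _ = ((m' : ℝ) - m) * L * 1 := by ring
        _ ≤ _ := mul_le_mul_of_nonneg_left hkl (by nlinarith)
    intro k l hkl
    have h1 := dirW_gap hkl
    rcases le_abs.1 h1 with h2 | h2
    · right
      exact key l k h2
    · left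
      exact key k l (by linarith)
  obtain ⟨X, l, δ, i, j, hX0, hij, hδpos, hXij, hXle, hδδ0, hGdet, hlinj, hGl⟩ :=
    stageA hd0 (V := 1) hν hK hd hg hnu hint hH1 hε0.le (fun k => (hrat dirW_le hm hm' k).1) hgapW
      hσ0 q2 q3 q4 hτ₀
  -- second stage
  have hvs := dirV_sum hij
  have hvle : ∀ k, |dirV i j k| ≤ (d : ℝ) ^ 2 := dirV_le i j
  obtain ⟨y, _, hy⟩ := Finset.exists_lt_card_fiber_of_mul_lt_card_of_maps_to
    (s := Finset.range (n * s + 1)) (t := (Finset.univ : Finset (Fin n)))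
    (f := fun m => col (pt (dirV i j) L m)) (n := s) (fun _ _ => Finset.mem_univ _) (by
      rw [Finset.card_univ, Fintype.card_fin, Finset.card_range]
      omega)
  set Fb : Finset ℕ := (Finset.range (n * s + 1)).filter
    (fun m => col (pt (dirV i j) L m) = y) with hFb
  have hFbmem : ∀ m ∈ Fb, m ≤ n * s ∧ col (pt (dirV i j) L m) = y := by
    intro m hm
    rw [hFb, Finset.mem_filter, Finset.mem_range] at hm
    exact ⟨by omega, hm.2⟩
  obtain ⟨m₀, hm₀⟩ : Fb.Nonempty := Finset.card_pos.1 (by omega)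
  have hm₀' := hFbmem m₀ hm₀
  have hdδ : (d : ℝ) * δ ≤ 1 / 2 :=
    (mul_le_mul_of_nonneg_left hδδ0 (by linarith)).trans q4
  have hex : ∀ m ∈ Fb, ∃ (τ : Matrix (Fin d) (Fin d) ℤ) (t : Fin d → ℝ), IsUnit τ.det ∧
      (1 + X) * g * zR τ = diagonal t * ((1 + X) * g) ∧
      ∀ k, 0 < t k ∧ |Real.log (t k) - ((m : ℝ) - m₀) * L * dirV i j k| ≤ Real.log (4 * K) := by
    intro m hm
    have hm1 := hFbmem m hm
    obtain ⟨τ, hτ⟩ := hnice hvs hvle hm₀'.1 hm1.1 (hm₀'.2.trans hm1.2.symm)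
    obtain ⟨t, ht, htl⟩ := exact_eig hg hK hH1 hX0 hδpos.le hσ0.le hXle hdδ hGdet hlinj hGl hrig
      q6 q5 hτ₀ hτ (fun k => ⟨div_pos (pt_pos _ _ _ _) (pt_pos _ _ _ _),
        (hrat dirW_le ‹_› ‹_› k).2⟩) (hrat hvle hm₀'.1 hm1.1)
    refine ⟨τ, t, hτ.unit, ht, fun k => ⟨(htl k).1, ?_⟩⟩
    have h1 := (htl k).2
    rw [pt_ratio, Real.log_exp] at h1
    exact h1
  choose! τ t hτu hτt htl using hex
  have hvij := dirV_eq i j
  have hdiff : ∀ m ∈ Fb, |Real.log (t m i) - Real.log (t m j)| ≤ c := by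
    intro m hm
    have h1 := (htl m hm i).2
    have h2 := (htl m hm j).2
    rw [← hvij] at h2
    have h3 : Real.log (t m i) - Real.log (t m j) =
        (Real.log (t m i) - ((m : ℝ) - m₀) * L * dirV i j i) -
        (Real.log (t m j) - ((m : ℝ) - m₀) * L * dirV i j i) := by ring
    rw [h3, hc]
    refine (abs_sub _ _).trans ?_
    linarith
  obtain ⟨x, hx, x', hx', hxx, hfl⟩ := Finset.exists_ne_map_eq_of_card_lt_of_maps_to
    (s := Fb) (t := Finset.range s)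
    (f := fun m => ⌊(Real.log (t m i) - Real.log (t m j) + c) / ε₁⌋₊) (by
      rw [Finset.card_range]
      exact hy) (by
      intro m hm
      rw [Finset.mem_coe, Finset.mem_range]
      have h1 := abs_le.1 (hdiff m hm)
      rw [Nat.floor_lt (div_nonneg (by linarith) hε₁.le), div_lt_iff₀ hε₁]
      linarith)
  have hfin : ∀ x ∈ Fb, ∀ x' ∈ Fb, x < x' →
      ⌊(Real.log (t x i) - Real.log (t x j) + c) / ε₁⌋₊ =
      ⌊(Real.log (t x' i) - Real.log (t x' j) + c) / ε₁⌋₊ → False := by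
    intro x hx x' hx' hlt hfl
    have hbin : |(Real.log (t x i) - Real.log (t x j)) -
        (Real.log (t x' i) - Real.log (t x' j))| ≤ ε₁ := by
      have h1 := abs_le.1 (hdiff x hx)
      have h2 := abs_le.1 (hdiff x' hx')
      have h3 := floor_close hε₁ (x := Real.log (t x i) - Real.log (t x j) + c)
        (y := Real.log (t x' i) - Real.log (t x' j) + c) (by linarith) (by linarith) hfl
      have h4 : (Real.log (t x i) - Real.log (t x j)) - (Real.log (t x' i) - Real.log (t x' j)) =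
        (Real.log (t x i) - Real.log (t x j) + c) -
        (Real.log (t x' i) - Real.log (t x' j) + c) := by ring
      rw [h4]
      exact h3
    have hδE : δ ≤ Real.exp (-(C₁ * (32 * K ^ 2 * H ^ 2) ^ (d * d + 2))) := by
      rw [Real.exp_neg, ← hE]
      exact hδδ0.trans q7
    exact stageB hd hK hH1 hc hc1 hL hC₁ hGdet hij hδE
      (fun ζ z h1 h2 h3 => hexit X δ i j hij hδpos hXij hXle hX0 ζ z h1 h2 h3) hlt
      (hFbmem x' hx').1 (le_of_eq hlogH.symm) (hτu x hx) (hτu x' hx') (hτt x hx) (hτt x' hx')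
      (htl x hx) (htl x' hx') hbin
  rcases Nat.lt_or_gt_of_ne hxx with h | h
  · exact hfin x hx x' hx' h hfl
  · exact hfin x' hx' x hx h hfl.symm

theorem core (hd : 3 ≤ d) {V ν K : ℝ} (hV : 0 < V) (hν : 0 < ν) (hK : 1 ≤ K) :
    ∃ B C₁ L0 : ℝ, 1 ≤ B ∧ 0 < C₁ ∧ 0 < L0 ∧ ∀ g : Matrix (Fin d) (Fin d) ℝ, |g.det| = V →
      HasNu g ν → ¬ PropInt g → ∀ n : ℕ, 1 ≤ n → ∀ ε : ℝ, 0 < ε →
      ε * (B * Real.exp (L0 * n) ^ 4 *
        Real.exp (C₁ * (32 * K ^ 2 * Real.exp (L0 * n) ^ 2) ^ (d * d + 2))) ≤ 1 →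
      ∀ col : (Fin d → ℝ) → Fin n,
      (∀ a a' : Fin d → ℝ, (∀ i, 0 < a i) → ∏ i, a i = 1 → (∀ i, |Real.log (a i)| ≤ L0 * n) →
        (∀ i, 0 < a' i) → ∏ i, a' i = 1 → (∀ i, |Real.log (a' i)| ≤ L0 * n) → col a = col a' →
        Close K ε (diagonal a * g) (diagonal a' * g)) → False := by
  classical
  have hd0 : 0 < d := by omega
  have hd1 : (1 : ℝ) ≤ d := by exact_mod_cast hd0
  have hK0 : 0 < K := by linarith
  have hK2 : 1 ≤ K ^ 2 := one_le_pow₀ hK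
  obtain ⟨ε₁, C₁, hε₁, hC₁, hexit⟩ := exit_contra hd0 hV hν
  obtain ⟨η, hη, hrig⟩ := rigid hd0 hV hν
  obtain ⟨c, hc⟩ : ∃ c : ℝ, c = Real.log (4 * K) + Real.log (4 * K) := ⟨_, rfl⟩
  have hc' : c = Real.log (16 * K ^ 2) := by
    rw [hc, ← Real.log_mul (by positivity) (by positivity)]
    congr 1
    ring
  have hc1 : 1 ≤ c := by
    rw [hc', Real.le_log_iff_exp_le (by positivity)]
    have := Real.exp_one_lt_d9
    linarith
  obtain ⟨L, hL⟩ : ∃ L : ℝ, L = 2 * c + 1 := ⟨_, rfl⟩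
  have hexpL : 8 * K ^ 2 ≤ Real.exp L := by
    have h1 : Real.exp c ≤ Real.exp L := Real.exp_le_exp.2 (by linarith)
    rw [hc', Real.exp_log (by positivity)] at h1
    linarith
  obtain ⟨s, hs⟩ : ∃ s : ℕ, s = ⌊2 * c / ε₁⌋₊ + 1 := ⟨_, rfl⟩
  have hs1 : 1 ≤ s := by omega
  have hs2 : 2 * c < s * ε₁ := by
    rw [← div_lt_iff₀ hε₁, hs]
    push_cast
    exact Nat.lt_floor_add_one _
  have hs1' : (1 : ℝ) ≤ s := by exact_mod_cast hs1
  have hL0 : 0 < L := by linarith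
  refine ⟨8 * (d : ℝ) ^ 2 * K ^ 2 + (8 + 2 * d) * K ^ 2 / η + 2, C₁, s * L * (d : ℝ) ^ 2, ?_, hC₁,
    by positivity, ?_⟩
  · have h1 : 0 ≤ 8 * (d : ℝ) ^ 2 * K ^ 2 := by positivity
    have h2 : 0 ≤ (8 + 2 * d) * K ^ 2 / η := by positivity
    linarith
  intro g hdet hnu hint n hn ε hε0 hε col hcol
  have hg : g.det ≠ 0 := by
    intro h0
    rw [h0, abs_zero] at hdet
    exact hV.ne hdet
  have hexp : (s * L * (d : ℝ) ^ 2) * (n : ℝ) = ((n * s : ℕ) : ℝ) * L * (d : ℝ) ^ 2 := by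
    push_cast
    ring
  rw [hexp] at hε hcol
  refine core_aux hd hν hK hε₁ hC₁ hη hc hc1 hL hexpL hs1 hs2 hg hnu hint (hrig g hdet hnu)
    (hexit g hdet hnu) hn rfl rfl hε0 hε col ?_
  intro a a' h1 h2 h3 h4 h5 h6 h7
  rw [Real.log_exp] at h3 h6
  exact hcol a a' h1 h2 h3 h4 h5 h6 h7

end Pool.Agent.KS6_90
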