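import Mathlib
import Pool.Agent.KS6_90.Core

/-! # Local complexity: the clean form -/

set_option autoImplicit false

open Matrix Finset H715R2 Pool.Agent.T6.H49.CSD

namespace Pool.Agent.KS6_90

variable {d : ℕ}

lemma close_mono' {K ε ε' : ℝ} (hε : ε ≤ ε') {x y : Matrix (Fin d) (Fin d) ℝ}
    (h : Close K ε x y) : Close K ε' x y := by
  obtain ⟨b, E, γ, hb, hE, hγ, heq⟩ := h
  exact ⟨b, E, γ, hb, fun i j => (hE i j).trans hε, hγ, heq⟩

theorem local_complexity (hd : 3 ≤ d) {V ν K : ℝ} (hV : 0 < V) (hν : 0 < ν) (hK : 1 ≤ K) :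
    ∃ C : ℝ, 1 ≤ C ∧ ∀ g : Matrix (Fin d) (Fin d) ℝ, |g.det| = V →
      HasNu g ν → ¬ PropInt g → ∀ n : ℕ, 1 ≤ n → ∀ ε : ℝ, ε ≤ Real.exp (-Real.exp (C * n)) →
      ∀ col : (Fin d → ℝ) → Fin n,
      (∀ a a' : Fin d → ℝ, (∀ i, 0 < a i) → ∏ i, a i = 1 → (∀ i, |Real.log (a i)| ≤ C * n) →
        (∀ i, 0 < a' i) → ∏ i, a' i = 1 → (∀ i, |Real.log (a' i)| ≤ C * n) → col a = col a' →
        Close K ε (diagonal a * g) (diagonal a' * g)) → False := by
  obtain ⟨B, C₁, L0, hB, hC₁, hL0, hcore⟩ := core hd hV hν hK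
  have hK0 : 0 < K := by linarith
  set q : ℕ := d * d + 2 with hq
  set A : ℝ := C₁ * (32 * K ^ 2) ^ q with hA
  have hA0 : 0 < A := by positivity
  set C : ℝ := 2 * q * L0 + Real.log (B + 4 + A) + 1 with hC
  have hlog0 : 0 ≤ Real.log (B + 4 + A) := Real.log_nonneg (by linarith)
  have hq2 : (2 : ℝ) ≤ q := by
    rw [hq]; push_cast
    have : (0 : ℝ) ≤ (d : ℝ) * d := by positivity
    linarith
  have hCL0 : L0 ≤ C := by
    rw [hC]
    nlinarith
  refine ⟨C, ?_, ?_⟩
  · rw [hC]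
    have : 0 ≤ 2 * (q : ℝ) * L0 := by positivity
    linarith
  intro g hdet hnu hint n hn ε hε col hcol
  have hn1 : (1 : ℝ) ≤ n := by exact_mod_cast hn
  refine hcore g hdet hnu hint n hn (Real.exp (-Real.exp (C * n))) (Real.exp_pos _) ?_ col ?_
  · have hB' : B = Real.exp (Real.log B) := (Real.exp_log (by linarith)).symm
    have h4 : Real.exp (L0 * n) ^ 4 = Real.exp (4 * (L0 * n)) := by
      rw [← Real.exp_nat_mul]; norm_num
    have h2q : (32 * K ^ 2 * Real.exp (L0 * n) ^ 2) ^ q =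
        (32 * K ^ 2) ^ q * Real.exp (2 * q * L0 * n) := by
      rw [mul_pow, ← pow_mul, ← Real.exp_nat_mul]
      congr 2
      push_cast
      ring
    rw [h4, h2q, hB', ← Real.exp_add, ← Real.exp_add, ← Real.exp_add]
    apply Real.exp_le_one_iff.2
    have hx1 : 1 ≤ Real.exp (2 * q * L0 * n) := Real.one_le_exp (by positivity)
    have hx2 : L0 * n ≤ Real.exp (2 * q * L0 * n) := by
      have h1 := Real.add_one_le_exp (2 * q * L0 * n)
      have h2 : L0 * n ≤ 2 * q * L0 * n := by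
        have : 0 < L0 * n := by positivity
        nlinarith
      linarith
    have hx3 : B + 4 + A ≤ Real.exp (Real.log (B + 4 + A) * n) := by
      have h1 : Real.log (B + 4 + A) ≤ Real.log (B + 4 + A) * n := by nlinarith
      calc B + 4 + A = Real.exp (Real.log (B + 4 + A)) := (Real.exp_log (by linarith)).symm
        _ ≤ _ := Real.exp_le_exp.2 h1
    have hx4 : (B + 4 + A) * Real.exp (2 * q * L0 * n) ≤ Real.exp (C * n) := by
      have h1 : C * n = Real.log (B + 4 + A) * n + 2 * q * L0 * n + n := by rw [hC]; ring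
      rw [h1, Real.exp_add, Real.exp_add]
      have h2 : 1 ≤ Real.exp (n : ℝ) := Real.one_le_exp (by positivity)
      have h3 : 0 < Real.exp (2 * q * L0 * n) := Real.exp_pos _
      calc (B + 4 + A) * Real.exp (2 * q * L0 * n) ≤
            Real.exp (Real.log (B + 4 + A) * n) * Real.exp (2 * q * L0 * n) :=
            mul_le_mul_of_nonneg_right hx3 h3.le
        _ = Real.exp (Real.log (B + 4 + A) * n) * Real.exp (2 * q * L0 * n) * 1 := by ring
        _ ≤ _ := mul_le_mul_of_nonneg_left h2 (by positivity)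
    have hx5 : Real.log B ≤ B := by
      have := Real.log_le_sub_one_of_pos (by linarith : 0 < B)
      linarith
    have hx6 : B ≤ B * Real.exp (2 * q * L0 * n) := by nlinarith
    have hx7 : (B + 4 + A) * Real.exp (2 * q * L0 * n) = B * Real.exp (2 * q * L0 * n) +
        4 * Real.exp (2 * q * L0 * n) + A * Real.exp (2 * q * L0 * n) := by ring
    have hx8 : C₁ * ((32 * K ^ 2) ^ q * Real.exp (2 * q * L0 * n)) =
        A * Real.exp (2 * q * L0 * n) := by rw [hA]; ring
    rw [hx8]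
    linarith
  · have hrad : L0 * n ≤ C * n := mul_le_mul_of_nonneg_right hCL0 (by linarith)
    intro a a' h1 h2 h3 h4 h5 h6 h7
    exact close_mono' hε (hcol a a' h1 h2 (fun i => (h3 i).trans hrad) h4 h5
      (fun i => (h6 i).trans hrad) h7)

end Pool.Agent.KS6_90
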