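import Mathlib
import Pool.Agent.KS6_90.Main1

/-! # Integral forms close to a multiple of a product of linear forms -/

set_option autoImplicit false

open Matrix Finset H715R2 Pool.Agent.T6.H49.CSD

namespace Pool.Agent.KS6_90

variable {d : ℕ}

lemma homog_polyF (g : Matrix (Fin d) (Fin d) ℝ) : (polyF g).IsHomogeneous d := by
  have h1 := MvPolynomial.IsHomogeneous.prod (Finset.univ : Finset (Fin d))
    (fun i => ∑ j : Fin d, MvPolynomial.C (g i j) * MvPolynomial.X j) (fun _ => 1)
    (fun i _ => MvPolynomial.IsHomogeneous.sum _ _ _ fun j _ =>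
      MvPolynomial.isHomogeneous_C_mul_X _ _)
  simpa [polyF] using h1

lemma homog_of_near {g : Matrix (Fin d) (Fin d) ℝ} {G : MvPolynomial (Fin d) ℤ} {N e : ℝ}
    (he : e < 1)
    (hG : ∀ m, |N * MvPolynomial.coeff m (polyF g) - (MvPolynomial.coeff m G : ℤ)| ≤ e) :
    G.IsHomogeneous d := by
  intro m hm
  by_contra hne
  have h1 : MvPolynomial.coeff m (polyF g) = 0 := by
    by_contra h0
    exact hne (homog_polyF g h0)
  have h2 := hG m
  rw [h1, mul_zero, zero_sub, abs_neg] at h2
  have h3 : |((MvPolynomial.coeff m G : ℤ) : ℝ)| < 1 := h2.trans_lt he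
  have h4 : |MvPolynomial.coeff m G| < 1 := by exact_mod_cast h3
  exact hm (Int.abs_lt_one_iff.1 h4)

lemma card_support_le {G : MvPolynomial (Fin d) ℝ} (hG : G.IsHomogeneous d) :
    G.support.card ≤ (d + 1) ^ d := by
  classical
  have hmem : ∀ m ∈ G.support, ∀ i, m i ≤ d := by
    intro m hm i
    have h1 := hG (MvPolynomial.mem_support_iff.1 hm)
    rw [Finsupp.weight_apply, Finsupp.sum_fintype _ _ (fun _ => by simp)] at h1
    have h2 : m i ≤ ∑ j, m j := Finset.single_le_sum (f := fun j => m j)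
      (fun _ _ => Nat.zero_le _) (Finset.mem_univ i)
    simp at h1
    omega
  have h1 : G.support.card ≤ Fintype.card (Fin d → Fin (d + 1)) := by
    rw [← Finset.card_univ]
    refine Finset.card_le_card_of_injOn
      (fun m => fun i => (⟨min (m i) d, by omega⟩ : Fin (d + 1))) (fun _ _ => by simp) ?_
    intro m hm m' hm' h
    ext i
    have h2 := congrFun h i
    rw [Fin.mk.injEq] at h2
    have h3 := hmem m hm i
    have h4 := hmem m' hm' i
    omega
  simpa using h1

/-- values of the difference -/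
lemma eval_near {g : Matrix (Fin d) (Fin d) ℝ} {G : MvPolynomial (Fin d) ℤ} {N e Y : ℝ}
    (he : e < 1)
    (hG : ∀ m, |N * MvPolynomial.coeff m (polyF g) - (MvPolynomial.coeff m G : ℤ)| ≤ e)
    {x : Fin d → ℝ} (hx : ∀ j, |x j| ≤ Y) :
    |N * FF g x - MvPolynomial.eval x (MvPolynomial.map (Int.castRingHom ℝ) G)| ≤
      ((d : ℝ) + 1) ^ d * (e * Y ^ d) := by
  classical
  have he0 : 0 ≤ e := (abs_nonneg _).trans (hG 0)
  have hGh := homog_of_near he hG
  set Q : MvPolynomial (Fin d) ℝ := MvPolynomial.C N * polyF g -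
    MvPolynomial.map (Int.castRingHom ℝ) G with hQ
  have hQh : Q.IsHomogeneous d := by
    rw [hQ]
    refine MvPolynomial.IsHomogeneous.sub ?_ ?_
    · have := (MvPolynomial.isHomogeneous_C (Fin d) N).mul (homog_polyF g)
      simpa using this
    · exact hGh.map _
  have hcoef : ∀ m, |MvPolynomial.coeff m Q| ≤ e := by
    intro m
    rw [hQ, MvPolynomial.coeff_sub, MvPolynomial.coeff_C_mul, MvPolynomial.coeff_map]
    exact hG m
  have hev : N * FF g x - MvPolynomial.eval x (MvPolynomial.map (Int.castRingHom ℝ) G) =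
      MvPolynomial.eval x Q := by
    rw [hQ, map_sub, map_mul, MvPolynomial.eval_C, eval_polyF]
    rfl
  rw [hev, MvPolynomial.eval_eq]
  calc |∑ m ∈ Q.support, MvPolynomial.coeff m Q * ∏ i ∈ m.support, x i ^ m i| ≤
        ∑ m ∈ Q.support, |MvPolynomial.coeff m Q * ∏ i ∈ m.support, x i ^ m i| :=
        Finset.abs_sum_le_sum_abs _ _
    _ ≤ ∑ _m ∈ Q.support, e * Y ^ d := by
        refine Finset.sum_le_sum fun m hm => ?_
        rw [abs_mul]
        refine mul_le_mul (hcoef m) ?_ (abs_nonneg _) he0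
        have h1 := hQh (MvPolynomial.mem_support_iff.1 hm)
        rw [Finsupp.weight_apply, Finsupp.sum] at h1
        simp at h1
        rw [Finset.abs_prod]
        calc ∏ i ∈ m.support, |x i ^ m i| ≤ ∏ i ∈ m.support, Y ^ m i := by
              refine Finset.prod_le_prod (fun _ _ => abs_nonneg _) fun i _ => ?_
              rw [abs_pow]
              exact pow_le_pow_left₀ (abs_nonneg _) (hx i) _
          _ = Y ^ d := by rw [Finset.prod_pow_eq_pow_sum, h1]
    _ = Q.support.card * (e * Y ^ d) := by rw [Finset.sum_const, nsmul_eq_mul]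
    _ ≤ ((d : ℝ) + 1) ^ d * (e * Y ^ d) := by
        by_cases hd : d = 0
        · subst hd
          refine mul_le_mul_of_nonneg_right ?_ (by simpa using he0)
          exact_mod_cast card_support_le hQh
        · have hY : 0 ≤ Y := (abs_nonneg _).trans (hx ⟨0, by omega⟩)
          refine mul_le_mul_of_nonneg_right ?_ (by positivity)
          exact_mod_cast card_support_le hQh

/-- the form `G` after the linear change of variables `γ` -/
noncomputable def sub (G : MvPolynomial (Fin d) ℤ) (γ : Matrix (Fin d) (Fin d) ℤ) :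
    MvPolynomial (Fin d) ℤ :=
  MvPolynomial.bind₁ (fun i => ∑ j : Fin d, MvPolynomial.C (γ i j) * MvPolynomial.X j) G

lemma eval_sub (G : MvPolynomial (Fin d) ℤ) (γ : Matrix (Fin d) (Fin d) ℤ) (x : Fin d → ℤ) :
    MvPolynomial.eval x (sub G γ) = MvPolynomial.eval (γ *ᵥ x) G := by
  have h1 := MvPolynomial.eval₂Hom_bind₁ (RingHom.id ℤ) x
    (fun i => ∑ j : Fin d, MvPolynomial.C (γ i j) * MvPolynomial.X j) G
  have h2 : (fun i => MvPolynomial.eval₂Hom (RingHom.id ℤ) x
      (∑ j : Fin d, MvPolynomial.C (γ i j) * MvPolynomial.X j)) = γ *ᵥ x := by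
    funext i
    simp [mulVec, dotProduct]
  rw [h2] at h1
  exact h1

lemma eval_map_sub (G : MvPolynomial (Fin d) ℤ) (γ : Matrix (Fin d) (Fin d) ℤ) (x : Fin d → ℝ) :
    MvPolynomial.eval x (MvPolynomial.map (Int.castRingHom ℝ) (sub G γ)) =
      MvPolynomial.eval (zR γ *ᵥ x) (MvPolynomial.map (Int.castRingHom ℝ) G) := by
  have h1 := MvPolynomial.eval₂Hom_bind₁ (RingHom.id ℝ) x
    (fun i => MvPolynomial.map (Int.castRingHom ℝ)
      (∑ j : Fin d, MvPolynomial.C (γ i j) * MvPolynomial.X j))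
    (MvPolynomial.map (Int.castRingHom ℝ) G)
  have h2 : (fun i => MvPolynomial.eval₂Hom (RingHom.id ℝ) x
      (MvPolynomial.map (Int.castRingHom ℝ)
        (∑ j : Fin d, MvPolynomial.C (γ i j) * MvPolynomial.X j))) = zR γ *ᵥ x := by
    funext i
    simp [mulVec, dotProduct, zR]
  rw [h2, ← MvPolynomial.map_bind₁] at h1
  exact h1

lemma homog_sub {G : MvPolynomial (Fin d) ℤ} (hG : G.IsHomogeneous d)
    (γ : Matrix (Fin d) (Fin d) ℤ) : (sub G γ).IsHomogeneous d := by
  have h := hG.aeval (fun i => ∑ j : Fin d, MvPolynomial.C (γ i j) * MvPolynomial.X j)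
    (n := 1) (fun i => MvPolynomial.IsHomogeneous.sum _ _ _ fun j _ =>
      MvPolynomial.isHomogeneous_C_mul_X _ _)
  rw [one_mul] at h
  exact h

lemma cast_eval (G : MvPolynomial (Fin d) ℤ) (x : Fin d → ℤ) :
    ((MvPolynomial.eval x G : ℤ) : ℝ) =
      MvPolynomial.eval (iR x) (MvPolynomial.map (Int.castRingHom ℝ) G) := by
  exact MvPolynomial.map_eval (Int.castRingHom ℝ) x G

/-- the changed forms agree if they agree on a grid -/
lemma sub_eq_of_grid {G : MvPolynomial (Fin d) ℤ} (hG : G.IsHomogeneous d)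
    {γ γ' : Matrix (Fin d) (Fin d) ℤ}
    (h : ∀ x : Fin d → Fin (d + 1),
      MvPolynomial.eval (γ *ᵥ fun i => ((x i : ℕ) : ℤ)) G =
      MvPolynomial.eval (γ' *ᵥ fun i => ((x i : ℕ) : ℤ)) G) : sub G γ = sub G γ' := by
  classical
  rw [← sub_eq_zero]
  refine MvPolynomial.eq_zero_of_eval_zero_at_prod_finset _
    (fun _ => (Finset.range (d + 1)).image fun k : ℕ => (k : ℤ)) (fun i => ?_) (fun x hx => ?_)
  · rw [Finset.card_image_of_injective _ Nat.cast_injective, Finset.card_range]
    have h1 : ((sub G γ - sub G γ') : MvPolynomial (Fin d) ℤ).IsHomogeneous d :=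
      (homog_sub hG γ).sub (homog_sub hG γ')
    have h2 := MvPolynomial.degreeOf_le_totalDegree (sub G γ - sub G γ') i
    have h3 := h1.totalDegree_le
    omega
  · have h1 : ∀ i, ∃ k : Fin (d + 1), ((k : ℕ) : ℤ) = x i := by
      intro i
      obtain ⟨k, hk, hkx⟩ := Finset.mem_image.1 (hx i)
      exact ⟨⟨k, Finset.mem_range.1 hk⟩, hkx⟩
    choose y hy using h1
    have h2 : x = fun i => ((y i : ℕ) : ℤ) := by
      funext i
      exact (hy i).symm
    rw [map_sub, eval_sub, eval_sub, h2, h y, sub_self]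

end Pool.Agent.KS6_90
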