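import Mathlib
import Pool.Agent.KS6_90.Sup1

/-! # Products of linear forms which are close are close factor by factor -/

set_option autoImplicit false

open Matrix Finset H715R2 Pool.Agent.T6.H49.CSD

namespace Pool.Agent.KS6_90

variable {d : ℕ}

/-- `P = h' h⁻¹` is near the identity, and the products of the forms agree up to `t` on a bounded
set; then the entries of `P` off the diagonal are at most `3 t` -/
lemma matching {h h' : Matrix (Fin d) (Fin d) ℝ} (hh : h.det ≠ 0) {A Y t : ℝ}
    (hA : ∀ i j, |h⁻¹ i j| ≤ A) (hY : 4 * d * A ≤ Y)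
    (hdiag : ∀ k, 1 / 2 ≤ (h' * h⁻¹) k k) (hdiag2 : ∀ k, (h' * h⁻¹) k k ≤ 2)
    (hrow : ∀ k, ∑ l ∈ univ.erase k, |(h' * h⁻¹) k l| ≤ 1 / 2)
    (hF : ∀ x : Fin d → ℝ, (∀ j, |x j| ≤ Y) → |FF h x - FF h' x| ≤ t) {k m : Fin d}
    (hkm : k ≠ m) : |(h' * h⁻¹) k m| ≤ 3 * t := by
  classical
  have hu := isUnit_iff_ne_zero.2 hh
  set P : Matrix (Fin d) (Fin d) ℝ := h' * h⁻¹ with hP
  have hPh : P * h = h' := by
    rw [hP, Matrix.mul_assoc, Matrix.nonsing_inv_mul _ hu, Matrix.mul_one]
  have hPk : 0 < P k k := lt_of_lt_of_le (by norm_num) (hdiag k)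
  have hmem : m ∈ (univ.erase k : Finset (Fin d)) := Finset.mem_erase.2 ⟨hkm.symm, mem_univ m⟩
  set c : ℝ := ∑ l ∈ (univ.erase k).erase m, P k l with hc
  have hcm : |c| + |P k m| ≤ 1 / 2 := by
    have h1 := hrow k
    rw [← Finset.add_sum_erase _ _ hmem] at h1
    have h2 : |c| ≤ ∑ l ∈ (univ.erase k).erase m, |P k l| := Finset.abs_sum_le_sum_abs _ _
    linarith
  have key : ∀ s : ℝ, 1 ≤ s → s ≤ 2 → |c + P k m * s| * s ≤ t * P k k := by
    intro s hs1 hs2
    set y : Fin d → ℝ := fun n => if n = k then -(c + P k m * s) / P k k else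
      if n = m then s else 1 with hy
    have hyk : y k = -(c + P k m * s) / P k k := by simp [hy]
    have hym : y m = s := by simp [hy, hkm.symm]
    have hyo : ∀ n, n ≠ k → n ≠ m → y n = 1 := by
      intro n h1 h2
      simp [hy, h1, h2]
    have hnum : |c + P k m * s| ≤ 1 := by
      have h1 : |c + P k m * s| ≤ |c| + |P k m| * s := by
        refine (abs_add_le _ _).trans ?_
        rw [abs_mul, abs_of_pos (by linarith : 0 < s)]
      have h2 : |P k m| * s ≤ |P k m| * 2 := mul_le_mul_of_nonneg_left hs2 (abs_nonneg _)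
      have h3 := abs_nonneg c
      linarith
    have hyb : ∀ n, |y n| ≤ 4 := by
      intro n
      by_cases h1 : n = k
      · subst h1
        rw [hyk, abs_div, abs_neg, abs_of_pos hPk, div_le_iff₀ hPk]
        have := hdiag n
        linarith
      · by_cases h2 : n = m
        · subst h2
          rw [hym, abs_of_pos (by linarith)]
          linarith
        · rw [hyo n h1 h2]
          norm_num
    set x : Fin d → ℝ := h⁻¹ *ᵥ y with hx
    have hhx : h *ᵥ x = y := by
      rw [hx, mulVec_mulVec, Matrix.mul_nonsing_inv _ hu, one_mulVec]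
    have hxb : ∀ j, |x j| ≤ Y := by
      intro j
      refine le_trans ?_ hY
      rw [hx, mulVec, dotProduct]
      calc |∑ n, h⁻¹ j n * y n| ≤ ∑ n, |h⁻¹ j n * y n| := Finset.abs_sum_le_sum_abs _ _
        _ ≤ ∑ _n : Fin d, A * 4 := by
            refine Finset.sum_le_sum fun n _ => ?_
            rw [abs_mul]
            exact mul_le_mul (hA j n) (hyb n) (abs_nonneg _) ((abs_nonneg _).trans (hA j n))
        _ = _ := by
            rw [Finset.sum_const, Finset.card_univ, Fintype.card_fin, nsmul_eq_mul]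
            ring
    have h1 := hF x hxb
    have hF1 : FF h x = y k * s := by
      rw [FF_eq, hhx, ← Finset.mul_prod_erase _ _ (Finset.mem_univ k),
        ← Finset.mul_prod_erase _ _ hmem, hym]
      rw [Finset.prod_eq_one (s := (univ.erase k).erase m), mul_one]
      intro n hn
      have h2 := Finset.mem_erase.1 hn
      have h3 := Finset.mem_erase.1 h2.2
      exact hyo n h3.1 h2.1
    have hF2 : FF h' x = 0 := by
      rw [FF_eq, ← hPh, ← mulVec_mulVec, hhx]
      refine Finset.prod_eq_zero (Finset.mem_univ k) ?_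
      rw [mulVec, dotProduct, ← Finset.add_sum_erase _ _ (Finset.mem_univ k),
        ← Finset.add_sum_erase _ _ hmem, hym, hyk]
      have h2 : ∑ n ∈ (univ.erase k).erase m, P k n * y n = c := by
        rw [hc]
        refine Finset.sum_congr rfl fun n hn => ?_
        have h2 := Finset.mem_erase.1 hn
        have h3 := Finset.mem_erase.1 h2.2
        rw [hyo n h3.1 h2.1, mul_one]
      rw [h2]
      field_simp
      ring
    rw [hF1, hF2, sub_zero, abs_mul, hyk, abs_div, abs_neg, abs_of_pos hPk,
      abs_of_pos (by linarith : 0 < s), div_mul_eq_mul_div, div_le_iff₀ hPk] at h1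
    exact h1
  have hPk2 := hdiag2 k
  have k1 := key 1 le_rfl (by norm_num)
  have k2 := key 2 (by norm_num) le_rfl
  rw [mul_one, mul_one] at k1
  have ht0 : 0 ≤ t * P k k := (abs_nonneg _).trans k1
  have ht : 0 ≤ t := by
    by_contra hcon
    push Not at hcon
    have := mul_neg_of_neg_of_pos hcon hPk
    linarith
  have h3 : |P k m| ≤ 3 / 2 * (t * P k k) := by
    have h4 : P k m = (c + P k m * 2) - (c + P k m) := by ring
    rw [h4]
    refine (abs_sub _ _).trans ?_
    linarith
  have h5 : t * P k k ≤ t * 2 := mul_le_mul_of_nonneg_left hPk2 ht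
  linarith

end Pool.Agent.KS6_90
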