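import Mathlib
import Pool.Agent.KS6_90.Sup2

/-! # A counterexample is not super-Liouville: the colouring -/

set_option autoImplicit false

open Matrix Finset H715R2 Pool.Agent.T6.H49.CSD

namespace Pool.Agent.KS6_90

variable {d : ℕ}

lemma inv_bound {V R : ℝ} (hV : 0 < V) : ∃ A : ℝ, ∀ h : Matrix (Fin d) (Fin d) ℝ, |h.det| = V →
    (∀ i j, |h i j| ≤ R) → ∀ i j, |h⁻¹ i j| ≤ A := by
  obtain ⟨R2, _, hR2⟩ := exists_inv_bound (V := V)
    (𝒦 := {h : Matrix (Fin d) (Fin d) ℝ | ∀ i j, |h i j| ≤ R} ∩ {h | |h.det| = V})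
    ((isCompact_box R).inter_right
      (isClosed_eq (continuous_abs.comp continuous_det') continuous_const)) (fun h hh => hh.2)
  refine ⟨R2, fun h h1 h2 i j => ?_⟩
  refine le_trans ?_ (hR2 h ⟨h2, h1⟩)
  unfold nrm
  exact le_trans (Finset.single_le_sum (f := fun j => |h⁻¹ i j|)
    (fun _ _ => abs_nonneg _) (Finset.mem_univ j)) (Finset.single_le_sum
    (f := fun i => ∑ j, |h⁻¹ i j|) (fun _ _ => Finset.sum_nonneg fun _ _ => abs_nonneg _)
    (Finset.mem_univ i))

lemma mul_entry_le {A B : Matrix (Fin d) (Fin d) ℝ} {a b : ℝ} (hA : ∀ i j, |A i j| ≤ a)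
    (hB : ∀ i j, |B i j| ≤ b) (i j : Fin d) : |(A * B) i j| ≤ d * (a * b) := by
  rw [Matrix.mul_apply]
  calc |∑ k, A i k * B k j| ≤ ∑ k, |A i k * B k j| := Finset.abs_sum_le_sum_abs _ _
    _ ≤ ∑ _k : Fin d, a * b := by
        refine Finset.sum_le_sum fun k _ => ?_
        rw [abs_mul]
        exact mul_le_mul (hA i k) (hB k j) (abs_nonneg _) ((abs_nonneg _).trans (hA i k))
    _ = _ := by rw [Finset.sum_const, Finset.card_univ, Fintype.card_fin, nsmul_eq_mul]

lemma mulVec_entry_le {A : Matrix (Fin d) (Fin d) ℝ} {x : Fin d → ℝ} {a b : ℝ}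
    (hA : ∀ i j, |A i j| ≤ a) (hx : ∀ i, |x i| ≤ b) (i : Fin d) :
    |(A *ᵥ x) i| ≤ d * (a * b) := by
  rw [Matrix.mulVec, dotProduct]
  calc |∑ k, A i k * x k| ≤ ∑ k, |A i k * x k| := Finset.abs_sum_le_sum_abs _ _
    _ ≤ ∑ _k : Fin d, a * b := by
        refine Finset.sum_le_sum fun k _ => ?_
        rw [abs_mul]
        exact mul_le_mul (hA i k) (hx k) (abs_nonneg _) ((abs_nonneg _).trans (hA i k))
    _ = _ := by rw [Finset.sum_const, Finset.card_univ, Fintype.card_fin, nsmul_eq_mul]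

/-- from the closeness of the products to closeness in the orbit -/
lemma close_of_products {g : Matrix (Fin d) (Fin d) ℝ} (hd : 0 < d) (hg : g.det ≠ 0)
    {a a' : Fin d → ℝ} (ha0 : ∀ i, 0 < a' i)
    {γ γ' : Matrix (Fin d) (Fin d) ℤ} (hγ : IsUnit γ.det) (hγ' : IsUnit γ'.det) {A t : ℝ}
    (hA1 : 1 ≤ A) (hA : ∀ i j, |(diagonal a' * g * zR γ')⁻¹ i j| ≤ A)
    (hbox : ∀ i j, |(diagonal a * g * zR γ) i j - (diagonal a' * g * zR γ') i j| ≤
      1 / (2 * d ^ 2 * A))
    (hF : ∀ x : Fin d → ℝ, (∀ j, |x j| ≤ 4 * d * A) →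
      |FF (diagonal a' * g * zR γ') x - FF (diagonal a * g * zR γ) x| ≤ t) :
    Close 2 (6 * t) (diagonal a * g) (diagonal a' * g) := by
  classical
  have hd1 : (1 : ℝ) ≤ d := by exact_mod_cast hd
  set h' : Matrix (Fin d) (Fin d) ℝ := diagonal a * g * zR γ with hh'
  set h : Matrix (Fin d) (Fin d) ℝ := diagonal a' * g * zR γ' with hh
  have hdet : h.det ≠ 0 := by
    rw [hh, Matrix.det_mul, Matrix.det_mul, Matrix.det_diagonal, det_zR]
    refine mul_ne_zero (mul_ne_zero (Finset.prod_ne_zero_iff.2 fun i _ => (ha0 i).ne') hg) ?_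
    intro h0
    have h1 := abs_det_of_isUnit hγ'
    rw [h0, abs_zero] at h1
    exact zero_ne_one h1
  have hu := isUnit_iff_ne_zero.2 hdet
  set P : Matrix (Fin d) (Fin d) ℝ := h' * h⁻¹ with hP
  have hP1 : P - 1 = (h' - h) * h⁻¹ := by
    rw [Matrix.sub_mul, ← hP, Matrix.mul_nonsing_inv _ hu]
  have hPe : ∀ i j, |(P - 1) i j| ≤ 1 / (2 * d) := by
    intro i j
    rw [hP1]
    refine (mul_entry_le (fun i j => by rw [Matrix.sub_apply]; exact hbox i j) hA i j).trans ?_
    apply le_of_eq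
    field_simp
  have h2d : 1 / (2 * (d : ℝ)) ≤ 1 / 2 := by
    apply one_div_le_one_div_of_le (by norm_num)
    linarith
  have hdg : ∀ k, |P k k - 1| ≤ 1 / 2 := by
    intro k
    have h1 := hPe k k
    rw [Matrix.sub_apply, Matrix.one_apply_eq] at h1
    exact h1.trans h2d
  have hdiag : ∀ k, 1 / 2 ≤ P k k := fun k => by
    have := abs_le.1 (hdg k)
    linarith
  have hdiag2 : ∀ k, P k k ≤ 2 := fun k => by
    have := abs_le.1 (hdg k)
    linarith
  have hrow : ∀ k, ∑ l ∈ univ.erase k, |P k l| ≤ 1 / 2 := by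
    intro k
    calc ∑ l ∈ univ.erase k, |P k l| ≤ ∑ _l ∈ univ.erase k, 1 / (2 * (d : ℝ)) := by
          refine Finset.sum_le_sum fun l hl => ?_
          have h1 := hPe k l
          rw [Matrix.sub_apply, Matrix.one_apply_ne (Finset.ne_of_mem_erase hl).symm,
            sub_zero] at h1
          exact h1
      _ ≤ ∑ _l : Fin d, 1 / (2 * (d : ℝ)) :=
          Finset.sum_le_sum_of_subset_of_nonneg (Finset.subset_univ _) fun _ _ _ => by positivity
      _ = 1 / 2 := by
          rw [Finset.sum_const, Finset.card_univ, Fintype.card_fin, nsmul_eq_mul]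
          field_simp
  have hoff : ∀ k m, k ≠ m → |P k m| ≤ 3 * t := fun k m hkm =>
    matching hdet hA (le_refl (4 * d * A)) hdiag hdiag2 hrow hF hkm
  have hPh : P * h = h' := by
    rw [hP, Matrix.mul_assoc, Matrix.nonsing_inv_mul _ hu, Matrix.mul_one]
  have ht : 0 ≤ t := by
    have h1 := hF 0 (fun j => by
      rw [Pi.zero_apply, abs_zero]
      positivity)
    exact (abs_nonneg _).trans h1
  refine ⟨fun k => P k k, Matrix.of fun k m => if k = m then 0 else P k m / P k k, γ' * γ⁻¹,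
    fun k => ⟨hdiag k, hdiag2 k⟩, fun k m => ?_, ?_, ?_⟩
  · rw [Matrix.of_apply]
    split_ifs with hkm
    · rw [abs_zero]
      positivity
    · have h1 := hdiag k
      rw [abs_div, abs_of_pos (by linarith : 0 < P k k), div_le_iff₀ (by linarith)]
      have h2 := hoff k m hkm
      nlinarith
  · rw [Matrix.det_mul, abs_mul]
    have h1 := Int.isUnit_iff_abs_eq.1 hγ'
    have h2 := Int.isUnit_iff_abs_eq.1 (Matrix.isUnit_nonsing_inv_det _ hγ)
    rw [h1, h2, mul_one]
  · have h1 : diagonal (fun k => P k k) *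
        (1 + Matrix.of fun k m => if k = m then 0 else P k m / P k k) = P := by
      ext k m
      rw [Matrix.diagonal_mul, Matrix.add_apply, Matrix.of_apply]
      by_cases hkm : k = m
      · subst hkm
        simp
      · rw [Matrix.one_apply_ne hkm, if_neg hkm, zero_add]
        have h1 := hdiag k
        exact mul_div_cancel₀ _ (by linarith)
    rw [h1]
    calc diagonal a * g = h' * zR γ⁻¹ := by
          rw [hh', Matrix.mul_assoc, zR_inv hγ, Matrix.mul_one]
      _ = P * h * zR γ⁻¹ := by rw [hPh]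
      _ = _ := by
          rw [hh, zR_mul]
          simp only [Matrix.mul_assoc]

end Pool.Agent.KS6_90
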