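import Mathlib
import Pool.Agent.KS6_90.Sup3

/-! # A counterexample is not super-Liouville -/

set_option autoImplicit false

open Matrix Finset H715R2 Pool.Agent.T6.H49.CSD

namespace Pool.Agent.KS6_90

variable {d : ℕ}

lemma prod_diff {ι : Type*} (s : Finset ι) (a b : ι → ℝ) {M δ : ℝ} (hM : 1 ≤ M)
    (hδ : 0 ≤ δ) (ha : ∀ i, |a i| ≤ M) (hb : ∀ i, |b i| ≤ M) (hab : ∀ i, |a i - b i| ≤ δ) :
    |∏ i ∈ s, a i - ∏ i ∈ s, b i| ≤ s.card * (δ * M ^ s.card) := by
  classical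
  induction s using Finset.induction_on with
  | empty => simp
  | insert i s hi ih =>
    rw [Finset.prod_insert hi, Finset.prod_insert hi, Finset.card_insert_of_notMem hi]
    have h1 : a i * ∏ j ∈ s, a j - b i * ∏ j ∈ s, b j =
        a i * (∏ j ∈ s, a j - ∏ j ∈ s, b j) + (a i - b i) * ∏ j ∈ s, b j := by ring
    have h2 : |∏ j ∈ s, b j| ≤ M ^ s.card := by
      rw [Finset.abs_prod]
      calc ∏ j ∈ s, |b j| ≤ ∏ _j ∈ s, M :=
            Finset.prod_le_prod (fun _ _ => abs_nonneg _) fun j _ => hb j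
        _ = _ := by rw [Finset.prod_const]
    have hM0 : 0 ≤ M := by linarith
    rw [h1]
    refine (abs_add_le _ _).trans ?_
    rw [abs_mul, abs_mul]
    have h3 : |a i| * |∏ j ∈ s, a j - ∏ j ∈ s, b j| ≤ M * (s.card * (δ * M ^ s.card)) :=
      mul_le_mul (ha i) ih (abs_nonneg _) hM0
    have h4 : |a i - b i| * |∏ j ∈ s, b j| ≤ δ * M ^ s.card :=
      mul_le_mul (hab i) h2 (abs_nonneg _) hδ
    have h5 : δ * M ^ s.card ≤ δ * M ^ (s.card + 1) :=
      mul_le_mul_of_nonneg_left (pow_le_pow_right₀ hM (Nat.le_succ _)) hδ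
    have h6 : M * (s.card * (δ * M ^ s.card)) = s.card * (δ * M ^ (s.card + 1)) := by
      rw [pow_succ]; ring
    push_cast
    rw [h6] at h3
    linarith

lemma FF_diff {h h' : Matrix (Fin d) (Fin d) ℝ} {R X s : ℝ} (hM : 1 ≤ d * (R * X)) (hs : 0 ≤ s)
    (hX : 0 ≤ X)
    (hh : ∀ i j, |h i j| ≤ R) (hh' : ∀ i j, |h' i j| ≤ R) (hd : ∀ i j, |h i j - h' i j| ≤ s)
    {x : Fin d → ℝ} (hx : ∀ i, |x i| ≤ X) :
    |FF h x - FF h' x| ≤ d * ((d * (s * X)) * (d * (R * X)) ^ d) := by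
  have h1 := prod_diff (Finset.univ : Finset (Fin d)) (fun i => (h *ᵥ x) i)
    (fun i => (h' *ᵥ x) i) (M := d * (R * X)) (δ := d * (s * X)) hM (by positivity)
    (mulVec_entry_le hh hx) (mulVec_entry_le hh' hx) (fun i => by
      have h2 : (h *ᵥ x) i - (h' *ᵥ x) i = ((h - h') *ᵥ x) i := by
        rw [Matrix.sub_mulVec, Pi.sub_apply]
      rw [h2]
      exact mulVec_entry_le (fun i j => by rw [Matrix.sub_apply]; exact hd i j) hx i)
  rw [Finset.card_univ, Fintype.card_fin] at h1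
  exact h1

/-- the colouring by small boxes -/
lemma super_aux (hd : 0 < d) {g : Matrix (Fin d) (Fin d) ℝ} (hg : g.det ≠ 0)
    {R A Ag N e s r ε : ℝ} (hR : 1 ≤ R) (hA : 1 ≤ A) (hAg1 : 1 ≤ Ag)
    (hAg : ∀ i j, |g⁻¹ i j| ≤ Ag)
    (hN : 1 ≤ N) (he1 : e < 1) (hs0 : 0 < s) (hs1 : s ≤ 1 / (2 * d ^ 2 * A))
    (hs2 : N * (d * ((d * (s * d)) * (d * (R * d)) ^ d)) ≤ 1 / 4)
    (hred : ∀ a : Fin d → ℝ, (∀ i, 0 < a i) → ∏ i, a i = 1 →
      ∃ γ : Matrix (Fin d) (Fin d) ℤ, IsUnit γ.det ∧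
        (∀ i j, |(diagonal a * g * zR γ) i j| ≤ R) ∧
        (∀ i j, |(diagonal a * g * zR γ)⁻¹ i j| ≤ A))
    {G : MvPolynomial (Fin d) ℤ}
    (hG : ∀ m, |N * MvPolynomial.coeff m (polyF g) - (MvPolynomial.coeff m G : ℤ)| ≤ e)
    (hε : 12 * (((d : ℝ) + 1) ^ d *
      (e * (d * (d * (Ag * (Real.exp r * R)) * (4 * d * A))) ^ d)) ≤ ε)
    (hε1 : ε ≤ 1) :
    ∃ col : (Fin d → ℝ) → Fin ((⌊2 * R / s⌋₊ + 1) ^ (d * d)),
      ∀ a a' : Fin d → ℝ, (∀ i, 0 < a i) → ∏ i, a i = 1 → (∀ i, |Real.log (a i)| ≤ r) →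
        (∀ i, 0 < a' i) → ∏ i, a' i = 1 → (∀ i, |Real.log (a' i)| ≤ r) → col a = col a' →
        Close 2 ε (diagonal a * g) (diagonal a' * g) := by
  classical
  have hd1 : (1 : ℝ) ≤ d := by exact_mod_cast hd
  have hGh := homog_of_near he1 hG
  have he0 : 0 ≤ e := (abs_nonneg _).trans (hG 0)
  set Y : ℝ := d * (d * (Ag * (Real.exp r * R)) * (4 * d * A)) with hY
  set e' : ℝ := ((d : ℝ) + 1) ^ d * (e * Y ^ d) with he'
  have hY0 : 0 ≤ Y := by positivity
  have he'0 : 0 ≤ e' := by positivity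
  have hu := isUnit_iff_ne_zero.2 hg
  choose! γ hγu hγR hγA using hred
  set M : ℕ := ⌊2 * R / s⌋₊ + 1 with hM
  set box : (Fin d → ℝ) → (Fin d → Fin d → Fin M) := fun a i j =>
    ⟨min ⌊((diagonal a * g * zR (γ a)) i j + R) / s⌋₊ (M - 1), by
      have h1 : 0 < M := Nat.succ_pos _
      omega⟩ with hbox
  have hcard : Fintype.card (Fin d → Fin d → Fin M) = M ^ (d * d) := by
    rw [Fintype.card_fun, Fintype.card_fun, Fintype.card_fin, Fintype.card_fin, ← pow_mul]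
  refine ⟨fun a => Fintype.equivFinOfCardEq hcard (box a), ?_⟩
  intro a a' ha0 ha1 har ha0' ha1' har' hcol
  have hb := (Fintype.equivFinOfCardEq hcard).injective hcol
  -- the reduced matrices are close
  have hclose : ∀ i j, |(diagonal a * g * zR (γ a)) i j - (diagonal a' * g * zR (γ a')) i j| ≤
      s := by
    intro i j
    have h1 := congrArg Fin.val (congrFun (congrFun hb i) j)
    simp only [hbox] at h1
    have key : ∀ b : Fin d → ℝ, (∀ i, 0 < b i) → ∏ i, b i = 1 →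
        0 ≤ (diagonal b * g * zR (γ b)) i j + R ∧
        ⌊((diagonal b * g * zR (γ b)) i j + R) / s⌋₊ ≤ M - 1 := by
      intro b hb0 hb1
      have h2 := abs_le.1 (hγR b hb0 hb1 i j)
      refine ⟨by linarith, ?_⟩
      rw [hM, Nat.add_sub_cancel]
      apply Nat.floor_le_floor
      apply div_le_div_of_nonneg_right _ hs0.le
      linarith
    obtain ⟨k1, k2⟩ := key a ha0 ha1
    obtain ⟨k3, k4⟩ := key a' ha0' ha1'
    rw [min_eq_left k2, min_eq_left k4] at h1
    have h2 := floor_close hs0 k1 k3 h1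
    have h3 : (diagonal a * g * zR (γ a)) i j + R - ((diagonal a' * g * zR (γ a')) i j + R) =
        (diagonal a * g * zR (γ a)) i j - (diagonal a' * g * zR (γ a')) i j := by ring
    rw [h3] at h2
    exact h2
  -- the values of the form
  have hFF : ∀ b : Fin d → ℝ, ∏ i, b i = 1 → ∀ x : Fin d → ℝ,
      FF (diagonal b * g * zR (γ b)) x = FF g (zR (γ b) *ᵥ x) := by
    intro b hb1 x
    rw [Matrix.mul_assoc, FF_diag_mul, hb1, one_mul, FF_mul]
  -- size of the points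
  have hsize : ∀ b : Fin d → ℝ, (∀ i, 0 < b i) → ∏ i, b i = 1 → (∀ i, |Real.log (b i)| ≤ r) →
      ∀ x : Fin d → ℝ, (∀ j, |x j| ≤ 4 * d * A) → ∀ i, |(zR (γ b) *ᵥ x) i| ≤ Y := by
    intro b hb0 hb1 hbr x hx i
    have h1 : zR (γ b) = g⁻¹ * (diagonal (fun i => (b i)⁻¹) * (diagonal b * g * zR (γ b))) := by
      have h2 : diagonal (fun i => (b i)⁻¹) * diagonal b = 1 := by
        rw [diagonal_mul_diagonal, ← diagonal_one]
        congr 1
        funext i
        exact inv_mul_cancel₀ (hb0 i).ne'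
      calc zR (γ b) = (g⁻¹ * g) * zR (γ b) := by
            rw [Matrix.nonsing_inv_mul _ hu, Matrix.one_mul]
        _ = g⁻¹ * ((diagonal (fun i => (b i)⁻¹) * diagonal b) * g * zR (γ b)) := by
            rw [h2, Matrix.one_mul, Matrix.mul_assoc]
        _ = _ := by simp only [Matrix.mul_assoc]
    have h3 : ∀ i j, |(diagonal (fun i => (b i)⁻¹) * (diagonal b * g * zR (γ b))) i j| ≤
        Real.exp r * R := by
      intro i j
      rw [Matrix.diagonal_mul, abs_mul, abs_of_pos (inv_pos.2 (hb0 i))]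
      refine mul_le_mul ?_ (hγR b hb0 hb1 i j) (abs_nonneg _) (Real.exp_pos _).le
      have h4 := (abs_le.1 (hbr i)).1
      calc (b i)⁻¹ = Real.exp (-Real.log (b i)) := by rw [Real.exp_neg, Real.exp_log (hb0 i)]
        _ ≤ Real.exp r := Real.exp_le_exp.2 (by linarith)
    have h5 : ∀ i j, |zR (γ b) i j| ≤ d * (Ag * (Real.exp r * R)) := by
      intro i j
      rw [h1]
      exact mul_entry_le hAg h3 i j
    exact mulVec_entry_le h5 hx i
  have hnear : ∀ b : Fin d → ℝ, (∀ i, 0 < b i) → ∏ i, b i = 1 → (∀ i, |Real.log (b i)| ≤ r) →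
      ∀ x : Fin d → ℝ, (∀ j, |x j| ≤ 4 * d * A) →
      |N * FF (diagonal b * g * zR (γ b)) x -
        MvPolynomial.eval (zR (γ b) *ᵥ x) (MvPolynomial.map (Int.castRingHom ℝ) G)| ≤ e' := by
    intro b hb0 hb1 hbr x hx
    rw [hFF b hb1]
    exact eval_near he1 hG (hsize b hb0 hb1 hbr x hx)
  -- the forms agree on the grid
  have hgrid : ∀ x : Fin d → Fin (d + 1),
      MvPolynomial.eval (γ a *ᵥ fun i => ((x i : ℕ) : ℤ)) G =
      MvPolynomial.eval (γ a' *ᵥ fun i => ((x i : ℕ) : ℤ)) G := by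
    intro x
    set xi : Fin d → ℤ := fun i => ((x i : ℕ) : ℤ) with hxi
    have hxd : ∀ j, |iR xi j| ≤ (d : ℝ) := by
      intro j
      have h1 : iR xi j = ((x j : ℕ) : ℝ) := by
        show ((((x j : ℕ) : ℤ)) : ℝ) = _
        push_cast
        rfl
      rw [h1, abs_of_nonneg (Nat.cast_nonneg _)]
      exact_mod_cast Nat.lt_succ_iff.1 (x j).2
    have hxd' : ∀ j, |iR xi j| ≤ 4 * d * A := fun j => (hxd j).trans (by nlinarith)
    have hMM : 1 ≤ (d : ℝ) * (R * d) := by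
      have : 1 ≤ R * d := by nlinarith
      nlinarith
    have h1 := FF_diff hMM hs0.le (by linarith : (0 : ℝ) ≤ d) (hγR a ha0 ha1) (hγR a' ha0' ha1')
      hclose hxd
    have h2 := hnear a ha0 ha1 har (iR xi) hxd'
    have h3 := hnear a' ha0' ha1' har' (iR xi) hxd'
    have h4 : |(MvPolynomial.eval (γ a *ᵥ xi) G : ℝ) - (MvPolynomial.eval (γ a' *ᵥ xi) G : ℝ)| <
        1 := by
      rw [cast_eval, cast_eval, ← zR_mulVec_iR, ← zR_mulVec_iR]
      have h5 : |N * FF (diagonal a * g * zR (γ a)) (iR xi) -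
          N * FF (diagonal a' * g * zR (γ a')) (iR xi)| ≤ 1 / 4 := by
        rw [← mul_sub, abs_mul, abs_of_nonneg (by linarith : 0 ≤ N)]
        exact (mul_le_mul_of_nonneg_left h1 (by linarith)).trans hs2
      have h6 := abs_le.1 h5
      have h7 := abs_le.1 h2
      have h8 := abs_le.1 h3
      have h9 : 2 * e' < 3 / 4 := by linarith
      rw [abs_lt]
      constructor <;> linarith
    have h5 : |MvPolynomial.eval (γ a *ᵥ xi) G - MvPolynomial.eval (γ a' *ᵥ xi) G| < 1 := by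
      exact_mod_cast h4
    exact sub_eq_zero.1 (Int.abs_lt_one_iff.1 h5)
  have hsub := sub_eq_of_grid hGh hgrid
  have hprod : ∀ x : Fin d → ℝ, (∀ j, |x j| ≤ 4 * d * A) →
      |FF (diagonal a' * g * zR (γ a')) x - FF (diagonal a * g * zR (γ a)) x| ≤ 2 * e' := by
    intro x hx
    have h2 := hnear a ha0 ha1 har x hx
    have h3 := hnear a' ha0' ha1' har' x hx
    have h4 : MvPolynomial.eval (zR (γ a) *ᵥ x) (MvPolynomial.map (Int.castRingHom ℝ) G) =
        MvPolynomial.eval (zR (γ a') *ᵥ x) (MvPolynomial.map (Int.castRingHom ℝ) G) := by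
      rw [← eval_map_sub, ← eval_map_sub, hsub]
    rw [h4] at h2
    have h5 : |N * FF (diagonal a' * g * zR (γ a')) x - N * FF (diagonal a * g * zR (γ a)) x| ≤
        2 * e' := by
      have h7 := abs_le.1 h2
      have h8 := abs_le.1 h3
      rw [abs_le]
      constructor <;> linarith
    rw [← mul_sub, abs_mul, abs_of_nonneg (by linarith : 0 ≤ N)] at h5
    have h6 := abs_nonneg (FF (diagonal a' * g * zR (γ a')) x - FF (diagonal a * g * zR (γ a)) x)
    nlinarith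
  have hfin := close_of_products hd hg ha0' (hγu a ha0 ha1) (hγu a' ha0' ha1') hA
    (hγA a' ha0' ha1') (fun i j => (hclose i j).trans hs1) hprod
  exact close_mono' (by linarith) hfin

end Pool.Agent.KS6_90
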