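import Mathlib
import Pool.Agent.KS6_90.Sup4

/-! # A counterexample is not super-Liouville: the theorem -/

set_option autoImplicit false

open Matrix Finset H715R2 Pool.Agent.T6.H49.CSD

namespace Pool.Agent.KS6_90

variable {d : ℕ}

lemma final_num {C₀ C₃ D₀ P r : ℝ} {d : ℕ} (hC₀ : 1 ≤ C₀) (hC₃ : 1 ≤ C₃) (hD₀ : 1 ≤ D₀)
    (hP : 1 ≤ P) (hr : r ≤ C₀ * C₃ * P) (hr0 : 0 ≤ r) :
    D₀ * Real.exp (d * r) * Real.exp (-Real.exp ((C₀ * C₃ +
      Real.log (Real.log D₀ + d + 1)) * P)) ≤ Real.exp (-Real.exp r) := by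
  have hlog0 : 0 ≤ Real.log D₀ := Real.log_nonneg hD₀
  have hd0 : (0 : ℝ) ≤ d := Nat.cast_nonneg _
  have hb : 1 ≤ Real.log D₀ + d + 1 := by linarith
  have hlog1 : 0 ≤ Real.log (Real.log D₀ + d + 1) := Real.log_nonneg hb
  have hD : D₀ = Real.exp (Real.log D₀) := (Real.exp_log (by linarith)).symm
  have h0 : D₀ * Real.exp (d * r) * Real.exp (-Real.exp ((C₀ * C₃ +
      Real.log (Real.log D₀ + d + 1)) * P)) = Real.exp (Real.log D₀ + d * r +
      -Real.exp ((C₀ * C₃ + Real.log (Real.log D₀ + d + 1)) * P)) := by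
    rw [Real.exp_add, Real.exp_add, ← hD]
  rw [h0]
  apply Real.exp_le_exp.2
  set X : ℝ := C₀ * C₃ * P with hX
  have hX0 : 0 ≤ X := by positivity
  have h1 : (Real.log D₀ + d + 1) * Real.exp X ≤
      Real.exp ((C₀ * C₃ + Real.log (Real.log D₀ + d + 1)) * P) := by
    have h2 : (C₀ * C₃ + Real.log (Real.log D₀ + d + 1)) * P =
        Real.log (Real.log D₀ + d + 1) * P + X := by rw [hX]; ring
    rw [h2, Real.exp_add]
    refine mul_le_mul_of_nonneg_right ?_ (Real.exp_pos _).le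
    calc Real.log D₀ + d + 1 = Real.exp (Real.log (Real.log D₀ + d + 1)) :=
          (Real.exp_log (by linarith)).symm
      _ ≤ _ := Real.exp_le_exp.2 (by nlinarith)
  have h2 : 1 ≤ Real.exp X := Real.one_le_exp hX0
  have h3 : X ≤ Real.exp X := by
    have := Real.add_one_le_exp X
    linarith
  have h4 : Real.exp r ≤ Real.exp X := Real.exp_le_exp.2 hr
  have h5 : Real.log D₀ ≤ Real.log D₀ * Real.exp X := by nlinarith
  have h6 : d * r ≤ d * Real.exp X := mul_le_mul_of_nonneg_left (hr.trans h3) hd0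
  linarith

theorem isolation (hd : 3 ≤ d) {V ν R₀ : ℝ} (hV : 0 < V) (hν : 0 < ν) :
    ∃ C : ℝ, 0 < C ∧ ∀ g : Matrix (Fin d) (Fin d) ℝ, |g.det| = V → (∀ i j, |g i j| ≤ R₀) →
      HasNu g ν → ¬ PropInt g → ∀ N : ℝ, 1 ≤ N → ∀ G : MvPolynomial (Fin d) ℤ,
      ∃ m : Fin d →₀ ℕ, Real.exp (-Real.exp (C * N ^ (d * d))) ≤
        |N * MvPolynomial.coeff m (polyF g) - (MvPolynomial.coeff m G : ℤ)| := by
  classical
  have hd0 : 0 < d := by omega
  have hd1 : (1 : ℝ) ≤ d := by exact_mod_cast hd0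
  obtain ⟨C₀, hC₀, hloc⟩ := local_complexity hd hV hν (K := 2) (by norm_num)
  obtain ⟨R', hR'⟩ := exists_bound hd0 V ν hV hν
  set R : ℝ := max R' 1 with hR
  have hR1 : 1 ≤ R := le_max_right _ _
  obtain ⟨A', hA'⟩ := inv_bound (d := d) hV (R := R)
  set A : ℝ := max A' 1 with hA
  have hA1 : 1 ≤ A := le_max_right _ _
  obtain ⟨Ag', hAg'⟩ := inv_bound (d := d) hV (R := R₀)
  set Ag : ℝ := max Ag' 1 with hAg
  have hAg1 : 1 ≤ Ag := le_max_right _ _
  obtain ⟨T, hT⟩ : ∃ T : ℝ, T = d * ((d * d) * (d * (R * d)) ^ d) := ⟨_, rfl⟩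
  have hT0 : 0 < T := by rw [hT]; positivity
  obtain ⟨sm, hsm⟩ : ∃ sm : ℝ, sm = min (1 / (2 * (d : ℝ) ^ 2 * A)) (1 / (4 * T)) := ⟨_, rfl⟩
  have hsm0 : 0 < sm := by
    rw [hsm]
    exact lt_min (by positivity) (by positivity)
  have hsm1 : sm ≤ 1 / (2 * (d : ℝ) ^ 2 * A) := by rw [hsm]; exact min_le_left _ _
  have hsm2 : sm * T ≤ 1 / 4 := by
    have h1 : sm ≤ 1 / (4 * T) := by rw [hsm]; exact min_le_right _ _
    calc sm * T ≤ 1 / (4 * T) * T := mul_le_mul_of_nonneg_right h1 hT0.le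
      _ = 1 / 4 := by field_simp
  obtain ⟨C₃, hC₃⟩ : ∃ C₃ : ℝ, C₃ = (2 * R / sm + 1) ^ (d * d) := ⟨_, rfl⟩
  have hC₃1 : 1 ≤ C₃ := by
    rw [hC₃]
    apply one_le_pow₀
    have : 0 ≤ 2 * R / sm := by positivity
    linarith
  obtain ⟨c₄, hc₄⟩ : ∃ c₄ : ℝ, c₄ = d * (d * (Ag * R) * (4 * d * A)) := ⟨_, rfl⟩
  have hc₄1 : 1 ≤ c₄ := by
    rw [hc₄]
    have h1 : 1 ≤ Ag * R := by nlinarith
    have h2 : 1 ≤ (d : ℝ) * (Ag * R) := by nlinarith
    have h3 : 1 ≤ (d : ℝ) * A := by nlinarith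
    have h4 : 1 ≤ 4 * (d : ℝ) * A := by nlinarith
    have h5 : 1 ≤ d * (Ag * R) * (4 * d * A) := by nlinarith
    nlinarith
  obtain ⟨D₀, hD₀⟩ : ∃ D₀ : ℝ, D₀ = 12 * (((d : ℝ) + 1) ^ d * c₄ ^ d) := ⟨_, rfl⟩
  have hD₀1 : 1 ≤ D₀ := by
    rw [hD₀]
    have h1 : (1 : ℝ) ≤ ((d : ℝ) + 1) ^ d := one_le_pow₀ (by linarith)
    have h2 : (1 : ℝ) ≤ c₄ ^ d := one_le_pow₀ hc₄1
    nlinarith
  have hlog0 : 0 ≤ Real.log D₀ := Real.log_nonneg hD₀1
  have hlog1 : 0 ≤ Real.log (Real.log D₀ + d + 1) := Real.log_nonneg (by linarith)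
  refine ⟨C₀ * C₃ + Real.log (Real.log D₀ + d + 1), by positivity, ?_⟩
  intro g hdet hgR hnu hint N hN G
  by_contra hcon
  push Not at hcon
  have hg : g.det ≠ 0 := by
    intro h0
    rw [h0, abs_zero] at hdet
    exact hV.ne hdet
  have hN0 : 0 < N := by linarith
  obtain ⟨s, hs⟩ : ∃ s : ℝ, s = sm / N := ⟨_, rfl⟩
  have hs0 : 0 < s := by rw [hs]; positivity
  have hssm : s ≤ sm := by
    rw [hs]
    exact div_le_self hsm0.le hN
  have hNs : N * s = sm := by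
    rw [hs]
    field_simp
  obtain ⟨n, hn⟩ : ∃ n : ℕ, n = (⌊2 * R / s⌋₊ + 1) ^ (d * d) := ⟨_, rfl⟩
  have hn1 : 1 ≤ n := by
    rw [hn]
    exact Nat.one_le_pow _ _ (Nat.succ_pos _)
  have hP1 : 1 ≤ N ^ (d * d) := one_le_pow₀ hN
  have hnC : (n : ℝ) ≤ C₃ * N ^ (d * d) := by
    rw [hn, hC₃, ← mul_pow]
    push_cast
    refine pow_le_pow_left₀ (by positivity) ?_ _
    have h1 : (⌊2 * R / s⌋₊ : ℝ) ≤ 2 * R / s := Nat.floor_le (by positivity)
    have h2 : 2 * R / s = 2 * R / sm * N := by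
      rw [hs]
      field_simp
    have h4 := h1.trans_eq h2
    have h3 : (2 * R / sm + 1) * N = 2 * R / sm * N + N := by ring
    rw [h3]
    linarith
  have hr0 : 0 ≤ C₀ * (n : ℝ) := by positivity
  have hr : C₀ * (n : ℝ) ≤ C₀ * C₃ * N ^ (d * d) := by
    rw [mul_assoc]
    exact mul_le_mul_of_nonneg_left hnC (by linarith)
  have hfin := final_num (d := d) hC₀ hC₃1 hD₀1 hP1 hr hr0
  set e : ℝ := Real.exp (-Real.exp ((C₀ * C₃ + Real.log (Real.log D₀ + d + 1)) *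
    N ^ (d * d))) with he
  have he1 : e < 1 := by
    have h1 := Real.exp_pos ((C₀ * C₃ + Real.log (Real.log D₀ + d + 1)) * N ^ (d * d))
    have h2 : Real.exp (-Real.exp ((C₀ * C₃ + Real.log (Real.log D₀ + d + 1)) *
      N ^ (d * d))) < Real.exp 0 := Real.exp_lt_exp.2 (by linarith)
    rwa [Real.exp_zero] at h2
  have hYeq : 12 * (((d : ℝ) + 1) ^ d *
      (e * (d * (d * (Ag * (Real.exp (C₀ * n) * R)) * (4 * d * A))) ^ d)) =
      D₀ * Real.exp (d * (C₀ * n)) * e := by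
    have h1 : (d : ℝ) * (d * (Ag * (Real.exp (C₀ * n) * R)) * (4 * d * A)) =
        c₄ * Real.exp (C₀ * n) := by rw [hc₄]; ring
    rw [h1, mul_pow, ← Real.exp_nat_mul, hD₀]
    ring
  obtain ⟨col, hcol⟩ := super_aux hd0 hg hR1 hA1 hAg1
    (fun i j => (hAg' g hdet hgR i j).trans (le_max_left _ _)) hN he1 hs0 (hssm.trans hsm1) (by
      have h1 : N * (d * ((d * (s * d)) * (d * (R * d)) ^ d)) = (N * s) * T := by
        rw [hT]; ring
      rw [h1, hNs]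
      exact hsm2) (by
      intro a ha0 ha1
      have hdet' : |(diagonal a * g).det| = V := by
        rw [Matrix.det_mul, Matrix.det_diagonal, ha1, one_mul, hdet]
      have hnu' : HasNu (diagonal a * g) ν := by
        intro m hm
        rw [FF_diag_mul, ha1, one_mul]
        exact hnu m hm
      obtain ⟨γ, hγ, hγR⟩ := hR' _ hdet' hnu'
      refine ⟨γ, hγ, fun i j => (hγR i j).trans (le_max_left _ _), fun i j => ?_⟩
      refine (hA' _ ?_ (fun i j => (hγR i j).trans (le_max_left _ _)) i j).trans (le_max_left _ _)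
      rw [Matrix.det_mul, det_zR, abs_mul, abs_det_of_isUnit hγ, mul_one, hdet'])
    (fun m => (hcon m).le) (r := C₀ * n) (ε := Real.exp (-Real.exp (C₀ * n)))
    (by rw [hYeq]; exact hfin) (by
      apply Real.exp_le_one_iff.2
      have := Real.exp_pos (C₀ * (n : ℝ))
      linarith)
  subst hn
  exact hloc g hdet hnu hint _ hn1 _ le_rfl col hcol

end Pool.Agent.KS6_90
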