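import Mathlib
import Pool.Agent.KS6_90.Sup5
import Pool.Graph.R_seed8.H715R2.CountableValues

/-! # Effective isolation: constants which only depend on the size of the matrix -/

set_option autoImplicit false

open Matrix Finset H715R2

namespace Pool.Agent.KS6_90

variable {d : ℕ}

lemma polyF_smul (t : ℝ) (g : Matrix (Fin d) (Fin d) ℝ) :
    polyF (t • g) = MvPolynomial.C (t ^ d) * polyF g := by
  have h1 : ∀ i : Fin d, (∑ j : Fin d, MvPolynomial.C ((t • g) i j) * MvPolynomial.X j :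
      MvPolynomial (Fin d) ℝ) =
      MvPolynomial.C t * ∑ j : Fin d, MvPolynomial.C (g i j) * MvPolynomial.X j := by
    intro i
    rw [Finset.mul_sum]
    refine Finset.sum_congr rfl fun j _ => ?_
    rw [Matrix.smul_apply, smul_eq_mul, MvPolynomial.C_mul, mul_assoc]
  rw [polyF, Finset.prod_congr rfl (fun i _ => h1 i), Finset.prod_mul_distrib,
    Finset.prod_const, Finset.card_univ, Fintype.card_fin, ← MvPolynomial.C_pow, polyF]

lemma FF_smul' (t : ℝ) (g : Matrix (Fin d) (Fin d) ℝ) (x : Fin d → ℝ) :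
    FF (t • g) x = t ^ d * FF g x := by
  rw [FF_eq, FF_eq, Matrix.smul_mulVec]
  simp only [Pi.smul_apply, smul_eq_mul]
  rw [Finset.prod_mul_distrib, Finset.prod_const, Finset.card_univ, Fintype.card_fin]

lemma propInt_of_smul {t : ℝ} (ht : t ≠ 0) {g : Matrix (Fin d) (Fin d) ℝ}
    (h : PropInt (t • g)) : PropInt g := by
  obtain ⟨c, hc, hz⟩ := h
  refine ⟨c * t ^ d, mul_ne_zero hc (pow_ne_zero _ ht), fun m => ?_⟩
  obtain ⟨z, hzz⟩ := hz m
  refine ⟨z, ?_⟩
  rw [polyF_smul, MvPolynomial.coeff_smul, MvPolynomial.coeff_C_mul, smul_eq_mul] at hzz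
  rw [MvPolynomial.coeff_smul, smul_eq_mul, ← hzz]
  ring

theorem isolation2 (hd : 3 ≤ d) {ν R₀ : ℝ} (hν : 0 < ν) :
    ∃ C : ℝ, 0 < C ∧ ∀ g : Matrix (Fin d) (Fin d) ℝ, g.det ≠ 0 → (∀ i j, |g i j| ≤ R₀) →
      HasNu g ν → ¬ PropInt g → ∀ N : ℝ, 1 ≤ N → ∀ G : MvPolynomial (Fin d) ℤ,
      ∃ m : Fin d →₀ ℕ, Real.exp (-Real.exp (C * N ^ (d ^ 2))) ≤
        |N * MvPolynomial.coeff m (polyF g) - (MvPolynomial.coeff m G : ℤ)| := by
  classical
  have hd0 : 0 < d := by omega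
  have hdd : d ^ 2 = d * d := by ring
  rw [hdd]
  set R₁ : ℝ := max R₀ 1 with hR₁
  have hR₁1 : 1 ≤ R₁ := le_max_right _ _
  set V₁ : ℝ := d.factorial * R₁ ^ d with hV₁
  have hV₁0 : 0 < V₁ := by positivity
  obtain ⟨C, hC, hiso⟩ := isolation hd (V := 1) (ν := ν / V₁) (R₀ := (1 + 2 / ν) * R₁)
    one_pos (by positivity)
  set k₁ : ℝ := 2 / ν + 1 with hk₁
  have hk₁1 : 1 ≤ k₁ := by
    have : 0 ≤ 2 / ν := by positivity
    linarith
  set L : ℝ := Real.log k₁ with hL
  have hL0 : 0 ≤ L := Real.log_nonneg hk₁1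
  have hlogL : 0 ≤ Real.log (1 + L) := Real.log_nonneg (by linarith)
  refine ⟨C * (1 + V₁) ^ (d * d) + Real.log (1 + L), by positivity, ?_⟩
  intro g hdet hgR hnu hint N hN G
  have hV : 0 < |g.det| := abs_pos.2 hdet
  obtain ⟨V, hVdef⟩ : ∃ V : ℝ, V = |g.det| := ⟨_, rfl⟩
  rw [← hVdef] at hV
  have hVV₁ : V ≤ V₁ := by
    have h1 := Matrix.det_le (A := g) (abv := AbsoluteValue.abs) (x := R₁)
      (fun i j => (hgR i j).trans (le_max_left _ _))
    rw [Fintype.card_fin, nsmul_eq_mul] at h1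
    rw [hVdef]
    exact h1
  have hνV : ν < 2 * V := by
    have h1 : (d.factorial : ℝ) ≤ (d : ℝ) ^ d := by exact_mod_cast Nat.factorial_le_pow d
    have h2 : (0 : ℝ) < (d : ℝ) ^ d := by
      have : (0 : ℝ) < d := by exact_mod_cast hd0
      positivity
    obtain ⟨m, hm, hm2⟩ := mink_prod hd0 V (2 * V) hV (by
      have h3 : (d.factorial : ℝ) * V ≤ (d : ℝ) ^ d * V := mul_le_mul_of_nonneg_right h1 hV.le
      have h4 : 0 < (d : ℝ) ^ d * V := mul_pos h2 hV
      linarith) g hVdef.symm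
    exact (hnu m hm).trans_lt hm2
  obtain ⟨t, ht0, htd⟩ : ∃ t : ℝ, 0 < t ∧ t ^ d = 1 / V := by
    refine ⟨(1 / V) ^ ((1 : ℝ) / d), Real.rpow_pos_of_pos (by positivity) _, ?_⟩
    rw [← Real.rpow_natCast, ← Real.rpow_mul (by positivity), one_div_mul_cancel, Real.rpow_one]
    exact_mod_cast hd0.ne'
  have ht1 : t ≤ 1 + 2 / ν := by
    by_cases h1 : t ≤ 1
    · have : 0 ≤ 2 / ν := by positivity
      linarith
    · push Not at h1
      have h2 : t ≤ t ^ d := le_self_pow₀ h1.le hd0.ne'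
      rw [htd] at h2
      have h3 : 1 / V ≤ 2 / ν := by
        rw [div_le_div_iff₀ hV hν]
        linarith
      linarith
  -- the normalised matrix
  have hdet1 : |(t • g).det| = 1 := by
    rw [Matrix.det_smul, Fintype.card_fin, abs_mul, ← hVdef, abs_of_pos (by positivity), htd]
    exact one_div_mul_cancel hV.ne'
  have hent : ∀ i j, |(t • g) i j| ≤ (1 + 2 / ν) * R₁ := by
    intro i j
    rw [Matrix.smul_apply, smul_eq_mul, abs_mul, abs_of_pos ht0]
    exact mul_le_mul ht1 ((hgR i j).trans (le_max_left _ _)) (abs_nonneg _) (by positivity)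
  have hnu1 : HasNu (t • g) (ν / V₁) := by
    intro m hm
    rw [FF_smul', abs_mul, abs_of_pos (by positivity), htd]
    calc ν / V₁ ≤ ν / V := div_le_div_of_nonneg_left hν.le hV hVV₁
      _ = 1 / V * ν := by ring
      _ ≤ 1 / V * |FF g (iR m)| := mul_le_mul_of_nonneg_left (hnu m hm) (by positivity)
  have hint1 : ¬ PropInt (t • g) := fun h => hint (propInt_of_smul ht0.ne' h)
  have hNV : 0 < N * V := by positivity
  obtain ⟨k, hk⟩ : ∃ k : ℕ, k = ⌈1 / (N * V)⌉₊ := ⟨_, rfl⟩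
  have hk1 : 1 / (N * V) ≤ k := by rw [hk]; exact Nat.le_ceil _
  have hk2 : (k : ℝ) < 1 / (N * V) + 1 := by
    rw [hk]; exact Nat.ceil_lt_add_one (by positivity)
  have hk0 : (0 : ℝ) < k := lt_of_lt_of_le (by positivity) hk1
  have hN₁ : 1 ≤ k * N * V := by
    rw [div_le_iff₀ hNV] at hk1
    linarith
  have hN₁' : k * N * V ≤ (1 + V₁) * N := by
    have h1 : k * N * V ≤ (1 / (N * V) + 1) * (N * V) := by
      rw [mul_assoc]
      exact mul_le_mul_of_nonneg_right hk2.le hNV.le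
    have h2 : (1 / (N * V) + 1) * (N * V) = 1 + N * V := by field_simp
    have h3 : N * V ≤ N * V₁ := mul_le_mul_of_nonneg_left hVV₁ (by linarith)
    rw [h2] at h1
    linarith
  have hkk₁ : (k : ℝ) ≤ k₁ := by
    refine hk2.le.trans ?_
    rw [hk₁]
    have h1 : 1 / (N * V) ≤ 2 / ν := by
      rw [div_le_div_iff₀ hNV hν]
      nlinarith
    linarith
  obtain ⟨m, hm⟩ := hiso (t • g) hdet1 hent hnu1 hint1 (k * N * V) hN₁ ((k : ℤ) • G)
  refine ⟨m, ?_⟩
  have hco : (k * N * V) * MvPolynomial.coeff m (polyF (t • g)) -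
      ((MvPolynomial.coeff m ((k : ℤ) • G) : ℤ) : ℝ) =
      k * (N * MvPolynomial.coeff m (polyF g) - (MvPolynomial.coeff m G : ℤ)) := by
    rw [polyF_smul, MvPolynomial.coeff_C_mul, htd, MvPolynomial.coeff_smul, smul_eq_mul]
    push_cast
    field_simp
  rw [hco, abs_mul, abs_of_pos hk0] at hm
  have hN0 : 0 < N := by linarith
  have hP1 : 1 ≤ N ^ (d * d) := one_le_pow₀ hN
  set X : ℝ := C * (1 + V₁) ^ (d * d) * N ^ (d * d) with hX
  have hX0 : 0 ≤ X := by positivity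
  have h1 : C * (k * N * V) ^ (d * d) ≤ X := by
    have h0 : X = C * ((1 + V₁) * N) ^ (d * d) := by rw [hX, mul_pow]; ring
    rw [h0]
    refine mul_le_mul_of_nonneg_left ?_ hC.le
    exact pow_le_pow_left₀ (by linarith) hN₁' _
  have h2 : Real.exp X + L ≤ Real.exp ((C * (1 + V₁) ^ (d * d) + Real.log (1 + L)) *
      N ^ (d * d)) := by
    have h3 : (C * (1 + V₁) ^ (d * d) + Real.log (1 + L)) * N ^ (d * d) =
        Real.log (1 + L) * N ^ (d * d) + X := by rw [hX]; ring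
    rw [h3, Real.exp_add]
    have h4 : 1 + L ≤ Real.exp (Real.log (1 + L) * N ^ (d * d)) := by
      calc 1 + L = Real.exp (Real.log (1 + L)) := (Real.exp_log (by linarith)).symm
        _ ≤ _ := Real.exp_le_exp.2 (by nlinarith)
    have h5 : 1 ≤ Real.exp X := Real.one_le_exp hX0
    calc Real.exp X + L ≤ (1 + L) * Real.exp X := by nlinarith
      _ ≤ _ := mul_le_mul_of_nonneg_right h4 (Real.exp_pos _).le
  have h3 : Real.exp (-Real.exp ((C * (1 + V₁) ^ (d * d) + Real.log (1 + L)) *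
      N ^ (d * d))) * k ≤ Real.exp (-Real.exp (C * (k * N * V) ^ (d * d))) := by
    have h4 : (k : ℝ) ≤ Real.exp L := by
      rw [hL, Real.exp_log (by linarith)]
      exact hkk₁
    calc Real.exp (-Real.exp ((C * (1 + V₁) ^ (d * d) + Real.log (1 + L)) *
          N ^ (d * d))) * k ≤ Real.exp (-Real.exp ((C * (1 + V₁) ^ (d * d) +
          Real.log (1 + L)) * N ^ (d * d))) * Real.exp L :=
          mul_le_mul_of_nonneg_left h4 (Real.exp_pos _).le
      _ = Real.exp (-Real.exp ((C * (1 + V₁) ^ (d * d) +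
          Real.log (1 + L)) * N ^ (d * d)) + L) := by rw [Real.exp_add]
      _ ≤ _ := by
          apply Real.exp_le_exp.2
          have h5 : Real.exp (C * (k * N * V) ^ (d * d)) ≤ Real.exp X := Real.exp_le_exp.2 h1
          linarith
  have h4 := h3.trans hm
  rw [mul_comm (k : ℝ)] at h4
  exact le_of_mul_le_mul_right h4 hk0

end Pool.Agent.KS6_90
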